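import Mathlib
import Pool.Prelude.Def_H_5bc12717

/-!
# C4-free subgraphs of the hypercube and the number of empty squares
-/

open Finset

namespace Pool.Agent.H.MP_4093f8_co.EmptySquares

variable {n : ℕ}

/-- The vertex obtained from `x` by changing coordinate `i`. -/
def fl (x : Fin n → Bool) (i : Fin n) : Fin n → Bool := Function.update x i (!x i)

/-- The square (4-cycle of the cube) spanned by the coordinates `i`, `j` at the vertex `x` contains
no edge of `H`. -/
def NoEdge (H : SimpleGraph (Fin n → Bool)) (x : Fin n → Bool) (i j : Fin n) : Prop :=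
  ¬ H.Adj x (fl x i) ∧ ¬ H.Adj x (fl x j) ∧ ¬ H.Adj (fl x i) (fl (fl x i) j) ∧
    ¬ H.Adj (fl x j) (fl (fl x j) i)

open Classical in
/-- The squares of the cube without an edge of `H`. A square is given by its two coordinates `i < j`
and its vertex `x` with `x i = x j = 0`. -/
noncomputable def emptySquares (H : SimpleGraph (Fin n → Bool)) :
    Finset ((Fin n → Bool) × Fin n × Fin n) :=
  univ.filter (fun t => t.2.1 < t.2.2 ∧ t.1 t.2.1 = false ∧ t.1 t.2.2 = false ∧
    NoEdge H t.1 t.2.1 t.2.2)

lemma fl_self (x : Fin n → Bool) (i : Fin n) : fl x i i = !x i := by simp [fl]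

lemma fl_ne (x : Fin n → Bool) {i j : Fin n} (h : j ≠ i) : fl x i j = x j := by simp [fl, h]

lemma fl_fl (x : Fin n → Bool) (i : Fin n) : fl (fl x i) i = x := by
  funext k
  by_cases h : k = i
  · subst h
    rw [fl_self, fl_self, Bool.not_not]
  · rw [fl_ne _ h, fl_ne _ h]

lemma fl_comm (x : Fin n → Bool) {i j : Fin n} (hij : i ≠ j) :
    fl (fl x i) j = fl (fl x j) i := by
  funext k
  by_cases hi : k = i
  · subst hi
    rw [fl_ne _ hij, fl_self, fl_self, fl_ne _ hij]
  · by_cases hj : k = j
    · subst hj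
      rw [fl_self, fl_ne _ hi, fl_ne _ hi, fl_self]
    · rw [fl_ne _ hj, fl_ne _ hi, fl_ne _ hi, fl_ne _ hj]

lemma sum_fl {M : Type*} [AddCommMonoid M] (i : Fin n) (f : (Fin n → Bool) → M) :
    ∑ x, f (fl x i) = ∑ x, f x :=
  Equiv.sum_comp (Function.Involutive.toPerm (fun x => fl x i) (fun x => fl_fl x i)) f

section

open Classical

/-- `1` if the edge in direction `i` at `x` is in `H`, otherwise `-1`. -/
noncomputable def ep (H : SimpleGraph (Fin n → Bool)) (x : Fin n → Bool) (i : Fin n) : ℤ :=
  if H.Adj x (fl x i) then 1 else -1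

variable (H : SimpleGraph (Fin n → Bool))

lemma ep_fl (x : Fin n → Bool) (i : Fin n) : ep H (fl x i) i = ep H x i := by
  unfold ep
  rw [fl_fl, SimpleGraph.adj_comm]

lemma ep_sq (x : Fin n → Bool) (i : Fin n) : ep H x i * ep H x i = 1 := by
  unfold ep
  split_ifs <;> norm_num

lemma adj_fl_of_adj (hH : H ≤ SimpleGraph.hypercube n) {x y : Fin n → Bool} (h : H.Adj x y) :
    ∃ i, y = fl x i := by
  have h1 := hH h
  rw [SimpleGraph.hypercube_adj, card_eq_one] at h1
  obtain ⟨i, hi⟩ := h1
  refine ⟨i, ?_⟩
  funext k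
  by_cases hk : k = i
  · subst hk
    have : k ∈ ({k} : Finset (Fin n)) := mem_singleton_self k
    rw [← hi, mem_filter] at this
    rw [fl_self]
    have h2 := this.2
    revert h2
    cases x k <;> cases y k <;> simp
  · have : k ∉ ({i} : Finset (Fin n)) := by simpa using hk
    rw [← hi, mem_filter] at this
    rw [fl_ne _ hk]
    by_contra hc
    exact this ⟨mem_univ _, fun he => hc he.symm⟩

lemma fl_inj (x : Fin n → Bool) {i j : Fin n} (h : fl x i = fl x j) : i = j := by
  by_contra hne
  have := congrFun h i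
  rw [fl_self, fl_ne _ hne] at this
  cases hx : x i <;> rw [hx] at this <;> simp at this

lemma degree_eq (hH : H ≤ SimpleGraph.hypercube n) (x : Fin n → Bool) :
    H.degree x = #(univ.filter (fun i => H.Adj x (fl x i))) := by
  rw [← SimpleGraph.card_neighborFinset_eq_degree]
  symm
  refine card_bij (fun i _ => fl x i) ?_ ?_ ?_
  · intro i hi
    rw [SimpleGraph.mem_neighborFinset]
    exact (mem_filter.mp hi).2
  · intro i _ j _ h
    exact fl_inj x h
  · intro y hy
    rw [SimpleGraph.mem_neighborFinset] at hy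
    obtain ⟨i, rfl⟩ := adj_fl_of_adj H hH hy
    exact ⟨i, mem_filter.mpr ⟨mem_univ _, hy⟩, rfl⟩

lemma sum_ep (hH : H ≤ SimpleGraph.hypercube n) (x : Fin n → Bool) :
    ∑ i, ep H x i = 2 * (H.degree x : ℤ) - n := by
  rw [degree_eq H hH]
  have h1 : ∀ i, ep H x i = 2 * (if H.Adj x (fl x i) then 1 else 0) - 1 := by
    intro i
    unfold ep
    split_ifs <;> norm_num
  rw [sum_congr rfl (fun i _ => h1 i), sum_sub_distrib, ← mul_sum, sum_boole]
  simp

/-- The number of vertices `x` such that the square at `x` in directions `i`, `j` is empty. -/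
noncomputable def cnt (i j : Fin n) : ℤ := ∑ x, (if NoEdge H x i j then 1 else 0)

lemma noEdge_fl_left (x : Fin n → Bool) {i j : Fin n} (hij : i ≠ j) :
    NoEdge H (fl x i) i j ↔ NoEdge H x i j := by
  unfold NoEdge
  rw [fl_fl, fl_comm x hij, fl_fl]
  rw [H.adj_comm (fl x i) x, H.adj_comm (fl (fl x j) i) (fl x j)]
  tauto

lemma noEdge_fl_right (x : Fin n → Bool) {i j : Fin n} (hij : i ≠ j) :
    NoEdge H (fl x j) i j ↔ NoEdge H x i j := by
  unfold NoEdge
  rw [fl_fl, ← fl_comm x hij, fl_fl]
  rw [H.adj_comm (fl x j) x, H.adj_comm (fl (fl x i) j) (fl x i)]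
  tauto

lemma noEdge_comm (x : Fin n → Bool) (i j : Fin n) : NoEdge H x i j ↔ NoEdge H x j i := by
  unfold NoEdge
  tauto

/-- A sum over all vertices of a function invariant under changing coordinate `i`. -/
lemma sum_half (i : Fin n) (f : (Fin n → Bool) → ℤ) (hf : ∀ x, f (fl x i) = f x) :
    ∑ x, f x = 2 * ∑ x, (if x i = false then f x else 0) := by
  have h1 : ∀ x, f x = (if x i = false then f x else 0) + (if x i = true then f x else 0) := by
    intro x
    cases x i <;> simp
  have h2 : ∑ x, (if x i = true then f x else 0) = ∑ x, (if x i = false then f x else 0) := by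
    rw [← sum_fl i]
    apply sum_congr rfl
    intro x _
    rw [fl_self, hf]
    cases x i <;> simp
  rw [sum_congr rfl (fun x _ => h1 x), sum_add_distrib, h2]
  ring

lemma cnt_eq {i j : Fin n} (hij : i ≠ j) :
    cnt H i j = 4 * (#(univ.filter (fun x : Fin n → Bool => x i = false ∧ x j = false ∧
      NoEdge H x i j)) : ℤ) := by
  unfold cnt
  rw [sum_half i _ (fun x => by rw [noEdge_fl_left H x hij])]
  rw [sum_half j _ (fun x => by rw [fl_ne _ hij, noEdge_fl_right H x hij])]
  rw [← mul_assoc]
  congr 1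
  rw [← sum_boole]
  apply sum_congr rfl
  intro x _
  by_cases h1 : x i = false <;> by_cases h2 : x j = false <;> by_cases h3 : NoEdge H x i j <;>
    simp [h1, h2, h3]

/-- The product over one square. -/
lemma square_le (hC : ¬ (SimpleGraph.cycleGraph 4).IsContained H) (x : Fin n → Bool)
    {i j : Fin n} (hij : i ≠ j) :
    (ep H x i + ep H (fl x j) i) * (ep H x j + ep H (fl x i) j)
      ≤ 4 * (if NoEdge H x i j then 1 else 0) := by
  by_cases h1 : H.Adj x (fl x i)
  · by_cases h2 : H.Adj x (fl x j)
    · by_cases h3 : H.Adj (fl x i) (fl (fl x i) j)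
      · by_cases h4 : H.Adj (fl x j) (fl (fl x j) i)
        · exfalso
          apply hC
          rw [← fl_comm x hij] at h4
          have n1 : x ≠ fl x i := h1.ne
          have n2 : x ≠ fl x j := h2.ne
          have n3 : fl x i ≠ fl (fl x i) j := h3.ne
          have n4 : fl x j ≠ fl (fl x i) j := h4.ne
          have n5 : fl x i ≠ fl x j := fun h => hij (fl_inj x h)
          have n6 : x ≠ fl (fl x i) j := by
            intro h
            have := congrFun h j
            rw [fl_self, fl_ne _ (Ne.symm hij)] at this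
            cases hx : x j <;> rw [hx] at this <;> simp at this
          refine ⟨⟨⟨![x, fl x i, fl (fl x i) j, fl x j], ?_⟩, ?_⟩⟩
          · intro a b hab
            have hab' : (SimpleGraph.cycleGraph 4).Adj a b := hab
            rw [SimpleGraph.cycleGraph_adj] at hab'
            fin_cases a <;> fin_cases b <;>
              first
                | exact h1 | exact h1.symm | exact h2 | exact h2.symm
                | exact h3 | exact h3.symm | exact h4 | exact h4.symm
                | (exfalso; revert hab'; decide)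
          · intro a b hab
            fin_cases a <;> fin_cases b <;>
              first
                | rfl
                | exact absurd hab n1 | exact absurd hab n1.symm
                | exact absurd hab n2 | exact absurd hab n2.symm
                | exact absurd hab n3 | exact absurd hab n3.symm
                | exact absurd hab n4 | exact absurd hab n4.symm
                | exact absurd hab n5 | exact absurd hab n5.symm
                | exact absurd hab n6 | exact absurd hab n6.symm
        · simp [ep, NoEdge, h1, h2, h3, h4]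
      · by_cases h4 : H.Adj (fl x j) (fl (fl x j) i) <;> simp [ep, NoEdge, h1, h2, h3, h4]
    · by_cases h3 : H.Adj (fl x i) (fl (fl x i) j) <;>
        by_cases h4 : H.Adj (fl x j) (fl (fl x j) i) <;> simp [ep, NoEdge, h1, h2, h3, h4]
  · by_cases h2 : H.Adj x (fl x j) <;> by_cases h3 : H.Adj (fl x i) (fl (fl x i) j) <;>
      by_cases h4 : H.Adj (fl x j) (fl (fl x j) i) <;> simp [ep, NoEdge, h1, h2, h3, h4]

lemma pair_le (hC : ¬ (SimpleGraph.cycleGraph 4).IsContained H) {i j : Fin n} (hij : i ≠ j) :
    ∑ x, ep H x i * ep H x j ≤ cnt H i j := by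
  have h0 : ∑ x, (ep H x i + ep H (fl x j) i) * (ep H x j + ep H (fl x i) j)
      = 4 * ∑ x, ep H x i * ep H x j := by
    have e1 : ∑ x, ep H x i * ep H (fl x i) j = ∑ x, ep H x i * ep H x j := by
      rw [← sum_fl i (fun x => ep H x i * ep H x j)]
      exact sum_congr rfl (fun x _ => by rw [ep_fl])
    have e2 : ∑ x, ep H (fl x j) i * ep H x j = ∑ x, ep H x i * ep H x j := by
      rw [← sum_fl j (fun x => ep H x i * ep H x j)]
      exact sum_congr rfl (fun x _ => by rw [ep_fl])
    have e3 : ∑ x, ep H (fl x j) i * ep H (fl x i) j = ∑ x, ep H x i * ep H x j := by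
      rw [← sum_fl i (fun x => ep H x i * ep H x j),
        ← sum_fl j (fun x => ep H (fl x i) i * ep H (fl x i) j)]
      apply sum_congr rfl
      intro x _
      have a1 : ep H (fl (fl x j) i) i = ep H (fl x j) i := ep_fl H _ _
      have a2 : ep H (fl (fl x j) i) j = ep H (fl x i) j := by
        rw [← fl_comm x hij]
        exact ep_fl H _ _
      rw [a1, a2]
    have e4 : ∀ x, (ep H x i + ep H (fl x j) i) * (ep H x j + ep H (fl x i) j)
        = ep H x i * ep H x j + ep H x i * ep H (fl x i) j + ep H (fl x j) i * ep H x j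
          + ep H (fl x j) i * ep H (fl x i) j := fun x => by ring
    rw [sum_congr rfl (fun x _ => e4 x), sum_add_distrib, sum_add_distrib, sum_add_distrib,
      e1, e2, e3]
    ring
  have h1 := sum_le_sum (fun x (_ : x ∈ (univ : Finset (Fin n → Bool))) =>
    square_le H hC x hij)
  rw [h0, ← mul_sum] at h1
  unfold cnt
  linarith

lemma card_empty : (#(emptySquares H) : ℤ)
    = ∑ i, ∑ j, (if i < j then (#(univ.filter (fun x : Fin n → Bool => x i = false ∧ x j = false ∧
      NoEdge H x i j)) : ℤ) else 0) := by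
  unfold emptySquares
  rw [← sum_boole, Fintype.sum_prod_type, sum_comm, Fintype.sum_prod_type]
  apply sum_congr rfl
  intro i _
  apply sum_congr rfl
  intro j _
  by_cases h : i < j
  · simp only [h, true_and, if_true]
    rw [sum_boole]
  · simp [h]

/-- The basic inequality. -/
theorem main_ineq (hH : H ≤ SimpleGraph.hypercube n)
    (hC : ¬ (SimpleGraph.cycleGraph 4).IsContained H) :
    ∑ x, (2 * (H.degree x : ℤ) - n) ^ 2 ≤ (n : ℤ) * 2 ^ n + 8 * (#(emptySquares H) : ℤ) := by
  have h1 : ∀ x, (2 * (H.degree x : ℤ) - n) ^ 2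
      = ∑ i, ∑ j, ep H x i * ep H x j := by
    intro x
    rw [← sum_ep H hH, pow_two, sum_mul_sum]
  rw [sum_congr rfl (fun x _ => h1 x), sum_comm]
  have h2 : ∀ i : Fin n, ∑ x, ∑ j, ep H x i * ep H x j
      ≤ 2 ^ n + ∑ j, (if i ≠ j then cnt H i j else 0) := by
    intro i
    rw [sum_comm]
    rw [← add_sum_erase univ _ (mem_univ i)]
    have e1 : ∑ x : Fin n → Bool, ep H x i * ep H x i = 2 ^ n := by
      rw [sum_congr rfl (fun x _ => ep_sq H x i)]
      simp
    rw [e1]
    have e2 : ∑ j, (if i ≠ j then cnt H i j else 0) = ∑ j ∈ univ.erase i, cnt H i j := by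
      rw [← sum_filter]
      apply sum_congr _ (fun _ _ => rfl)
      ext j
      simp [eq_comm]
    rw [e2]
    have e3 : ∑ j ∈ univ.erase i, ∑ x, ep H x i * ep H x j ≤ ∑ j ∈ univ.erase i, cnt H i j :=
      sum_le_sum (fun j hj => pair_le H hC (Ne.symm (ne_of_mem_erase hj)))
    linarith
  refine (sum_le_sum (fun i _ => h2 i)).trans ?_
  rw [sum_add_distrib]
  have h3 : ∑ i : Fin n, ∑ j, (if i ≠ j then cnt H i j else 0) = 8 * (#(emptySquares H) : ℤ) := by
    set c : Fin n → Fin n → ℤ := fun i j => (#(univ.filter (fun x : Fin n → Bool =>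
      x i = false ∧ x j = false ∧ NoEdge H x i j)) : ℤ) with hc
    have hcomm : ∀ i j, c i j = c j i := by
      intro i j
      simp only [hc]
      congr 2
      ext x
      simp only [mem_filter, mem_univ, true_and]
      rw [noEdge_comm H x i j]
      tauto
    have e1 : ∀ i j : Fin n, (if i ≠ j then cnt H i j else 0)
        = 4 * (if i < j then c i j else 0) + 4 * (if j < i then c j i else 0) := by
      intro i j
      rcases lt_trichotomy i j with h | h | h
      · rw [if_pos h.ne, if_pos h, if_neg (not_lt.mpr h.le), cnt_eq H h.ne]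
        simp [hc]
      · subst h
        simp
      · rw [if_pos h.ne', if_pos h, if_neg (not_lt.mpr h.le), cnt_eq H h.ne', ← hcomm i j]
        simp [hc]
    rw [sum_congr rfl (fun i _ => sum_congr rfl (fun j _ => e1 i j))]
    simp only [sum_add_distrib, ← mul_sum]
    rw [sum_comm (f := fun i j => if j < i then c j i else 0), ← card_empty_aux H c hc]
    ring
  rw [h3]
  simp
where
  card_empty_aux (H : SimpleGraph (Fin n → Bool)) (c : Fin n → Fin n → ℤ)
      (hc : c = fun i j => (#(univ.filter (fun x : Fin n → Bool =>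
      x i = false ∧ x j = false ∧ NoEdge H x i j)) : ℤ)) :
      (#(emptySquares H) : ℤ) = ∑ i, ∑ j, (if i < j then c i j else 0) := by
    rw [hc]
    exact card_empty H

end

open Classical in
/-- **Empty squares of a `C4`-free subgraph of the cube.** Let `H` be a subgraph of `Q_n` without
`C4`, with `e` edges, and let `N` be the number of squares of `Q_n` without an edge of `H`. Then
`(4 e - n 2^n)^2 ≤ 2^n (n 2^n + 8 N)`. In particular, if every square of `Q_n` contains an edge of
`H`, then `e ≤ (n + √n) 2^n / 4`. -/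
theorem result (n : ℕ) (H : SimpleGraph (Fin n → Bool)) (hH : H ≤ SimpleGraph.hypercube n)
    (hC : ¬ (SimpleGraph.cycleGraph 4).IsContained H) :
    (4 * (H.edgeSet.ncard : ℝ) - n * 2 ^ n) ^ 2 ≤ 2 ^ n * (n * 2 ^ n + 8 * #(emptySquares H)) ∧
    (emptySquares H = ∅ → (H.edgeSet.ncard : ℝ) ≤ (n + √n) * 2 ^ n / 4) := by
  have he : H.edgeSet.ncard = #H.edgeFinset := by
    rw [Set.ncard_eq_toFinset_card']
    rfl
  have h1 := main_ineq H hH hC
  have h2 : (∑ x, (2 * (H.degree x : ℤ) - n)) ^ 2
      ≤ (2 ^ n : ℤ) * ∑ x, (2 * (H.degree x : ℤ) - n) ^ 2 := by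
    have := sq_sum_le_card_mul_sum_sq (s := (univ : Finset (Fin n → Bool)))
      (f := fun x => (2 * (H.degree x : ℤ) - n))
    simpa using this
  have h3 : ∑ x, (2 * (H.degree x : ℤ) - n) = 4 * (#H.edgeFinset : ℤ) - n * 2 ^ n := by
    rw [sum_sub_distrib, ← mul_sum]
    have := H.sum_degrees_eq_twice_card_edges
    have h4 : (∑ x, (H.degree x : ℤ)) = 2 * #H.edgeFinset := by exact_mod_cast this
    rw [h4]
    simp
    ring
  rw [h3] at h2
  have h5 : ((4 * (#H.edgeFinset : ℤ) - n * 2 ^ n) ^ 2 : ℤ)
      ≤ 2 ^ n * (n * 2 ^ n + 8 * #(emptySquares H)) :=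
    h2.trans (mul_le_mul_of_nonneg_left h1 (by positivity))
  have h6 : (4 * (H.edgeSet.ncard : ℝ) - n * 2 ^ n) ^ 2
      ≤ 2 ^ n * (n * 2 ^ n + 8 * #(emptySquares H)) := by
    rw [he]
    exact_mod_cast h5
  refine ⟨h6, ?_⟩
  intro h0
  rw [h0, Finset.card_empty] at h6
  have h7 : (4 * (H.edgeSet.ncard : ℝ) - n * 2 ^ n) ^ 2 ≤ (√n * 2 ^ n) ^ 2 := by
    rw [mul_pow, Real.sq_sqrt (Nat.cast_nonneg n)]
    push_cast at h6
    nlinarith [h6]
  have h8 := abs_le_of_sq_le_sq' h7 (by positivity)
  linarith [h8.2]

end Pool.Agent.H.MP_4093f8_co.EmptySquares
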