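import Mathlib

/-!
# Ordered counting in the cube, part A

Signs, orthogonality, Chebyshev's inequality, the averaging formula over a set of coordinates.
-/

open Finset

namespace Pool.Agent.H.MP_4093f8_co.Ord

variable {n : ℕ}

/-- The point `x` with its coordinate `i` switched. -/
def fl (x : Fin n → Bool) (i : Fin n) : Fin n → Bool := Function.update x i (!x i)

lemma fl_self (x : Fin n → Bool) (i : Fin n) : fl x i i = !x i := by simp [fl]

lemma fl_ne (x : Fin n → Bool) {i k : Fin n} (h : k ≠ i) : fl x i k = x k := by simp [fl, h]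

lemma fl_fl (x : Fin n → Bool) (i : Fin n) : fl (fl x i) i = x := by
  funext k
  by_cases h : k = i
  · subst h; simp [fl]
  · simp [fl, h]

lemma fl_comm (x : Fin n → Bool) (i j : Fin n) : fl (fl x i) j = fl (fl x j) i := by
  by_cases hij : i = j
  · subst hij; rfl
  · funext k
    by_cases h1 : k = i
    · subst h1
      simp [fl, hij]
    · by_cases h2 : k = j
      · subst h2
        simp [fl, h1]
      · simp [fl, h1, h2]

/-- Switching a coordinate, as a permutation of the cube. -/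
def flEquiv (i : Fin n) : (Fin n → Bool) ≃ (Fin n → Bool) :=
  ⟨fun x => fl x i, fun x => fl x i, fun x => fl_fl x i, fun x => fl_fl x i⟩

lemma sum_fl {M : Type*} [AddCommMonoid M] (f : (Fin n → Bool) → M) (i : Fin n) :
    ∑ x, f (fl x i) = ∑ x, f x :=
  Equiv.sum_comp (flEquiv i) f

/-- The sign `1` if `x i = false` and `-1` if `x i = true`. -/
noncomputable def ep (i : Fin n) (x : Fin n → Bool) : ℝ := if x i = true then -1 else 1

lemma ep_fl_self (i : Fin n) (x : Fin n → Bool) : ep i (fl x i) = - ep i x := by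
  unfold ep
  rw [fl_self]
  cases x i <;> simp

lemma ep_fl_ne {i j : Fin n} (h : i ≠ j) (x : Fin n → Bool) : ep i (fl x j) = ep i x := by
  unfold ep
  rw [fl_ne x h]

lemma ep_sq (i : Fin n) (x : Fin n → Bool) : ep i x * ep i x = 1 := by
  unfold ep; split <;> norm_num

lemma sum_mul_ep (F : (Fin n → Bool) → ℝ) (i : Fin n) (h : ∀ y, F (fl y i) = F y) :
    ∑ y, F y * ep i y = 0 := by
  have h1 : ∑ y, F y * ep i y = ∑ y, F (fl y i) * ep i (fl y i) :=
    (sum_fl (fun y => F y * ep i y) i).symm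
  have h2 : ∑ y, F (fl y i) * ep i (fl y i) = - ∑ y, F y * ep i y := by
    rw [← Finset.sum_neg_distrib]
    exact Finset.sum_congr rfl fun y _ => by rw [h, ep_fl_self]; ring
  linarith

/-- Orthogonality of signed sums. -/
lemma orth (ρ : Fin n → ℕ) (hρ : Function.Injective ρ) (S : Finset (Fin n))
    (φ : Fin n → (Fin n → Bool) → ℝ)
    (h : ∀ i ∈ S, ∀ j ∈ S, ρ i ≤ ρ j → ∀ y, φ i (fl y j) = φ i y) :
    ∑ y, (∑ i ∈ S, φ i y * ep i y) ^ 2 = ∑ y, ∑ i ∈ S, φ i y ^ 2 := by
  have h0 : ∀ i ∈ S, ∀ j ∈ S, ρ i < ρ j →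
      ∑ y, (φ i y * ep i y) * (φ j y * ep j y) = 0 := by
    intro i hi j hj hij
    have hne : i ≠ j := fun e => by subst e; exact lt_irrefl _ hij
    have := sum_mul_ep (fun y => (φ i y * ep i y) * φ j y) j (fun y => by
      rw [h i hi j hj hij.le, h j hj j hj le_rfl, ep_fl_ne hne])
    rw [← this]
    exact Finset.sum_congr rfl fun y _ => by ring
  have h1 : ∀ i ∈ S, ∀ j ∈ S, ∑ y, (φ i y * ep i y) * (φ j y * ep j y) =
      if i = j then ∑ y, φ i y ^ 2 else 0 := by
    intro i hi j hj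
    by_cases hij : i = j
    · subst hij
      rw [if_pos rfl]
      refine Finset.sum_congr rfl fun y _ => ?_
      have := ep_sq i y
      calc φ i y * ep i y * (φ i y * ep i y) = φ i y ^ 2 * (ep i y * ep i y) := by ring
        _ = φ i y ^ 2 := by rw [this, mul_one]
    · rw [if_neg hij]
      rcases lt_or_gt_of_ne (fun e => hij (hρ e)) with hlt | hlt
      · exact h0 i hi j hj hlt
      · rw [← h0 j hj i hi hlt]
        exact Finset.sum_congr rfl fun y _ => by ring
  have h2 : ∀ y : Fin n → Bool, (∑ i ∈ S, φ i y * ep i y) ^ 2 =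
      ∑ i ∈ S, ∑ j ∈ S, (φ i y * ep i y) * (φ j y * ep j y) := by
    intro y
    rw [sq, Finset.sum_mul_sum]
  rw [Finset.sum_congr rfl fun y _ => h2 y, Finset.sum_comm]
  have h3 : ∀ i ∈ S, ∑ y : Fin n → Bool, ∑ j ∈ S, (φ i y * ep i y) * (φ j y * ep j y) =
      ∑ y, φ i y ^ 2 := by
    intro i hi
    rw [Finset.sum_comm, Finset.sum_congr rfl fun j hj => h1 i hi j hj]
    simp [hi]
  rw [Finset.sum_congr rfl fun i hi => h3 i hi, Finset.sum_comm]

/-- An `L¹` bound from orthogonality. -/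
lemma sum_abs_le (ρ : Fin n → ℕ) (hρ : Function.Injective ρ) (S : Finset (Fin n))
    (φ : Fin n → (Fin n → Bool) → ℝ)
    (h : ∀ i ∈ S, ∀ j ∈ S, ρ i ≤ ρ j → ∀ y, φ i (fl y j) = φ i y) {K : ℝ} (hK : 0 < K)
    (hb : ∀ y, ∑ i ∈ S, φ i y ^ 2 ≤ 1 / K) :
    ∑ y, |∑ i ∈ S, φ i y * ep i y| ≤ 2 ^ n / Real.sqrt K := by
  have h1 := sq_sum_le_card_mul_sum_sq (s := (univ : Finset (Fin n → Bool)))
    (f := fun y => |∑ i ∈ S, φ i y * ep i y|)
  simp only [sq_abs] at h1
  rw [orth ρ hρ S φ h] at h1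
  have h2 : ∑ y : Fin n → Bool, ∑ i ∈ S, φ i y ^ 2 ≤ 2 ^ n * (1 / K) := by
    refine le_trans (Finset.sum_le_sum fun y _ => hb y) ?_
    simp
  have h3 : (∑ y, |∑ i ∈ S, φ i y * ep i y|) ^ 2 ≤ (2 ^ n / Real.sqrt K) ^ 2 := by
    refine le_trans h1 ?_
    rw [div_pow, Real.sq_sqrt hK.le]
    have : (((univ : Finset (Fin n → Bool)).card : ℕ) : ℝ) = 2 ^ n := by simp
    rw [this]
    calc (2 : ℝ) ^ n * ∑ y : Fin n → Bool, ∑ i ∈ S, φ i y ^ 2 ≤ 2 ^ n * (2 ^ n * (1 / K)) := by
          exact mul_le_mul_of_nonneg_left h2 (by positivity)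
      _ = (2 ^ n) ^ 2 / K := by ring
  exact le_of_sq_le_sq h3 (by positivity)

/-- The number of ones of `x` in `S`. -/
def cnt (S : Finset (Fin n)) (x : Fin n → Bool) : ℕ := (S.filter fun j => x j = true).card

lemma cnt_congr {S : Finset (Fin n)} {x y : Fin n → Bool} (h : ∀ j ∈ S, x j = y j) :
    cnt S x = cnt S y := by
  unfold cnt
  congr 1
  exact Finset.filter_congr fun j hj => by rw [h j hj]

lemma cnt_fl_of_notMem {S : Finset (Fin n)} {i : Fin n} (h : i ∉ S) (x : Fin n → Bool) :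
    cnt S (fl x i) = cnt S x :=
  cnt_congr fun _ hj => fl_ne x (fun e => h (e ▸ hj))

lemma cnt_insert {S : Finset (Fin n)} {i : Fin n} (h : i ∉ S) (x : Fin n → Bool) :
    cnt (insert i S) x = cnt S x + (if x i = true then 1 else 0) := by
  unfold cnt
  rw [Finset.filter_insert]
  split
  · rw [Finset.card_insert_of_notMem (fun hh => h (Finset.mem_filter.1 hh).1)]
  · simp

lemma cnt_fl_of_mem {S : Finset (Fin n)} {i : Fin n} (h : i ∈ S) (x : Fin n → Bool)
    (hx : x i = false) : cnt S (fl x i) = cnt S x + 1 := by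
  have e : S = insert i (S.erase i) := (Finset.insert_erase h).symm
  rw [e, cnt_insert (Finset.notMem_erase i S), cnt_insert (Finset.notMem_erase i S),
    cnt_fl_of_notMem (Finset.notMem_erase i S), fl_self, hx]
  simp

lemma sum_ep (S : Finset (Fin n)) (x : Fin n → Bool) :
    ∑ i ∈ S, (1 : ℝ) * ep i x = S.card - 2 * cnt S x := by
  unfold ep cnt
  have : ∀ i ∈ S, (1 : ℝ) * (if x i = true then -1 else 1) =
      1 - 2 * (if x i = true then (1 : ℝ) else 0) := by
    intro i _; split <;> norm_num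
  rw [Finset.sum_congr rfl this, Finset.sum_sub_distrib, ← Finset.mul_sum, Finset.sum_boole]
  simp

/-- Chebyshev's inequality. -/
lemma cheb (S : Finset (Fin n)) {R : ℝ} (hR : 0 < R) :
    (((univ : Finset (Fin n → Bool)).filter
      (fun x => R ≤ |2 * (cnt S x : ℝ) - S.card|)).card : ℝ) ≤ S.card * 2 ^ n / R ^ 2 := by
  have h1 := orth (fun i : Fin n => (i : ℕ)) Fin.val_injective S (fun _ _ => (1 : ℝ))
    (fun _ _ _ _ _ _ => rfl)
  have h2 : ∑ y : Fin n → Bool, ∑ i ∈ S, (1 : ℝ) ^ 2 = S.card * 2 ^ n := by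
    simp; ring
  rw [h2] at h1
  rw [le_div_iff₀ (by positivity), ← h1]
  rw [Finset.card_filter]
  push_cast
  rw [Finset.sum_mul]
  refine Finset.sum_le_sum fun x _ => ?_
  rw [sum_ep]
  split
  · rename_i hx
    have : R ^ 2 ≤ |2 * (cnt S x : ℝ) - S.card| ^ 2 := pow_le_pow_left₀ hR.le hx 2
    rw [sq_abs] at this
    nlinarith
  · simp; positivity

/-- Averaging over the coordinates of `S`. -/
lemma avg (S : Finset (Fin n)) : ∀ (Φ : (Fin n → Bool) → ℕ → ℝ),
    (∀ i ∈ S, ∀ y t, Φ (fl y i) t = Φ y t) →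
    ∑ x, Φ x (cnt S x) =
      ∑ x, ∑ t ∈ range (S.card + 1), (S.card.choose t : ℝ) / 2 ^ S.card * Φ x t := by
  classical
  induction S using Finset.induction_on with
  | empty =>
    intro Φ _
    refine Finset.sum_congr rfl fun x _ => ?_
    simp [cnt]
  | insert a S ha ih =>
    intro Φ hΦ
    have h1 : ∑ x, Φ x (cnt (insert a S) x) =
        ∑ x, Φ x (cnt S x + (if x a = true then 1 else 0)) :=
      Finset.sum_congr rfl fun x _ => by rw [cnt_insert ha]
    rw [h1, ih (fun x t => Φ x (t + (if x a = true then 1 else 0)))]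
    swap
    · intro i hi y t
      have hne : a ≠ i := fun e => ha (e ▸ hi)
      rw [fl_ne y hne, hΦ i (Finset.mem_insert_of_mem hi)]
    rw [Finset.card_insert_of_notMem ha]
    set k := S.card
    set F : (Fin n → Bool) → ℝ := fun x => ∑ t ∈ range (k + 1), (k.choose t : ℝ) / 2 ^ k *
      Φ x (t + (if x a = true then 1 else 0)) with hF
    have h2 : ∑ x, F x = ∑ x, (F x + F (fl x a)) / 2 := by
      rw [← Finset.sum_div, Finset.sum_add_distrib, sum_fl F a]; ring
    have h3 : ∑ x, F x = ∑ x, F x := rfl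
    change ∑ x, F x = _
    rw [h2]
    refine Finset.sum_congr rfl fun x _ => ?_
    have h4 : F x + F (fl x a) = ∑ t ∈ range (k + 1), (k.choose t : ℝ) / 2 ^ k * Φ x t +
        ∑ t ∈ range (k + 1), (k.choose t : ℝ) / 2 ^ k * Φ x (t + 1) := by
      simp only [hF, fl_self]
      have hinv : ∀ t, Φ (fl x a) t = Φ x t := hΦ a (Finset.mem_insert_self a S) x
      simp only [hinv]
      cases x a
      · simp
      · simp [add_comm]
    rw [h4]
    have h5 : ∑ t ∈ range (k + 1), (k.choose t : ℝ) / 2 ^ k * Φ x t =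
        ∑ t ∈ range (k + 1 + 1), (k.choose t : ℝ) / 2 ^ k * Φ x t := by
      rw [Finset.sum_range_succ _ (k + 1)]
      simp
    rw [h5, Finset.sum_range_succ', Finset.sum_range_succ' _ (k + 1), add_right_comm,
      ← Finset.sum_add_distrib, add_div, Finset.sum_div]
    congr 1
    · refine Finset.sum_congr rfl fun t _ => ?_
      rw [Nat.choose_succ_succ]
      push_cast
      rw [pow_succ]
      ring
    · simp only [Nat.choose_zero_right, Nat.cast_one]
      rw [pow_succ]
      ring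

end Pool.Agent.H.MP_4093f8_co.Ord
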