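import Mathlib

/-!
# Ordered counting in the cube, part B

Elementary estimates of binomial coefficients and sums.
-/

open Finset

namespace Pool.Agent.H.MP_4093f8_co.Ord

/-- The shifted binomial coefficient `C(k, w - p)`, zero if `w < p`. -/
noncomputable def chs (k w p : ℕ) : ℝ := if p ≤ w then (k.choose (w - p) : ℝ) else 0

lemma chs_nonneg (k w p : ℕ) : 0 ≤ chs k w p := by
  unfold chs; split <;> positivity

lemma chs_succ (k w p : ℕ) : chs k (w + 1) (p + 1) = chs k w p := by
  unfold chs
  simp only [Nat.add_le_add_iff_right, Nat.add_sub_add_right]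

/-- The central binomial coefficient. -/
noncomputable def cb (k : ℕ) : ℝ := (k.choose (k / 2) : ℝ)

lemma cb_pos (k : ℕ) : 0 < cb k := by
  unfold cb
  exact_mod_cast Nat.choose_pos (Nat.div_le_self k 2)

lemma chs_le_cb (k w p : ℕ) : chs k w p ≤ cb k := by
  unfold chs
  split
  · unfold cb
    exact_mod_cast Nat.choose_le_middle _ k
  · exact (cb_pos k).le

lemma cb_le_pow (k : ℕ) : cb k ≤ 2 ^ k := by
  unfold cb
  have : k.choose (k / 2) ≤ 2 ^ k := Nat.choose_le_two_pow k (k / 2)
  exact_mod_cast this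

lemma chs_le_pow (k w p : ℕ) : chs k w p ≤ 2 ^ k := (chs_le_cb k w p).trans (cb_le_pow k)

lemma chs_up {k w p : ℕ} (h : w + 1 ≤ p + k / 2) : chs k w p ≤ chs k (w + 1) p := by
  unfold chs
  by_cases hp : p ≤ w
  · rw [if_pos hp, if_pos (by omega)]
    have e : w + 1 - p = (w - p) + 1 := by omega
    rw [e]
    have : k.choose (w - p) ≤ k.choose (w - p + 1) := Nat.choose_le_succ_of_lt_half_left (by omega)
    exact_mod_cast this
  · rw [if_neg hp]
    split <;> positivity

lemma chs_down {k w p : ℕ} (h : p + k / 2 ≤ w) : chs k (w + 1) p ≤ chs k w p := by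
  unfold chs
  rw [if_pos (by omega), if_pos (by omega)]
  have e : w + 1 - p = (w - p) + 1 := by omega
  rw [e]
  have ht : k / 2 ≤ w - p := by omega
  generalize w - p = t at ht
  have key : k.choose (t + 1) ≤ k.choose t := by
    have h1 := Nat.choose_succ_right_eq k t
    have h2 : k - t ≤ t + 1 := by omega
    have h3 : k.choose (t + 1) * (t + 1) ≤ k.choose t * (t + 1) := by
      rw [h1]; exact Nat.mul_le_mul_left _ h2
    exact Nat.le_of_mul_le_mul_right h3 (Nat.succ_pos t)
  exact_mod_cast key

lemma sum_chs_le (k p : ℕ) : ∀ W : ℕ, ∑ w ∈ range W, chs k w p ≤ 2 ^ k := by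
  intro W
  have h1 : ∑ w ∈ range W, chs k w p ≤ ∑ t ∈ range W, (k.choose t : ℝ) := by
    unfold chs
    rw [← Finset.sum_filter]
    rw [← Finset.sum_image (s := (range W).filter (p ≤ ·)) (g := fun w => w - p)
      (f := fun t => (k.choose t : ℝ))]
    · refine Finset.sum_le_sum_of_subset_of_nonneg ?_ (fun _ _ _ => by positivity)
      intro t ht
      simp only [mem_image, mem_filter, mem_range] at ht ⊢
      omega
    · intro a ha b hb hab
      simp only [coe_filter, mem_range, Set.mem_setOf_eq] at ha hb hab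
      omega
  refine h1.trans ?_
  have h2 : ∑ t ∈ range W, (k.choose t : ℝ) ≤ ∑ t ∈ range (W + (k + 1)), (k.choose t : ℝ) :=
    Finset.sum_le_sum_of_subset_of_nonneg (Finset.range_mono (by omega))
      (fun _ _ _ => by positivity)
  have h3 : ∑ t ∈ range (W + (k + 1)), (k.choose t : ℝ) = ∑ t ∈ range (k + 1), (k.choose t : ℝ) := by
    symm
    apply Finset.sum_subset (Finset.range_mono (by omega))
    intro t _ ht
    rw [mem_range, not_lt] at ht
    rw [Nat.choose_eq_zero_of_lt (by omega)]
    simp
  rw [h3] at h2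
  refine h2.trans (le_of_eq ?_)
  exact_mod_cast Nat.sum_range_choose k

lemma sum_max_le (k p : ℕ) (W : ℕ) :
    ∑ w ∈ range W, max (chs k w p) (chs k (w + 1) p) ≤ 2 ^ k + cb k := by
  have key : ∀ W : ℕ, ∑ w ∈ range W, max (chs k w p) (chs k (w + 1) p) ≤
      if W ≤ p + k / 2 then ∑ w ∈ range (W + 1), chs k w p
      else ∑ w ∈ range W, chs k w p + cb k := by
    intro W
    induction W with
    | zero =>
      simp only [range_zero, sum_empty]
      split
      · simp [chs_nonneg]
      · simpa using (cb_pos k).le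
    | succ W ih =>
      rw [Finset.sum_range_succ]
      by_cases h1 : W + 1 ≤ p + k / 2
      · rw [if_pos h1]
        rw [if_pos (by omega)] at ih
        rw [max_eq_right (chs_up h1), Finset.sum_range_succ _ (W + 1)]
        linarith
      · rw [if_neg h1]
        have hd : p + k / 2 ≤ W := by omega
        rw [max_eq_left (chs_down hd)]
        by_cases h2 : W ≤ p + k / 2
        · rw [if_pos h2] at ih
          have := chs_le_cb k W p
          linarith
        · rw [if_neg h2] at ih
          rw [Finset.sum_range_succ]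
          linarith
  refine (key W).trans ?_
  split
  · have := sum_chs_le k p (W + 1)
    have := cb_pos k
    linarith
  · have := sum_chs_le k p W
    linarith

lemma cb_even (j : ℕ) : (j.centralBinom) ^ 2 * (2 * j + 1) ≤ 4 ^ (2 * j) := by
  induction j with
  | zero => simp
  | succ j ih =>
    have h := Nat.succ_mul_centralBinom_succ j
    have h1 : ((j + 1) * (j + 1).centralBinom) ^ 2 * (2 * (j + 1) + 1) =
        4 * ((2 * j + 1) * (2 * j + 3)) * (j.centralBinom ^ 2 * (2 * j + 1)) := by
      rw [h]; ring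
    have h2 : (j + 1) ^ 2 * ((j + 1).centralBinom ^ 2 * (2 * (j + 1) + 1)) ≤
        (j + 1) ^ 2 * 4 ^ (2 * (j + 1)) := by
      calc (j + 1) ^ 2 * ((j + 1).centralBinom ^ 2 * (2 * (j + 1) + 1)) =
            4 * ((2 * j + 1) * (2 * j + 3)) * (j.centralBinom ^ 2 * (2 * j + 1)) := by
            rw [← h1]; ring
        _ ≤ 4 * ((2 * j + 1) * (2 * j + 3)) * 4 ^ (2 * j) := Nat.mul_le_mul_left _ ih
        _ ≤ (16 * (j + 1) ^ 2) * 4 ^ (2 * j) := by
            apply Nat.mul_le_mul_right
            nlinarith
        _ = (j + 1) ^ 2 * 4 ^ (2 * (j + 1)) := by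
            rw [show 2 * (j + 1) = 2 * j + 2 by ring, pow_add]; ring
    exact Nat.le_of_mul_le_mul_left h2 (by positivity)

lemma cb_sq (k : ℕ) : cb k ^ 2 * (k + 1) ≤ 4 ^ k := by
  unfold cb
  have key : (k.choose (k / 2)) ^ 2 * (k + 1) ≤ 4 ^ k := by
    rcases Nat.even_or_odd' k with ⟨j, hj | hj⟩
    · subst hj
      have := cb_even j
      rw [Nat.centralBinom_eq_two_mul_choose] at this
      rwa [Nat.mul_div_cancel_left j (by norm_num : 0 < 2)]
    · subst hj
      have e : (2 * j + 1) / 2 = j := by omega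
      rw [e]
      have h1 := cb_even (j + 1)
      have h2 : (j + 1).centralBinom = 2 * (2 * j + 1).choose j := by
        rw [Nat.centralBinom_eq_two_mul_choose, show 2 * (j + 1) = (2 * j + 1) + 1 by ring,
          Nat.choose_succ_succ, Nat.succ_eq_add_one]
        have : (2 * j + 1).choose (j + 1) = (2 * j + 1).choose j :=
          (Nat.choose_symm_half j)
        omega
      rw [h2] at h1
      have h3 : 4 ^ (2 * (j + 1)) = 4 * 4 ^ (2 * j + 1) := by
        rw [show 2 * (j + 1) = (2 * j + 1) + 1 by ring, pow_succ]; ring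
      rw [h3] at h1
      nlinarith
  exact_mod_cast key

lemma cb_div_le (k : ℕ) : cb k / 2 ^ k ≤ 1 / Real.sqrt (k + 1) := by
  have h := cb_sq k
  have h4 : (4 : ℝ) ^ k = (2 ^ k) ^ 2 := by
    rw [← pow_mul, mul_comm, pow_mul]; norm_num
  rw [h4] at h
  have hs : (0 : ℝ) < Real.sqrt (k + 1) := Real.sqrt_pos.2 (by positivity)
  rw [div_le_div_iff₀ (by positivity) hs, one_mul]
  apply le_of_sq_le_sq _ (by positivity)
  rw [mul_pow, Real.sq_sqrt (by positivity)]
  exact h

lemma sum_inv_sqrt (l : ℕ) : ∑ r ∈ range l, 1 / Real.sqrt ((r : ℝ) + 1) ≤ 2 * Real.sqrt l := by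
  induction l with
  | zero => simp
  | succ l ih =>
    rw [Finset.sum_range_succ]
    have hs : (0 : ℝ) < Real.sqrt (l + 1) := Real.sqrt_pos.2 (by positivity)
    have h0 : (0 : ℝ) ≤ Real.sqrt l := Real.sqrt_nonneg _
    have h1 : Real.sqrt (l + 1) ^ 2 = l + 1 := Real.sq_sqrt (by positivity)
    have h2 : Real.sqrt l ^ 2 = l := Real.sq_sqrt (by positivity)
    have h3 : 1 / Real.sqrt ((l : ℝ) + 1) ≤ 2 * Real.sqrt (l + 1) - 2 * Real.sqrt l := by
      rw [div_le_iff₀ hs]
      nlinarith [sq_nonneg (Real.sqrt (l + 1) - Real.sqrt l)]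
    push_cast
    linarith

lemma sum_cb_le {ι : Type*} (B : Finset ι) (k : ι → ℕ) (hk : Set.InjOn k B)
    (hlt : ∀ m ∈ B, k m < B.card) :
    ∑ m ∈ B, cb (k m) / 2 ^ (k m) ≤ 2 * Real.sqrt B.card := by
  classical
  refine le_trans ?_ (sum_inv_sqrt B.card)
  refine le_trans (Finset.sum_le_sum fun m _ => cb_div_le (k m)) ?_
  have e : ∑ m ∈ B, 1 / Real.sqrt ((k m : ℝ) + 1) =
      ∑ r ∈ B.image k, 1 / Real.sqrt ((r : ℝ) + 1) :=
    (Finset.sum_image (g := k) (f := fun r : ℕ => 1 / Real.sqrt ((r : ℝ) + 1)) hk).symm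
  rw [e]
  refine Finset.sum_le_sum_of_subset_of_nonneg ?_ (fun _ _ _ => by positivity)
  intro t ht
  rw [mem_image] at ht
  obtain ⟨m, hm, rfl⟩ := ht
  exact mem_range.2 (hlt m hm)

section rank

variable {ι : Type*} (ρ : ι → ℕ) (hρ : Function.Injective ρ) (T : Finset ι)

lemma rank_lt {i : ι} (hi : i ∈ T) : (T.filter fun j => ρ j < ρ i).card < T.card := by
  apply Finset.card_lt_card
  rw [Finset.ssubset_iff_of_subset (Finset.filter_subset _ _)]
  exact ⟨i, hi, by simp⟩

lemma rank_lt' {i : ι} (hi : i ∈ T) : (T.filter fun j => ρ i < ρ j).card < T.card := by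
  apply Finset.card_lt_card
  rw [Finset.ssubset_iff_of_subset (Finset.filter_subset _ _)]
  exact ⟨i, hi, by simp⟩

include hρ

/-- The number of elements of `T` before `i` is injective on `T`. -/
lemma rank_inj : Set.InjOn (fun i => (T.filter fun j => ρ j < ρ i).card) T := by
  have key : ∀ a ∈ T, ∀ b ∈ T, ρ a < ρ b →
      (T.filter fun j => ρ j < ρ a).card < (T.filter fun j => ρ j < ρ b).card := by
    intro a ha b _ hab
    apply Finset.card_lt_card
    rw [Finset.ssubset_iff_of_subset]
    · exact ⟨a, by simp [ha, hab], by simp⟩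
    · intro j hj
      rw [mem_filter] at hj ⊢
      exact ⟨hj.1, hj.2.trans hab⟩
  intro a ha b hb hab
  by_contra hne
  rcases lt_or_gt_of_ne (fun e => hne (hρ e)) with h | h
  · exact (key a ha b hb h).ne hab
  · exact (key b hb a ha h).ne hab.symm

lemma rank_inj' : Set.InjOn (fun i => (T.filter fun j => ρ i < ρ j).card) T := by
  have key : ∀ a ∈ T, ∀ b ∈ T, ρ a < ρ b →
      (T.filter fun j => ρ b < ρ j).card < (T.filter fun j => ρ a < ρ j).card := by
    intro a _ b hb hab
    apply Finset.card_lt_card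
    rw [Finset.ssubset_iff_of_subset]
    · exact ⟨b, by simp [hb, hab], by simp⟩
    · intro j hj
      rw [mem_filter] at hj ⊢
      exact ⟨hj.1, hab.trans hj.2⟩
  intro a ha b hb hab
  by_contra hne
  rcases lt_or_gt_of_ne (fun e => hne (hρ e)) with h | h
  · exact (key a ha b hb h).ne hab.symm
  · exact (key b hb a ha h).ne hab

/-- At most `K` elements of `T` have fewer than `K` elements of `T` before them. -/
lemma rank_le (K : ℕ) :
    (T.filter fun i => (T.filter fun j => ρ j < ρ i).card < K).card ≤ K := by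
  have := Finset.card_le_card_of_injOn (s := T.filter fun i => (T.filter fun j => ρ j < ρ i).card < K)
    (t := range K) (fun i => (T.filter fun j => ρ j < ρ i).card)
    (fun i hi => by
      simp only [coe_filter, Set.mem_setOf_eq, coe_range, Set.mem_Iio] at hi ⊢
      exact hi.2)
    ((rank_inj ρ hρ T).mono (by intro x hx; simpa using (Finset.mem_filter.1 (Finset.mem_coe.1 hx)).1))
  simpa using this

/-- If `T` has at least `K` elements, exactly `K` elements of `T` have fewer than `K` elements of
`T` before them. -/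
lemma rank_eq {K : ℕ} (hK : K ≤ T.card) :
    (T.filter fun i => (T.filter fun j => ρ j < ρ i).card < K).card = K := by
  apply le_antisymm (rank_le ρ hρ T K)
  have hsurj : Set.SurjOn (fun i => (T.filter fun j => ρ j < ρ i).card) T (range T.card) := by
    apply Finset.surjOn_of_injOn_of_card_le
    · intro i hi
      simpa using rank_lt ρ T hi
    · exact rank_inj ρ hρ T
    · simp
  have := Finset.card_le_card_of_surjOn (s := T.filter fun i => (T.filter fun j => ρ j < ρ i).card < K)
    (t := range K) (fun i => (T.filter fun j => ρ j < ρ i).card) (by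
      intro k hk
      have hk' : k < K := by simpa using hk
      obtain ⟨i, hi, hik⟩ := hsurj (by simpa using lt_of_lt_of_le hk' hK)
      refine ⟨i, ?_, hik⟩
      simp only [coe_filter, Set.mem_setOf_eq]
      refine ⟨by simpa using hi, ?_⟩
      simp only at hik
      omega)
  simpa using this

end rank

end Pool.Agent.H.MP_4093f8_co.Ord
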