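import Pool.Agent.H.MP_4093f8_co.OrdA
import Pool.Agent.H.MP_4093f8_co.OrdB

/-!
# Ordered counting in the cube, part C

The comparison of two consecutive levels of a `C4`-free graph.
-/

open SimpleGraph Finset

namespace Pool.Agent.H.MP_4093f8_co.Ord

variable {n : ℕ}

lemma fl_ne_self (x : Fin n → Bool) (i : Fin n) : fl x i ≠ x := by
  intro h
  have := congrFun h i
  simp [fl] at this

lemma fl_fl_ne (x : Fin n → Bool) {i j : Fin n} (hij : i ≠ j) : fl (fl x i) j ≠ x := by
  intro h
  have := congrFun h j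
  rw [fl_self, fl_ne x hij.symm] at this
  cases hx : x j <;> simp [hx] at this

lemma fl_ne_fl (x : Fin n → Bool) {i j : Fin n} (hij : i ≠ j) : fl x i ≠ fl x j := by
  intro h
  apply fl_fl_ne x hij
  rw [h, fl_fl]

/-- A four-cycle of the cube all of whose edges are in `H` gives a copy of `C4`. -/
lemma contained (H : SimpleGraph (Fin n → Bool)) (x : Fin n → Bool) {i j : Fin n} (hij : i ≠ j)
    (h1 : H.Adj x (fl x i)) (h2 : H.Adj (fl x i) (fl (fl x i) j))
    (h3 : H.Adj (fl x j) (fl (fl x i) j)) (h4 : H.Adj x (fl x j)) :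
    cycleGraph 4 ⊑ H := by
  let f : Fin 4 → (Fin n → Bool) := ![x, fl x i, fl (fl x i) j, fl x j]
  have n1 := fl_ne_self x i
  have n2 := fl_ne_self x j
  have n3 := fl_fl_ne x hij
  have n4 := fl_ne_fl x hij
  have n5 := fl_ne_self (fl x i) j
  have n6 : fl (fl x i) j ≠ fl x j := by
    rw [fl_comm]; exact fl_ne_self (fl x j) i
  refine ⟨⟨⟨f, ?_⟩, ?_⟩⟩
  · intro a b hab
    rw [cycleGraph_adj'] at hab
    fin_cases a <;> fin_cases b <;>
      simp [f] at hab ⊢ <;>
      first
        | exact h1 | exact h1.symm | exact h2 | exact h2.symm | exact h3 | exact h3.symm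
        | exact h4 | exact h4.symm | (exfalso; revert hab; decide)
  · intro a b hab
    fin_cases a <;> fin_cases b <;>
      simp [f, n1, n2, n3, n4, n5, n6, n1.symm, n2.symm, n3.symm, n4.symm, n5.symm, n6.symm]
        at hab ⊢

lemma cnt_union {S T : Finset (Fin n)} (h : Disjoint S T) (x : Fin n → Bool) :
    cnt (S ∪ T) x = cnt S x + cnt T x := by
  unfold cnt
  rw [Finset.filter_union, Finset.card_union_of_disjoint]
  exact Finset.disjoint_filter_filter h

section

variable (s : Fin n → (Fin n → Bool) → Prop) (ρ : Fin n → ℕ) (B : Finset (Fin n))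

/-- The elements of the block before `m`. -/
def pre (m : Fin n) : Finset (Fin n) := B.filter fun j => ρ j < ρ m

/-- The elements of the block after `m`. -/
def suf (m : Fin n) : Finset (Fin n) := B.filter fun j => ρ m < ρ j

/-- The coordinates outside the block or before `m`. -/
def Past (m j : Fin n) : Prop := ρ j < ρ m ∨ j ∉ B

/-- The symmetry hypothesis for the block `B`; `s i x` says that the edge at `x` in direction `i`
is present. -/
def Sym : Prop := ∀ m ∈ B, ∀ x y : Fin n → Bool, (∀ j, Past ρ B m j → x j = y j) →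
  cnt (suf ρ B m) x = cnt (suf ρ B m) y → (s m x ↔ s m y)

/-- No face in two directions of the block has its four edges present. -/
def Free : Prop := ∀ i ∈ B, ∀ j ∈ B, i ≠ j → ∀ x : Fin n → Bool,
  ¬ (s i x ∧ s i (fl x j) ∧ s j x ∧ s j (fl x i))

/-- The edge in direction `m`, with the past of `y` and `w` other ones in the block. -/
def a (w : ℕ) (m : Fin n) (y : Fin n → Bool) : Prop :=
  ∃ x, (∀ j, Past ρ B m j → x j = y j) ∧ cnt (pre ρ B m) x + cnt (suf ρ B m) x = w ∧ s m x

variable {s ρ B}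

lemma past_of_pre {m j : Fin n} (h : j ∈ pre ρ B m) : Past ρ B m j :=
  Or.inl (Finset.mem_filter.1 h).2

lemma past_trans {i m j : Fin n} (him : ρ i ≤ ρ m) (h : Past ρ B i j) : Past ρ B m j :=
  h.imp (fun h => h.trans_le him) id

lemma not_past {i j : Fin n} (hj : j ∈ B) (h : ρ i ≤ ρ j) : ¬ Past ρ B i j := by
  rintro (h1 | h1)
  · omega
  · exact h1 hj

lemma a_inv {w : ℕ} {m j : Fin n} (hj : ¬ Past ρ B m j) (y : Fin n → Bool) :
    a s ρ B w m (fl y j) ↔ a s ρ B w m y := by
  unfold a
  have : ∀ x : Fin n → Bool, (∀ k, Past ρ B m k → x k = fl y j k) ↔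
      (∀ k, Past ρ B m k → x k = y k) := by
    intro x
    refine forall_congr' fun k => forall_congr' fun hk => ?_
    have hne : k ≠ j := fun e => hj (by rw [← e]; exact hk)
    rw [fl_ne y hne]
  simp only [this]

lemma a_edge (hS : Sym s ρ B) {w : ℕ} {m : Fin n} (hm : m ∈ B) {x y : Fin n → Bool}
    (h : a s ρ B w m y) (hxy : ∀ j, Past ρ B m j → x j = y j)
    (hc : cnt (pre ρ B m) x + cnt (suf ρ B m) x = w) : s m x := by
  obtain ⟨z, hz, hzc, hza⟩ := h
  have h1 : cnt (pre ρ B m) z = cnt (pre ρ B m) x :=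
    cnt_congr fun j hj => by rw [hz j (past_of_pre hj), hxy j (past_of_pre hj)]
  exact (hS m hm z x (fun j hj => by rw [hz j hj, hxy j hj]) (by omega)).1 hza

lemma a_iff (hS : Sym s ρ B) {m : Fin n} (hm : m ∈ B) (x : Fin n → Bool) :
    a s ρ B (cnt (pre ρ B m) x + cnt (suf ρ B m) x) m x ↔ s m x :=
  ⟨fun h => a_edge hS hm h (fun _ _ => rfl) rfl, fun h => ⟨x, fun _ _ => rfl, rfl, h⟩⟩

lemma cnt_split (hρ : Function.Injective ρ) {m : Fin n} (hm : m ∈ B) (x : Fin n → Bool) :
    cnt B x = cnt (pre ρ B m) x + cnt (suf ρ B m) x + (if x m = true then 1 else 0) := by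
  have hd : Disjoint (pre ρ B m) (suf ρ B m) := by
    rw [Finset.disjoint_left]
    intro j h1 h2
    simp only [pre, suf, mem_filter] at h1 h2
    omega
  have hn : m ∉ pre ρ B m ∪ suf ρ B m := by
    simp [pre, suf]
  have e : B = insert m (pre ρ B m ∪ suf ρ B m) := by
    ext j
    simp only [pre, suf, mem_insert, mem_union, mem_filter]
    constructor
    · intro hj
      rcases lt_trichotomy (ρ j) (ρ m) with h | h | h
      · exact Or.inr (Or.inl ⟨hj, h⟩)
      · exact Or.inl (hρ h)
      · exact Or.inr (Or.inr ⟨hj, h⟩)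
    · rintro (h | h | h)
      · rw [h]; exact hm
      · exact h.1
      · exact h.1
  conv_lhs => rw [e]
  rw [cnt_insert hn, cnt_union hd]

lemma c4 (hρ : Function.Injective ρ) (hS : Sym s ρ B) (hC : Free s B) {w : ℕ} {i m : Fin n} (hi : i ∈ B)
    (hm : m ∈ B) (him : ρ i < ρ m) {y : Fin n → Bool} (hy : y i = false)
    (h1 : a s ρ B w i y) (h2 : a s ρ B (w + 1) i y) (h3 : a s ρ B w m y)
    (h4 : a s ρ B (w + 1) m (fl y i)) : False := by
  obtain ⟨x, hx, hxc, -⟩ := id h3
  have hne : i ≠ m := fun e => by subst e; exact lt_irrefl _ him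
  have hmp : ¬ Past ρ B m m := not_past hm le_rfl
  have hmi : ¬ Past ρ B i m := not_past hm him.le
  have hip : Past ρ B m i := Or.inl him
  have hipre : i ∈ pre ρ B m := Finset.mem_filter.2 ⟨hi, him⟩
  have hisuf : i ∉ suf ρ B m := by simp [suf, him.le]
  have hmpre : m ∉ pre ρ B m := by simp [pre]
  have hmsuf : m ∉ suf ρ B m := by simp [suf]
  set u : Fin n → Bool := Function.update x m false with hu
  have hum : u m = false := by simp [hu]
  have huj : ∀ j, j ≠ m → u j = x j := fun j hj => by simp [hu, hj]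
  have hua : ∀ j, Past ρ B m j → u j = y j := fun j hj => by
    rw [huj j (fun e => hmp (e ▸ hj)), hx j hj]
  have hui : u i = false := by rw [hua i hip, hy]
  have hup : cnt (pre ρ B m) u = cnt (pre ρ B m) x :=
    cnt_congr fun j hj => huj j (fun e => hmpre (e ▸ hj))
  have hus : cnt (suf ρ B m) u = cnt (suf ρ B m) x :=
    cnt_congr fun j hj => huj j (fun e => hmsuf (e ▸ hj))
  have huc : cnt (pre ρ B m) u + cnt (suf ρ B m) u = w := by rw [hup, hus, hxc]
  have E1 : s m u := a_edge hS hm h3 hua huc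
  have E2 : s m (fl u i) := by
    refine a_edge hS hm h4 ?_ ?_
    · intro j hj
      by_cases hji : j = i
      · subst hji; rw [fl_self, fl_self, hua j hj]
      · rw [fl_ne _ hji, fl_ne _ hji, hua j hj]
    · rw [cnt_fl_of_mem hipre u hui, cnt_fl_of_notMem hisuf]
      omega
  have hBu : cnt B u = w := by
    rw [cnt_split hρ hm u, hum]
    simpa using huc
  have E3 : s i u := by
    refine a_edge hS hi h1 (fun j hj => hua j (past_trans him.le hj)) ?_
    have := cnt_split hρ hi u
    rw [hui, hBu] at this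
    simpa using this.symm
  have hBu' : cnt B (fl u m) = w + 1 := by
    rw [cnt_fl_of_mem hm u hum, hBu]
  have E4 : s i (fl u m) := by
    refine a_edge hS hi h2 (fun j hj => ?_) ?_
    · have hjm : j ≠ m := fun e => hmi (by rw [← e]; exact hj)
      rw [fl_ne u hjm]
      exact hua j (past_trans him.le hj)
    · have := cnt_split hρ hi (fl u m)
      rw [fl_ne u hne, hui, hBu'] at this
      simpa using this.symm
  exact hC i hi m hm hne u ⟨E3, E4, E1, E2⟩

variable (s ρ B)

/-- Both consecutive levels have the edge in direction `i`. -/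
def sel (w : ℕ) (i : Fin n) (y : Fin n → Bool) : Prop := a s ρ B w i y ∧ a s ρ B (w + 1) i y

open Classical in
/-- The number of selected elements before `i`. -/
noncomputable def N (w : ℕ) (i : Fin n) (y : Fin n → Bool) : ℕ :=
  ((pre ρ B i).filter fun j => sel s ρ B w j y).card

open Classical in
/-- The indicator of `a`. -/
noncomputable def al (w : ℕ) (i : Fin n) (y : Fin n → Bool) : ℝ := if a s ρ B w i y then 1 else 0

open Classical in
/-- The weight of `i`: `1 / K` if `i` is one of the first `K` selected elements. -/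
noncomputable def ph (w K : ℕ) (i : Fin n) (y : Fin n → Bool) : ℝ :=
  if sel s ρ B w i y ∧ N s ρ B w i y < K then 1 / (K : ℝ) else 0

open Classical in
/-- The indicator that `i` is one of the first `K` selected elements. -/
noncomputable def bb (w K : ℕ) (i : Fin n) (y : Fin n → Bool) : ℝ :=
  if sel s ρ B w i y ∧ N s ρ B w i y < K then 1 else 0

variable {s ρ B}

lemma sel_inv {w : ℕ} {m j : Fin n} (hj : ¬ Past ρ B m j) (y : Fin n → Bool) :
    sel s ρ B w m (fl y j) ↔ sel s ρ B w m y := by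
  unfold sel
  rw [a_inv hj, a_inv hj]

lemma N_inv {w : ℕ} {m j : Fin n} (hjB : j ∈ B) (hj : ρ m ≤ ρ j) (y : Fin n → Bool) :
    N s ρ B w m (fl y j) = N s ρ B w m y := by
  classical
  unfold N
  congr 1
  refine Finset.filter_congr fun i hi => ?_
  have : ρ i < ρ m := (Finset.mem_filter.1 hi).2
  rw [sel_inv (not_past hjB (by omega))]

lemma ph_inv {w K : ℕ} {m j : Fin n} (hjB : j ∈ B) (hj : ρ m ≤ ρ j) (y : Fin n → Bool) :
    ph s ρ B w K m (fl y j) = ph s ρ B w K m y := by
  unfold ph
  rw [N_inv hjB hj, sel_inv (not_past hjB hj)]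

lemma ph_nonneg (w K : ℕ) (m : Fin n) (y : Fin n → Bool) : 0 ≤ ph s ρ B w K m y := by
  unfold ph; split <;> positivity

lemma al_cases (w : ℕ) (m : Fin n) (y : Fin n → Bool) :
    al s ρ B w m y = 0 ∨ al s ρ B w m y = 1 := by
  unfold al; split <;> simp

lemma pre_pre {i m : Fin n} (hi : i ∈ pre ρ B m) :
    (pre ρ B m).filter (fun j => ρ j < ρ i) = pre ρ B i := by
  have : ρ i < ρ m := (Finset.mem_filter.1 hi).2
  unfold pre
  rw [Finset.filter_filter]
  refine Finset.filter_congr fun j _ => ?_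
  omega

/-- The first `K` selected elements of an initial segment. -/
lemma card_first (hρ : Function.Injective ρ) (w K : ℕ) (S : Finset (Fin n))
    (hS : ∀ i ∈ S, S.filter (fun j => ρ j < ρ i) = pre ρ B i) (y : Fin n → Bool) :
    (∑ i ∈ S, bb s ρ B w K i y) ≤ K := by
  classical
  unfold bb
  rw [Finset.sum_boole]
  have h := rank_le ρ hρ (S.filter fun j => sel s ρ B w j y) K
  rw [Finset.filter_filter] at h
  have e : S.filter (fun i => sel s ρ B w i y ∧ N s ρ B w i y < K) =
      S.filter (fun i => sel s ρ B w i y ∧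
        ((S.filter fun j => sel s ρ B w j y).filter fun j => ρ j < ρ i).card < K) := by
    refine Finset.filter_congr fun i hi => ?_
    unfold N
    rw [← hS i hi, Finset.filter_comm]
  rw [e]
  exact_mod_cast h

lemma card_first_eq (hρ : Function.Injective ρ) (w K : ℕ) (m : Fin n) (y : Fin n → Bool)
    (hK : K ≤ N s ρ B w m y) :
    (∑ i ∈ pre ρ B m, bb s ρ B w K i y) = K := by
  classical
  unfold bb
  rw [Finset.sum_boole]
  have h := rank_eq ρ hρ ((pre ρ B m).filter fun j => sel s ρ B w j y) (K := K) hK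
  rw [Finset.filter_filter] at h
  have e : (pre ρ B m).filter (fun i => sel s ρ B w i y ∧ N s ρ B w i y < K) =
      (pre ρ B m).filter (fun i => sel s ρ B w i y ∧
        (((pre ρ B m).filter fun j => sel s ρ B w j y).filter fun j => ρ j < ρ i).card < K) := by
    refine Finset.filter_congr fun i hi => ?_
    unfold N
    rw [← pre_pre hi, Finset.filter_comm]
  rw [e]
  exact_mod_cast h

lemma ph_eq (w K : ℕ) (i : Fin n) (y : Fin n → Bool) :
    ph s ρ B w K i y = bb s ρ B w K i y / K := by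
  unfold ph bb; split <;> simp

lemma ph_sq (w K : ℕ) (i : Fin n) (y : Fin n → Bool) :
    ph s ρ B w K i y ^ 2 = bb s ρ B w K i y / K ^ 2 := by
  unfold ph bb; split <;> simp

/-- The sum over pairs. -/
lemma lemL (hρ : Function.Injective ρ) (hS : Sym s ρ B) (hC : Free s B)
    (w K k : ℕ) {m : Fin n} (hm : m ∈ B) :
    ∑ y, (chs k w (cnt (pre ρ B m) y) * al s ρ B w m y *
        (∑ i ∈ pre ρ B m, ph s ρ B w K i y + ∑ i ∈ pre ρ B m, ph s ρ B w K i y * ep i y) +
      chs k (w + 1) (cnt (pre ρ B m) y) * al s ρ B (w + 1) m y *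
        (∑ i ∈ pre ρ B m, ph s ρ B w K i y - ∑ i ∈ pre ρ B m, ph s ρ B w K i y * ep i y)) ≤
    ∑ y, chs k w (cnt (pre ρ B m) y) *
        (∑ i ∈ pre ρ B m, ph s ρ B w K i y + ∑ i ∈ pre ρ B m, ph s ρ B w K i y * ep i y) := by
  classical
  have e1 : ∀ y : Fin n → Bool,
      (chs k w (cnt (pre ρ B m) y) * al s ρ B w m y *
        (∑ i ∈ pre ρ B m, ph s ρ B w K i y + ∑ i ∈ pre ρ B m, ph s ρ B w K i y * ep i y) +
      chs k (w + 1) (cnt (pre ρ B m) y) * al s ρ B (w + 1) m y *
        (∑ i ∈ pre ρ B m, ph s ρ B w K i y - ∑ i ∈ pre ρ B m, ph s ρ B w K i y * ep i y)) =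
      ∑ i ∈ pre ρ B m, (ph s ρ B w K i y * (1 + ep i y) *
          (chs k w (cnt (pre ρ B m) y) * al s ρ B w m y) +
        ph s ρ B w K i y * (1 - ep i y) *
          (chs k (w + 1) (cnt (pre ρ B m) y) * al s ρ B (w + 1) m y)) := by
    intro y
    rw [← Finset.sum_add_distrib, ← Finset.sum_sub_distrib, Finset.mul_sum, Finset.mul_sum,
      ← Finset.sum_add_distrib]
    exact Finset.sum_congr rfl fun i _ => by ring
  have e2 : ∀ y : Fin n → Bool, chs k w (cnt (pre ρ B m) y) *
        (∑ i ∈ pre ρ B m, ph s ρ B w K i y + ∑ i ∈ pre ρ B m, ph s ρ B w K i y * ep i y) =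
      ∑ i ∈ pre ρ B m, ph s ρ B w K i y * (1 + ep i y) * chs k w (cnt (pre ρ B m) y) := by
    intro y
    rw [← Finset.sum_add_distrib, Finset.mul_sum]
    exact Finset.sum_congr rfl fun i _ => by ring
  rw [Finset.sum_congr rfl fun y _ => e1 y, Finset.sum_congr rfl fun y _ => e2 y,
    Finset.sum_comm, Finset.sum_comm (s := univ)]
  refine Finset.sum_le_sum fun i hi => ?_
  have hiB : i ∈ B := (Finset.mem_filter.1 hi).1
  have him : ρ i < ρ m := (Finset.mem_filter.1 hi).2
  rw [Finset.sum_add_distrib]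
  have e3 : ∑ y, ph s ρ B w K i y * (1 - ep i y) *
        (chs k (w + 1) (cnt (pre ρ B m) y) * al s ρ B (w + 1) m y) =
      ∑ y, ph s ρ B w K i y * (1 + ep i y) *
        (chs k (w + 1) (cnt (pre ρ B m) (fl y i)) * al s ρ B (w + 1) m (fl y i)) := by
    rw [← sum_fl (fun y => ph s ρ B w K i y * (1 - ep i y) *
        (chs k (w + 1) (cnt (pre ρ B m) y) * al s ρ B (w + 1) m y)) i]
    refine Finset.sum_congr rfl fun y _ => ?_
    rw [ph_inv hiB le_rfl, ep_fl_self, sub_neg_eq_add]
  rw [e3, ← Finset.sum_add_distrib]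
  refine Finset.sum_le_sum fun y _ => ?_
  rw [← mul_add]
  by_cases hy : y i = true
  · have : ep i y = -1 := by simp [ep, hy]
    rw [this]; simp
  · have hy' : y i = false := by simpa using hy
    rw [cnt_fl_of_mem hi y hy', chs_succ, ← mul_add]
    by_cases hs : sel s ρ B w i y
    · have h1 : al s ρ B w m y + al s ρ B (w + 1) m (fl y i) ≤ 1 := by
        unfold al
        by_cases h3 : a s ρ B w m y
        · by_cases h4 : a s ρ B (w + 1) m (fl y i)
          · exact (c4 hρ hS hC hiB hm him hy' hs.1 hs.2 h3 h4).elim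
          · simp [h3, h4]
        · by_cases h4 : a s ρ B (w + 1) m (fl y i)
          · simp [h3, h4]
          · simp [h3, h4]
      have h2 : ep i y = 1 := by simp [ep, hy']
      have h5 := ph_nonneg (s := s) (ρ := ρ) (B := B) w K i y
      have h6 := chs_nonneg k w (cnt (pre ρ B m) y)
      have h7 : chs k w (cnt (pre ρ B m) y) * (al s ρ B w m y + al s ρ B (w + 1) m (fl y i)) ≤
          chs k w (cnt (pre ρ B m) y) := by
        calc _ ≤ chs k w (cnt (pre ρ B m) y) * 1 := mul_le_mul_of_nonneg_left h1 h6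
          _ = _ := mul_one _
      rw [h2]
      exact mul_le_mul_of_nonneg_left h7 (by positivity)
    · have : ph s ρ B w K i y = 0 := by
        unfold ph
        rw [if_neg (fun h => hs h.1)]
      rw [this]; simp

lemma real_ineq {g g' x x' ν D b : ℝ} (hg : 0 ≤ g) (hg' : 0 ≤ g') (hx : x = 0 ∨ x = 1)
    (hx' : x' = 0 ∨ x' = 1) (hν0 : 0 ≤ ν) (hν1 : ν ≤ 1) (hb : 0 ≤ b)
    (h : x = 1 → x' = 1 → ν = 1 ∨ b = 1) :
    g * x + g' * x' + g * (ν + D) - (g * x * (ν + D) + g' * x' * (ν - D)) ≤
      max g g' * (1 + 2 * |D|) + max g g' * b := by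
  set G := max g g'
  have h1 : g ≤ G := le_max_left _ _
  have h2 : g' ≤ G := le_max_right _ _
  have hG : 0 ≤ G := hg.trans h1
  have hD1 : D ≤ |D| := le_abs_self D
  have hD2 : -D ≤ |D| := neg_le_abs D
  have hD : 0 ≤ |D| := abs_nonneg D
  have hGD : 0 ≤ G * |D| := mul_nonneg hG hD
  have hGb : 0 ≤ G * b := mul_nonneg hG hb
  have k1 : g * D ≤ G * |D| := by
    calc g * D ≤ g * |D| := mul_le_mul_of_nonneg_left hD1 hg
      _ ≤ G * |D| := mul_le_mul_of_nonneg_right h1 hD
  have k2 : g' * D ≤ G * |D| := by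
    calc g' * D ≤ g' * |D| := mul_le_mul_of_nonneg_left hD1 hg'
      _ ≤ G * |D| := mul_le_mul_of_nonneg_right h2 hD
  have k3 : g * ν ≤ G * ν := mul_le_mul_of_nonneg_right h1 hν0
  have k4 : g' * (1 - ν) ≤ G * (1 - ν) := mul_le_mul_of_nonneg_right h2 (by linarith)
  have k5 : G * ν ≤ G := by nlinarith
  rcases hx with hx | hx <;> rcases hx' with hx' | hx' <;> rw [hx, hx']
  · nlinarith
  · nlinarith
  · nlinarith
  · rcases h hx hx' with h3 | h3
    · rw [h3] at *
      nlinarith
    · rw [h3]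
      nlinarith

/-- The core inequality. -/
lemma core (hρ : Function.Injective ρ) (hS : Sym s ρ B) (hC : Free s B)
    (w k : ℕ) {K : ℕ} (hK : 0 < K) {m : Fin n} (hm : m ∈ B) :
    ∑ y, (chs k w (cnt (pre ρ B m) y) * al s ρ B w m y +
      chs k (w + 1) (cnt (pre ρ B m) y) * al s ρ B (w + 1) m y) ≤
    ∑ y, (max (chs k w (cnt (pre ρ B m) y)) (chs k (w + 1) (cnt (pre ρ B m) y)) *
        (1 + 2 * |∑ i ∈ pre ρ B m, ph s ρ B w K i y * ep i y|) +
      max (chs k w (cnt (pre ρ B m) y)) (chs k (w + 1) (cnt (pre ρ B m) y)) *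
        bb s ρ B w K m y) := by
  classical
  have hL := lemL hρ hS hC w K k hm
  have hK' : (0 : ℝ) < K := by exact_mod_cast hK
  have hp : ∀ y : Fin n → Bool, _ := fun y => real_ineq
    (g := chs k w (cnt (pre ρ B m) y)) (g' := chs k (w + 1) (cnt (pre ρ B m) y))
    (x := al s ρ B w m y) (x' := al s ρ B (w + 1) m y)
    (ν := ∑ i ∈ pre ρ B m, ph s ρ B w K i y)
    (D := ∑ i ∈ pre ρ B m, ph s ρ B w K i y * ep i y)
    (b := bb s ρ B w K m y)
    (chs_nonneg _ _ _) (chs_nonneg _ _ _) (al_cases _ _ _) (al_cases _ _ _)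
    (Finset.sum_nonneg fun i _ => ph_nonneg _ _ _ _)
    (by
      rw [Finset.sum_congr rfl fun i _ => ph_eq w K i y, ← Finset.sum_div, div_le_one hK']
      exact card_first hρ w K (pre ρ B m) (fun i hi => pre_pre hi) y)
    (by unfold bb; split <;> norm_num)
    (by
      intro h1 h2
      have ha1 : a s ρ B w m y := by
        unfold al at h1
        by_contra h
        rw [if_neg h] at h1
        norm_num at h1
      have ha2 : a s ρ B (w + 1) m y := by
        unfold al at h2
        by_contra h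
        rw [if_neg h] at h2
        norm_num at h2
      by_cases hN : K ≤ N s ρ B w m y
      · left
        rw [Finset.sum_congr rfl fun i _ => ph_eq w K i y, ← Finset.sum_div,
          card_first_eq hρ w K m y hN, div_self hK'.ne']
      · right
        unfold bb
        rw [if_pos ⟨⟨ha1, ha2⟩, not_le.1 hN⟩])
  have hsum := Finset.sum_le_sum fun y (_ : y ∈ (univ : Finset (Fin n → Bool))) => hp y
  rw [Finset.sum_sub_distrib, Finset.sum_add_distrib] at hsum
  linarith

lemma sum_absD (hρ : Function.Injective ρ) (w : ℕ) {K : ℕ} (hK : 0 < K) (m : Fin n) :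
    ∑ y, |∑ i ∈ pre ρ B m, ph s ρ B w K i y * ep i y| ≤ 2 ^ n / Real.sqrt K := by
  have hK' : (0 : ℝ) < K := by exact_mod_cast hK
  refine sum_abs_le ρ hρ (pre ρ B m) (fun i y => ph s ρ B w K i y) ?_ hK' ?_
  · intro i _ j hj hij y
    exact ph_inv (Finset.mem_filter.1 hj).1 hij y
  · intro y
    rw [Finset.sum_congr rfl fun i _ => ph_sq w K i y, ← Finset.sum_div,
      div_le_div_iff₀ (by positivity) hK']
    have := card_first (s := s) hρ w K (pre ρ B m) (fun i hi => pre_pre hi) y
    nlinarith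

end

end Pool.Agent.H.MP_4093f8_co.Ord
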