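import Pool.Agent.H.MP_4093f8_co.OrdC

/-!
# Ordered counting in the cube, part D

Summation over the levels: the number of edges in the directions of one block.
-/

open SimpleGraph Finset

namespace Pool.Agent.H.MP_4093f8_co.Ord

variable {n : ℕ} (s : Fin n → (Fin n → Bool) → Prop) (ρ : Fin n → ℕ) (B : Finset (Fin n))

open Classical in
/-- The number of edges in direction `m` with `w` other ones in the block. -/
noncomputable def E (w : ℕ) (m : Fin n) : ℝ :=
  ∑ x : Fin n → Bool, if x m = false ∧ cnt (pre ρ B m) x + cnt (suf ρ B m) x = w ∧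
    s m x then 1 else 0

open Classical in
/-- The number of edges in direction `m`. -/
noncomputable def e (m : Fin n) : ℝ :=
  ∑ x : Fin n → Bool, if x m = false ∧ s m x then 1 else 0

variable {s ρ B}

lemma sum_half (F : (Fin n → Bool) → ℝ) (m : Fin n) (hF : ∀ x, F (fl x m) = F x) :
    ∑ x, (if x m = false then F x else 0) = (∑ x, F x) / 2 := by
  have h1 : ∑ x, F x = ∑ x, (if x m = false then F x else 0) +
      ∑ x, (if x m = false then 0 else F x) := by
    rw [← Finset.sum_add_distrib]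
    exact Finset.sum_congr rfl fun x _ => by split <;> simp
  have h2 : ∑ x, (if x m = false then 0 else F x) = ∑ x, (if x m = false then F x else 0) := by
    rw [← sum_fl (fun x => if x m = false then 0 else F x) m]
    refine Finset.sum_congr rfl fun x _ => ?_
    rw [hF, fl_self]
    cases x m <;> simp
  rw [h1, h2]; ring

lemma sum_choose_ite (k w p : ℕ) (c : ℝ) :
    ∑ t ∈ range (k + 1), (k.choose t : ℝ) / 2 ^ k * (if p + t = w then c else 0) =
      chs k w p * c / 2 ^ k := by
  unfold chs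
  by_cases h : p ≤ w
  · rw [if_pos h]
    have h1 : ∀ t ∈ range (k + 1), (k.choose t : ℝ) / 2 ^ k * (if p + t = w then c else 0) =
        if w - p = t then (k.choose t : ℝ) / 2 ^ k * c else 0 := by
      intro t _
      by_cases ht : p + t = w
      · rw [if_pos ht, if_pos (by omega)]
      · rw [if_neg ht, if_neg (by omega), mul_zero]
    rw [Finset.sum_congr rfl h1, Finset.sum_ite_eq]
    by_cases h2 : w - p ∈ range (k + 1)
    · rw [if_pos h2]; ring
    · rw [if_neg h2, Nat.choose_eq_zero_of_lt (by rw [mem_range] at h2; omega)]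
      simp
  · rw [if_neg h, zero_mul, zero_div]
    refine Finset.sum_eq_zero fun t _ => ?_
    rw [if_neg (by omega), mul_zero]

lemma E_eq (hS : Sym s ρ B) (w : ℕ) {m : Fin n} (hm : m ∈ B) :
    E s ρ B w m = 1 / 2 ^ ((suf ρ B m).card + 1) *
      ∑ y, chs (suf ρ B m).card w (cnt (pre ρ B m) y) * al s ρ B w m y := by
  classical
  have hmpre : m ∉ pre ρ B m := by simp [pre]
  have hmsuf : m ∉ suf ρ B m := by simp [suf]
  have h1 : E s ρ B w m = ∑ x : Fin n → Bool, (if x m = false then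
      (if cnt (pre ρ B m) x + cnt (suf ρ B m) x = w then al s ρ B w m x else 0) else 0) := by
    unfold E
    refine Finset.sum_congr rfl fun x _ => ?_
    by_cases h2 : x m = false
    · by_cases h3 : cnt (pre ρ B m) x + cnt (suf ρ B m) x = w
      · have h4 := a_iff hS hm x
        rw [h3] at h4
        unfold al
        simp only [h2, h3, h4, true_and, if_true]
      · simp [h3]
    · simp [h2]
  rw [h1, sum_half (fun x => if cnt (pre ρ B m) x + cnt (suf ρ B m) x = w then
    al s ρ B w m x else 0) m (fun x => by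
      rw [cnt_fl_of_notMem hmpre, cnt_fl_of_notMem hmsuf]
      unfold al
      rw [a_inv (not_past hm le_rfl)])]
  have h5 := avg (suf ρ B m) (fun x t => if cnt (pre ρ B m) x + t = w then al s ρ B w m x else 0)
    (fun i hi y t => by
      have hiB : i ∈ B := (Finset.mem_filter.1 hi).1
      have him : ρ m < ρ i := (Finset.mem_filter.1 hi).2
      have hipre : i ∉ pre ρ B m := by
        simp only [pre, mem_filter, not_and, not_lt]
        intro _; exact him.le
      rw [cnt_fl_of_notMem hipre]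
      unfold al
      rw [a_inv (not_past hiB him.le)])
  rw [h5]
  rw [Finset.sum_congr rfl fun x _ => sum_choose_ite _ _ _ _, ← Finset.sum_div, pow_succ]
  field_simp

lemma bb_nonneg (w K : ℕ) (m : Fin n) (y : Fin n → Bool) : 0 ≤ bb s ρ B w K m y := by
  unfold bb; split <;> norm_num

/-- Summation over an interval of levels, for one direction. -/
lemma levels (hρ : Function.Injective ρ) (hS : Sym s ρ B) (hC : Free s B)
    (a₀ R : ℕ) {K : ℕ} (hK : 0 < K) {m : Fin n} (hm : m ∈ B) :
    ∑ w ∈ Ico a₀ (a₀ + R + 1), (E s ρ B w m + E s ρ B (w + 1) m) ≤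
      2 ^ n / 2 * (1 + cb (suf ρ B m).card / 2 ^ (suf ρ B m).card) +
      (R + 1) * (2 ^ n / Real.sqrt K) * (cb (suf ρ B m).card / 2 ^ (suf ρ B m).card) +
      1 / 2 * ∑ w ∈ Ico a₀ (a₀ + R + 1), ∑ y, bb s ρ B w K m y := by
  classical
  set k := (suf ρ B m).card with hk
  set p : (Fin n → Bool) → ℕ := fun y => cnt (pre ρ B m) y with hp
  set D : ℕ → (Fin n → Bool) → ℝ := fun w y => ∑ i ∈ pre ρ B m, ph s ρ B w K i y * ep i y with hD
  have h1 : ∀ w, E s ρ B w m + E s ρ B (w + 1) m ≤ 1 / 2 ^ (k + 1) *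
      (∑ y, max (chs k w (p y)) (chs k (w + 1) (p y)) + 2 * cb k * (2 ^ n / Real.sqrt K) +
        2 ^ k * ∑ y, bb s ρ B w K m y) := by
    intro w
    rw [E_eq hS w hm, E_eq hS (w + 1) hm, ← mul_add, ← Finset.sum_add_distrib]
    apply mul_le_mul_of_nonneg_left _ (by positivity)
    refine (core hρ hS hC w k hK hm).trans ?_
    have h2 := sum_absD (s := s) (B := B) hρ w hK m
    have h3 : ∑ y, (max (chs k w (p y)) (chs k (w + 1) (p y)) * (1 + 2 * |D w y|) +
        max (chs k w (p y)) (chs k (w + 1) (p y)) * bb s ρ B w K m y) ≤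
        ∑ y, (max (chs k w (p y)) (chs k (w + 1) (p y)) + 2 * cb k * |D w y| +
          2 ^ k * bb s ρ B w K m y) := by
      refine Finset.sum_le_sum fun y _ => ?_
      have h4 : max (chs k w (p y)) (chs k (w + 1) (p y)) ≤ cb k :=
        max_le (chs_le_cb _ _ _) (chs_le_cb _ _ _)
      have h5 := h4.trans (cb_le_pow k)
      have h6 : max (chs k w (p y)) (chs k (w + 1) (p y)) * |D w y| ≤ cb k * |D w y| :=
        mul_le_mul_of_nonneg_right h4 (abs_nonneg _)
      have h7 := mul_le_mul_of_nonneg_right h5 (bb_nonneg (s := s) (ρ := ρ) (B := B) w K m y)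
      linarith
    refine h3.trans ?_
    rw [Finset.sum_add_distrib, Finset.sum_add_distrib, ← Finset.mul_sum, ← Finset.mul_sum]
    have h8 := mul_le_mul_of_nonneg_left h2 (by have := cb_pos k; positivity : 0 ≤ 2 * cb k)
    linarith
  refine (Finset.sum_le_sum fun w _ => h1 w).trans ?_
  have h9 : ∑ w ∈ Ico a₀ (a₀ + R + 1), ∑ y : Fin n → Bool,
      max (chs k w (p y)) (chs k (w + 1) (p y)) ≤ 2 ^ n * (2 ^ k + cb k) := by
    rw [Finset.sum_comm]
    have : ∀ y : Fin n → Bool, ∑ w ∈ Ico a₀ (a₀ + R + 1),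
        max (chs k w (p y)) (chs k (w + 1) (p y)) ≤ 2 ^ k + cb k := by
      intro y
      refine le_trans ?_ (sum_max_le k (p y) (a₀ + R + 1))
      refine Finset.sum_le_sum_of_subset_of_nonneg ?_
        (fun _ _ _ => le_max_of_le_left (chs_nonneg _ _ _))
      intro w hw
      rw [mem_Ico] at hw
      exact mem_range.2 hw.2
    refine (Finset.sum_le_sum fun y _ => this y).trans (le_of_eq ?_)
    simp
    ring
  have h10 : ∑ w ∈ Ico a₀ (a₀ + R + 1), 2 * cb k * (2 ^ n / Real.sqrt K) =
      (R + 1) * (2 * cb k * (2 ^ n / Real.sqrt K)) := by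
    rw [Finset.sum_const, Nat.card_Ico, nsmul_eq_mul]
    have : a₀ + R + 1 - a₀ = R + 1 := by omega
    rw [this]
    push_cast
    ring
  rw [← Finset.mul_sum, Finset.sum_add_distrib, Finset.sum_add_distrib, h10, ← Finset.mul_sum]
  have hk2 : (0 : ℝ) < 2 ^ k := by positivity
  calc 1 / 2 ^ (k + 1) * (∑ w ∈ Ico a₀ (a₀ + R + 1), ∑ y : Fin n → Bool,
        max (chs k w (p y)) (chs k (w + 1) (p y)) +
        (R + 1) * (2 * cb k * (2 ^ n / Real.sqrt K)) +
        2 ^ k * ∑ w ∈ Ico a₀ (a₀ + R + 1), ∑ y, bb s ρ B w K m y) ≤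
      1 / 2 ^ (k + 1) * (2 ^ n * (2 ^ k + cb k) +
        (R + 1) * (2 * cb k * (2 ^ n / Real.sqrt K)) +
        2 ^ k * ∑ w ∈ Ico a₀ (a₀ + R + 1), ∑ y, bb s ρ B w K m y) := by
        apply mul_le_mul_of_nonneg_left _ (by positivity)
        linarith
    _ = _ := by
        rw [pow_succ]
        field_simp
        try ring

/-- The number of edges in the directions of one block. -/
lemma block (hρ : Function.Injective ρ) (hS : Sym s ρ B) (hC : Free s B)
    {K R : ℕ} (hK : 0 < K) (hR : 0 < R) (hRl : R ≤ B.card) :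
    ∑ m ∈ B, e s m ≤ 2 ^ n / 2 * ((B.card : ℝ) / 2 + Real.sqrt B.card +
      2 * (R + 1) * (Real.sqrt B.card / Real.sqrt K) + (R + 1) * K / 2 +
      2 * (B.card : ℝ) ^ 2 / R ^ 2) := by
  classical
  set l := B.card with hl
  set a₀ := (l - R) / 2 with ha₀
  have hR' : (0 : ℝ) < R := by exact_mod_cast hR
  have hK' : (0 : ℝ) < K := by exact_mod_cast hK
  -- passing to levels
  have h1 : ∀ m ∈ B, 2 * e s m ≤ ∑ w ∈ Ico a₀ (a₀ + R + 1), (E s ρ B w m + E s ρ B (w + 1) m) +
      2 * (((univ : Finset (Fin n → Bool)).filter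
        (fun x => (R : ℝ) ≤ |2 * (cnt B x : ℝ) - B.card|)).card : ℝ) := by
    intro m hm
    have e1 : ∑ w ∈ Ico a₀ (a₀ + R + 1), (E s ρ B w m + E s ρ B (w + 1) m) =
        ∑ x : Fin n → Bool, ∑ w ∈ Ico a₀ (a₀ + R + 1),
          ((if x m = false ∧ cnt (pre ρ B m) x + cnt (suf ρ B m) x = w ∧
            s m x then (1 : ℝ) else 0) +
          (if x m = false ∧ cnt (pre ρ B m) x + cnt (suf ρ B m) x = w + 1 ∧
            s m x then (1 : ℝ) else 0)) := by
      rw [Finset.sum_comm]
      refine Finset.sum_congr rfl fun w _ => ?_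
      unfold E
      rw [Finset.sum_add_distrib]
    rw [e1, Finset.card_filter]
    push_cast
    unfold e
    rw [Finset.mul_sum, Finset.mul_sum, ← Finset.sum_add_distrib]
    refine Finset.sum_le_sum fun x _ => ?_
    have hnn : 0 ≤ ∑ w ∈ Ico a₀ (a₀ + R + 1),
          ((if x m = false ∧ cnt (pre ρ B m) x + cnt (suf ρ B m) x = w ∧
            s m x then (1 : ℝ) else 0) +
          (if x m = false ∧ cnt (pre ρ B m) x + cnt (suf ρ B m) x = w + 1 ∧
            s m x then (1 : ℝ) else 0)) :=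
      Finset.sum_nonneg fun w _ => by positivity
    by_cases hx : x m = false ∧ s m x
    · rw [if_pos hx]
      by_cases hdev : (R : ℝ) ≤ |2 * (cnt B x : ℝ) - B.card|
      · rw [if_pos hdev]
        linarith
      · rw [if_neg hdev, mul_zero, add_zero]
        have hc := cnt_split hρ hm x
        rw [hx.1] at hc
        simp only [Bool.false_eq_true, if_false, add_zero] at hc
        have hb := abs_lt.1 (not_le.1 hdev)
        have hb1 : (l : ℝ) < 2 * (cnt B x : ℝ) + R := by
          have := hb.1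
          rw [← hl] at this
          linarith
        have hb2 : 2 * (cnt B x : ℝ) < l + R := by
          have := hb.2
          rw [← hl] at this
          linarith
        have hb1' : l < 2 * cnt B x + R := by exact_mod_cast hb1
        have hb2' : 2 * cnt B x < l + R := by exact_mod_cast hb2
        rw [← hc, Finset.sum_add_distrib]
        simp only [hx.1, hx.2, and_true, true_and]
        have s1 : ∑ w ∈ Ico a₀ (a₀ + R + 1), (if cnt B x = w then (1 : ℝ) else 0) = 1 := by
          rw [Finset.sum_ite_eq, if_pos]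
          rw [mem_Ico]
          omega
        have s2 : ∑ w ∈ Ico a₀ (a₀ + R + 1), (if cnt B x = w + 1 then (1 : ℝ) else 0) = 1 := by
          have : ∀ w ∈ Ico a₀ (a₀ + R + 1), (if cnt B x = w + 1 then (1 : ℝ) else 0) =
              if cnt B x - 1 = w then 1 else 0 := by
            intro w _
            have hpos : 0 < cnt B x := by omega
            by_cases h : cnt B x = w + 1
            · rw [if_pos h, if_pos (by omega)]
            · rw [if_neg h, if_neg (by omega)]
          rw [Finset.sum_congr rfl this, Finset.sum_ite_eq, if_pos]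
          rw [mem_Ico]
          omega
        rw [s1, s2]
        norm_num
    · rw [if_neg hx, mul_zero]
      have : (0 : ℝ) ≤ 2 * (if (R : ℝ) ≤ |2 * (cnt B x : ℝ) - B.card| then 1 else 0) := by
        positivity
      linarith
  have h2 := fun m (hm : m ∈ B) => (h1 m hm).trans
    (add_le_add_left (levels hρ hS hC a₀ R hK hm) _)
  have h3 := Finset.sum_le_sum h2
  rw [← Finset.mul_sum] at h3
  simp only [Finset.sum_add_distrib, Finset.sum_const, nsmul_eq_mul] at h3
  rw [← Finset.mul_sum, ← Finset.mul_sum, ← Finset.mul_sum] at h3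
  simp only [Finset.sum_add_distrib, Finset.sum_const, nsmul_eq_mul] at h3
  have h4 : ∑ m ∈ B, cb (suf ρ B m).card / 2 ^ (suf ρ B m).card ≤ 2 * Real.sqrt l := by
    apply sum_cb_le B (fun m => (suf ρ B m).card)
    · exact rank_inj' ρ hρ B
    · intro m hm
      exact rank_lt' ρ B hm
  have h5 : ∑ m ∈ B, ∑ w ∈ Ico a₀ (a₀ + R + 1), ∑ y, bb s ρ B w K m y ≤
      (R + 1) * (2 ^ n * K) := by
    rw [Finset.sum_comm]
    have : ∀ w ∈ Ico a₀ (a₀ + R + 1), ∑ m ∈ B, ∑ y, bb s ρ B w K m y ≤ 2 ^ n * K := by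
      intro w _
      rw [Finset.sum_comm]
      refine (Finset.sum_le_sum fun y _ => card_first hρ w K B (fun i _ => rfl) y).trans ?_
      simp
    refine (Finset.sum_le_sum this).trans ?_
    rw [Finset.sum_const, Nat.card_Ico, nsmul_eq_mul]
    have : a₀ + R + 1 - a₀ = R + 1 := by omega
    rw [this]
    push_cast
    exact le_rfl
  have h6 := cheb B hR'
  rw [← hl] at h6 h3
  have h7 : (0 : ℝ) ≤ (R + 1) * (2 ^ n / Real.sqrt K) := by positivity
  have h8 := mul_le_mul_of_nonneg_left h4 h7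
  have h9 := mul_le_mul_of_nonneg_left h4 (by positivity : (0 : ℝ) ≤ 2 ^ n / 2)
  have h10 := mul_le_mul_of_nonneg_left h6 (by positivity : (0 : ℝ) ≤ (l : ℝ) * 2)
  have e1 : 2 ^ n / 2 * ((l : ℝ) / 2 + Real.sqrt l +
      2 * (R + 1) * (Real.sqrt l / Real.sqrt K) + (R + 1) * K / 2 +
      2 * (l : ℝ) ^ 2 / R ^ 2) = 1 / 2 * (2 ^ n / 2 * (l + 2 * Real.sqrt l) +
        (R + 1) * (2 ^ n / Real.sqrt K) * (2 * Real.sqrt l) +
        1 / 2 * ((R + 1) * (2 ^ n * K)) + l * 2 * (l * 2 ^ n / R ^ 2)) := by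
    have hsK : (0 : ℝ) < Real.sqrt K := Real.sqrt_pos.2 hK'
    field_simp
  rw [e1]
  nlinarith [h3, h5, h8, h9, h10]

/-- The number of edges in the directions of one block, with explicit exponent. -/
lemma block' (hρ : Function.Injective ρ) (hS : Sym s ρ B) (hC : Free s B)
    (hB : B.Nonempty) :
    ∑ m ∈ B, e s m ≤ 2 ^ n / 2 * ((B.card : ℝ) / 2 + 12 * (B.card : ℝ) ^ (8 / 9 : ℝ)) := by
  set l := B.card with hl
  have hl1 : 1 ≤ l := Finset.card_pos.2 hB
  have hl1' : (1 : ℝ) ≤ l := by exact_mod_cast hl1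
  set r : ℝ := (l : ℝ) ^ (1 / 9 : ℝ) with hr
  have hr1 : 1 ≤ r := Real.one_le_rpow hl1' (by norm_num)
  have hr0 : 0 < r := by linarith
  have hr9 : r ^ 9 = l := by
    rw [hr, ← Real.rpow_natCast, ← Real.rpow_mul (by positivity)]
    norm_num
  have hr8 : (l : ℝ) ^ (8 / 9 : ℝ) = r ^ 8 := by
    rw [hr, ← Real.rpow_natCast, ← Real.rpow_mul (by positivity)]
    norm_num
  set K := ⌈r ^ 3⌉₊ with hK
  set R := ⌈r ^ 5⌉₊ with hR
  have hK1 : r ^ 3 ≤ K := Nat.le_ceil _
  have hK2 : (K : ℝ) < r ^ 3 + 1 := Nat.ceil_lt_add_one (by positivity)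
  have hR1 : r ^ 5 ≤ R := Nat.le_ceil _
  have hR2 : (R : ℝ) < r ^ 5 + 1 := Nat.ceil_lt_add_one (by positivity)
  have hp : ∀ a b : ℕ, a ≤ b → r ^ a ≤ r ^ b := fun a b hab => pow_le_pow_right₀ hr1 hab
  have hKpos : 0 < K := Nat.ceil_pos.2 (by positivity)
  have hRpos : 0 < R := Nat.ceil_pos.2 (by positivity)
  have hRl : R ≤ l := by
    rw [hR, Nat.ceil_le, ← hr9]
    exact hp 5 9 (by norm_num)
  refine (block hρ hS hC hKpos hRpos hRl).trans ?_
  apply mul_le_mul_of_nonneg_left _ (by positivity)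
  rw [hr8, ← hl]
  have hK' : (0 : ℝ) < K := by exact_mod_cast hKpos
  have hR' : (0 : ℝ) < R := by exact_mod_cast hRpos
  -- the four error terms
  have t1 : Real.sqrt l ≤ r ^ 8 := by
    have h1 : Real.sqrt l ≤ r ^ 5 := by
      rw [Real.sqrt_le_left (by positivity), ← hr9, ← pow_mul]
      exact hp 9 10 (by norm_num)
    exact h1.trans (hp 5 8 (by norm_num))
  have t2 : 2 * ((R : ℝ) + 1) * (Real.sqrt l / Real.sqrt K) ≤ 6 * r ^ 8 := by
    have h1 : Real.sqrt l / Real.sqrt K ≤ r ^ 3 := by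
      rw [div_le_iff₀ (Real.sqrt_pos.2 hK')]
      rw [Real.sqrt_le_left (by positivity), mul_pow, Real.sq_sqrt hK'.le, ← hr9]
      calc r ^ 9 = (r ^ 3) ^ 2 * r ^ 3 := by ring
        _ ≤ (r ^ 3) ^ 2 * K := mul_le_mul_of_nonneg_left hK1 (by positivity)
    have h2 : (R : ℝ) + 1 ≤ 3 * r ^ 5 := by
      have := hp 0 5 (by norm_num)
      rw [pow_zero] at this
      linarith
    calc 2 * ((R : ℝ) + 1) * (Real.sqrt l / Real.sqrt K) ≤ 2 * (3 * r ^ 5) * r ^ 3 := by
          apply mul_le_mul _ h1 (by positivity) (by positivity)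
          linarith
      _ = 6 * r ^ 8 := by ring
  have t3 : ((R : ℝ) + 1) * K / 2 ≤ 3 * r ^ 8 := by
    have h2 : (R : ℝ) + 1 ≤ 3 * r ^ 5 := by
      have := hp 0 5 (by norm_num)
      rw [pow_zero] at this
      linarith
    have h3 : (K : ℝ) ≤ 2 * r ^ 3 := by
      have := hp 0 3 (by norm_num)
      rw [pow_zero] at this
      linarith
    calc ((R : ℝ) + 1) * K / 2 ≤ (3 * r ^ 5) * (2 * r ^ 3) / 2 := by
          apply div_le_div_of_nonneg_right _ (by norm_num)
          exact mul_le_mul h2 h3 (by positivity) (by positivity)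
      _ = 3 * r ^ 8 := by ring
  have t4 : 2 * (l : ℝ) ^ 2 / R ^ 2 ≤ 2 * r ^ 8 := by
    rw [div_le_iff₀ (by positivity), ← hr9]
    calc 2 * (r ^ 9) ^ 2 = 2 * r ^ 8 * (r ^ 5) ^ 2 := by ring
      _ ≤ 2 * r ^ 8 * R ^ 2 := by
          apply mul_le_mul_of_nonneg_left _ (by positivity)
          exact pow_le_pow_left₀ (by positivity) hR1 2
  linarith

end Pool.Agent.H.MP_4093f8_co.Ord
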