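import Pool.Agent.H.MP_4093f8_co.OrdD

/-!
# Ordered counting in the cube, part E

Subcubes, averages over subcubes, and the choice of a subcube by averaging.
-/

open Finset

namespace Pool.Agent.H.MP_4093f8_co.Ord

variable {n : ℕ}

/-- The point that agrees with `x` on `V` and with `z` outside `V`. -/
def glue (V : Finset (Fin n)) (x z : Fin n → Bool) : Fin n → Bool :=
  fun j => if j ∈ V then x j else z j

lemma glue_mem {V : Finset (Fin n)} {x z : Fin n → Bool} {j : Fin n} (h : j ∈ V) :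
    glue V x z j = x j := by simp [glue, h]

lemma glue_notMem {V : Finset (Fin n)} {x z : Fin n → Bool} {j : Fin n} (h : j ∉ V) :
    glue V x z j = z j := by simp [glue, h]

lemma glue_glue {U V : Finset (Fin n)} (h : U ⊆ V) (x w z : Fin n → Bool) :
    glue U x (glue V w z) = glue V (glue U x w) z := by
  funext j
  by_cases h1 : j ∈ U
  · simp [glue, h1, h h1]
  · by_cases h2 : j ∈ V <;> simp [glue, h1, h2]

lemma glue_self (V : Finset (Fin n)) (x : Fin n → Bool) : glue V x x = x := by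
  funext j; simp [glue]

lemma glue_fl {V : Finset (Fin n)} {i : Fin n} (h : i ∈ V) (x z : Fin n → Bool) :
    glue V (fl x i) z = fl (glue V x z) i := by
  funext j
  by_cases hj : j = i
  · subst hj; simp [glue, h, fl]
  · by_cases h2 : j ∈ V <;> simp [glue, h2, fl_ne _ hj]

/-- Exchanging the coordinates in `V` of two points. -/
def swapEquiv (V : Finset (Fin n)) :
    ((Fin n → Bool) × (Fin n → Bool)) ≃ ((Fin n → Bool) × (Fin n → Bool)) where
  toFun p := (glue V p.1 p.2, glue V p.2 p.1)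
  invFun p := (glue V p.1 p.2, glue V p.2 p.1)
  left_inv p := by
    ext j <;> by_cases h : j ∈ V <;> simp [glue, h]
  right_inv p := by
    ext j <;> by_cases h : j ∈ V <;> simp [glue, h]

lemma sum_glue (V : Finset (Fin n)) (F : (Fin n → Bool) → ℝ) :
    ∑ w, ∑ x, F (glue V x w) = 2 ^ n * ∑ x, F x := by
  have h1 : ∑ w, ∑ x, F (glue V x w) =
      ∑ p : (Fin n → Bool) × (Fin n → Bool), F (glue V p.1 p.2) := by
    rw [Fintype.sum_prod_type, Finset.sum_comm]
  have h2 : ∑ p : (Fin n → Bool) × (Fin n → Bool), F (glue V p.1 p.2) =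
      ∑ p : (Fin n → Bool) × (Fin n → Bool), F p.1 :=
    Equiv.sum_comp (swapEquiv V) (fun p => F p.1)
  rw [h1, h2, Fintype.sum_prod_type, Finset.mul_sum]
  refine Finset.sum_congr rfl fun x _ => ?_
  simp

/-- Averaging in two stages. -/
lemma sum_glue_glue {U V : Finset (Fin n)} (h : U ⊆ V) (z : Fin n → Bool)
    (F : (Fin n → Bool) → ℝ) :
    ∑ w, ∑ x, F (glue U x (glue V w z)) = 2 ^ n * ∑ x, F (glue V x z) := by
  have : ∀ w x : Fin n → Bool, F (glue U x (glue V w z)) = F (glue V (glue U x w) z) :=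
    fun w x => by rw [glue_glue h]
  simp only [this]
  exact sum_glue U (fun y => F (glue V y z))

/-- The choice of the coordinates in `V \ U` by averaging. -/
lemma exists_glue {U V : Finset (Fin n)} (h : U ⊆ V) (z : Fin n → Bool)
    (F : (Fin n → Bool) → ℝ) :
    ∃ w, ∑ x, F (glue V x z) ≤ ∑ x, F (glue U x (glue V w z)) := by
  have h1 : ∑ _w : Fin n → Bool, ∑ x, F (glue V x z) ≤
      ∑ w, ∑ x, F (glue U x (glue V w z)) := by
    rw [sum_glue_glue h z F]
    simp
  obtain ⟨w, -, hw⟩ := Finset.exists_le_of_sum_le (univ_nonempty) h1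
  exact ⟨w, hw⟩

/-- Weights in `[0, 1]`: `s i x` is the weight of the edge at `x` in direction `i`. -/
abbrev Wt (n : ℕ) := Fin n → (Fin n → Bool) → unitInterval

section

variable (s : Wt n)

/-- The weight of the edge at `x` in direction `i`. -/
def tt (i : Fin n) (x : Fin n → Bool) : ℝ := s i x

/-- The average weight of the edges in direction `i` of the subcube `V × z`. -/
noncomputable def mu (V : Finset (Fin n)) (z : Fin n → Bool) (i : Fin n) : ℝ :=
  (∑ x, tt s i (glue V x z)) / 2 ^ n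

/-- The potential. -/
noncomputable def pot (R : ℝ) (B V : Finset (Fin n)) (z : Fin n → Bool) : ℝ :=
  ∑ b ∈ B, mu s (B ∪ V) z b + R * ((∑ i ∈ V, mu s (B ∪ V) z i) / V.card)

lemma tt_nonneg (i : Fin n) (x : Fin n → Bool) : 0 ≤ tt s i x := (s i x).2.1

lemma tt_le (i : Fin n) (x : Fin n → Bool) : tt s i x ≤ 1 := (s i x).2.2

lemma mu_nonneg (V : Finset (Fin n)) (z : Fin n → Bool) (i : Fin n) : 0 ≤ mu s V z i :=
  div_nonneg (Finset.sum_nonneg fun _ _ => tt_nonneg s _ _) (by positivity)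

lemma mu_le (V : Finset (Fin n)) (z : Fin n → Bool) (i : Fin n) : mu s V z i ≤ 1 := by
  unfold mu
  rw [div_le_one (by positivity)]
  refine (Finset.sum_le_sum fun x _ => tt_le s i _).trans ?_
  simp

/-- The function whose average is the potential. -/
noncomputable def potF (R : ℝ) (B V : Finset (Fin n)) (x : Fin n → Bool) : ℝ :=
  ∑ b ∈ B, tt s b x + R * ((∑ i ∈ V, tt s i x) / V.card)

lemma sum_potF (R : ℝ) (B V C : Finset (Fin n)) (z : Fin n → Bool) :
    ∑ x, potF s R B V (glue C x z) =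
      2 ^ n * (∑ b ∈ B, mu s C z b + R * ((∑ i ∈ V, mu s C z i) / V.card)) := by
  have h1 : ∀ S : Finset (Fin n), ∑ x, ∑ b ∈ S, tt s b (glue C x z) =
      2 ^ n * ∑ b ∈ S, mu s C z b := by
    intro S
    rw [Finset.sum_comm, Finset.mul_sum]
    refine Finset.sum_congr rfl fun b _ => ?_
    unfold mu
    field_simp
  unfold potF
  rw [Finset.sum_add_distrib, h1, ← Finset.mul_sum, ← Finset.sum_div, h1]
  ring

/-- General move: from the free set `B ∪ V` to the free set `B' ∪ V'`. -/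
lemma move (R : ℝ) {B V B' V' : Finset (Fin n)} (h : B' ∪ V' ⊆ B ∪ V) (z : Fin n → Bool) :
    ∃ w, ∑ b ∈ B', mu s (B ∪ V) z b + R * ((∑ i ∈ V', mu s (B ∪ V) z i) / V'.card) ≤
      pot s R B' V' (glue (B ∪ V) w z) := by
  obtain ⟨w, hw⟩ := exists_glue h z (potF s R B' V')
  refine ⟨w, ?_⟩
  rw [sum_potF, sum_potF] at hw
  exact le_of_mul_le_mul_left hw (by positivity)

/-- A step: the set of candidates shrinks, some coordinates are fixed, the potential drops by
at most `κ`. -/
def Step (R κ : ℝ) (B V : Finset (Fin n)) (z : Fin n → Bool) (V' : Finset (Fin n))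
    (z' : Fin n → Bool) : Prop :=
  V' ⊆ V ∧ (∃ w, z' = glue (B ∪ V) w z) ∧ pot s R B V z - κ ≤ pot s R B V' z'

variable {s}

lemma Step.trans {R κ κ' : ℝ} {B V V' V'' : Finset (Fin n)} {z z' z'' : Fin n → Bool}
    (h1 : Step s R κ B V z V' z') (h2 : Step s R κ' B V' z' V'' z'') :
    Step s R (κ + κ') B V z V'' z'' := by
  obtain ⟨a1, ⟨w, hw⟩, c1⟩ := h1
  obtain ⟨a2, ⟨w', hw'⟩, c2⟩ := h2
  refine ⟨a2.trans a1, ⟨glue (B ∪ V') w' w, ?_⟩, by linarith⟩
  rw [hw', hw, glue_glue (Finset.union_subset_union_right a1)]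

lemma Step.mono {R κ κ' : ℝ} {B V V' : Finset (Fin n)} {z z' : Fin n → Bool}
    (h1 : Step s R κ B V z V' z') (h : κ ≤ κ') : Step s R κ' B V z V' z' :=
  ⟨h1.1, h1.2.1, by have := h1.2.2; linarith⟩

lemma Step.refl (R : ℝ) {κ : ℝ} (hκ : 0 ≤ κ) (B V : Finset (Fin n)) (z : Fin n → Bool) :
    Step s R κ B V z V z :=
  ⟨Subset.rfl, ⟨z, (glue_self _ _).symm⟩, by linarith⟩

/-- The coordinates outside `B ∪ V` are not changed by a step. -/
lemma Step.agree {R κ : ℝ} {B V V' : Finset (Fin n)} {z z' : Fin n → Bool}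
    (h1 : Step s R κ B V z V' z') {j : Fin n} (hj : j ∉ B ∪ V) : z' j = z j := by
  obtain ⟨-, ⟨w, hw⟩, -⟩ := h1
  rw [hw, glue_notMem hj]

/-- Passing to a subset of directions all of which are above the average. -/
lemma step_of_subset {R κ : ℝ} (hR : 0 ≤ R) {B V U : Finset (Fin n)} (z : Fin n → Bool)
    (hU : U ⊆ V) (hne : U.Nonempty)
    (h : ∀ i ∈ U, (∑ i ∈ V, mu s (B ∪ V) z i) / V.card - κ ≤ mu s (B ∪ V) z i) :
    ∃ z', Step s R (R * κ) B V z U z' := by
  obtain ⟨w, hw⟩ := move s R (B := B) (V := V) (B' := B) (V' := U)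
    (Finset.union_subset_union_right hU) z
  refine ⟨glue (B ∪ V) w z, hU, ⟨w, rfl⟩, le_trans ?_ hw⟩
  have hc : (0 : ℝ) < U.card := by exact_mod_cast Finset.card_pos.2 hne
  have h1 : (∑ i ∈ V, mu s (B ∪ V) z i) / V.card - κ ≤
      (∑ i ∈ U, mu s (B ∪ V) z i) / U.card := by
    rw [le_div_iff₀ hc]
    have := Finset.sum_le_sum h
    rw [Finset.sum_const, nsmul_eq_mul] at this
    linarith
  have h2 := mul_le_mul_of_nonneg_left h1 hR
  unfold pot
  linarith

end

/-- Many elements are above the average minus `κ`. -/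
lemma card_threshold (V : Finset (Fin n)) (m : Fin n → ℝ) (hm0 : ∀ i, 0 ≤ m i)
    (hm : ∀ i, m i ≤ 1) {κ : ℝ} (hκ1 : κ ≤ 1) :
    κ * V.card ≤ ((V.filter fun i => (∑ i ∈ V, m i) / V.card - κ ≤ m i).card : ℝ) := by
  classical
  set A := (∑ i ∈ V, m i) / V.card with hA
  by_cases hV : V.card = 0
  · rw [hV]; simp
  have hV' : (0 : ℝ) < V.card := by exact_mod_cast Nat.pos_of_ne_zero hV
  have hs : ∑ i ∈ V, m i = A * V.card := by rw [hA]; field_simp
  by_cases hAk : A < κ
  · have : V.filter (fun i => A - κ ≤ m i) = V := by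
      apply Finset.filter_true_of_mem
      intro i _
      have := hm0 i
      linarith
    rw [this]
    nlinarith
  · push Not at hAk
    have h1 : ∑ i ∈ V, m i ≤ ∑ i ∈ V, ((A - κ) + (if A - κ ≤ m i then (1 - (A - κ)) else 0)) := by
      refine Finset.sum_le_sum fun i _ => ?_
      split
      · have := hm i
        linarith
      · rename_i h
        push Not at h
        linarith
    rw [Finset.sum_add_distrib, Finset.sum_const, nsmul_eq_mul, ← Finset.sum_filter,
      Finset.sum_const, nsmul_eq_mul, hs] at h1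
    have h2 : (0 : ℝ) ≤ ((V.filter fun i => A - κ ≤ m i).card : ℝ) := Nat.cast_nonneg _
    have hA1 : 0 ≤ A - κ := by linarith
    nlinarith

end Pool.Agent.H.MP_4093f8_co.Ord
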