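import Mathlib

/-!
# Ramsey's theorem for hypergraphs
-/

open Finset

namespace Pool.Agent.H.MP_4093f8_co.Ord

/-- Ramsey's theorem with prescribed sizes, from the theorem for smaller sets. -/
lemma ramsey_step (r k : ℕ)
    (hr : ∀ N : ℕ, ∃ N₀ : ℕ, ∀ (α : Type) [DecidableEq α] (V : Finset α) (col : Finset α → Fin k),
      N₀ ≤ V.card → ∃ U ⊆ V, U.card = N ∧ ∃ γ, ∀ T ⊆ U, T.card = r → col T = γ) (hk : 0 < k) :
    ∀ (S : ℕ) (f : Fin k → ℕ), ∑ i, f i = S → ∃ N₀ : ℕ, ∀ (α : Type) [DecidableEq α]
      (V : Finset α) (col : Finset α → Fin k), N₀ ≤ V.card →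
      ∃ γ, ∃ U ⊆ V, U.card = f γ ∧ ∀ T ⊆ U, T.card = r + 1 → col T = γ := by
  intro S
  induction S with
  | zero =>
    intro f hf
    have h0 : ∀ i, f i = 0 := by
      intro i
      exact Finset.sum_eq_zero_iff.1 hf i (mem_univ i)
    refine ⟨0, fun α _ V col _ => ⟨⟨0, hk⟩, ∅, by simp, by simp [h0], ?_⟩⟩
    intro T hT hc
    have : T = ∅ := by simpa using hT
    subst this
    simp at hc
  | succ S ih =>
    intro f hf
    by_cases hz : ∃ i, f i = 0
    · obtain ⟨i, hi⟩ := hz
      refine ⟨0, fun α _ V col _ => ⟨i, ∅, by simp, by simp [hi], ?_⟩⟩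
      intro T hT hc
      have : T = ∅ := by simpa using hT
      subst this
      simp at hc
    · push Not at hz
      have h1 : ∀ i : Fin k, ∃ N₀ : ℕ, ∀ (α : Type) [DecidableEq α]
          (V : Finset α) (col : Finset α → Fin k), N₀ ≤ V.card →
          ∃ γ, ∃ U ⊆ V, U.card = Function.update f i (f i - 1) γ ∧
            ∀ T ⊆ U, T.card = r + 1 → col T = γ := by
        intro i
        apply ih
        rw [Finset.sum_update_of_mem (mem_univ i)]
        have h2 := Finset.sum_erase_add univ f (mem_univ i)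
        rw [hf] at h2
        have h3 : ∑ x ∈ univ \ {i}, f x = ∑ x ∈ univ.erase i, f x := by
          rw [Finset.sdiff_singleton_eq_erase]
        have h4 := Nat.pos_of_ne_zero (hz i)
        omega
      choose g hg using h1
      obtain ⟨N₁, hN₁⟩ := hr (∑ i, g i)
      refine ⟨N₁ + 1, fun α _ V col hV => ?_⟩
      have hne : V.Nonempty := Finset.card_pos.1 (by omega)
      obtain ⟨v, hv⟩ := hne
      obtain ⟨V', hV', hcard, γ, hγ⟩ := hN₁ α (V.erase v) (fun T => col (insert v T))
        (by rw [Finset.card_erase_of_mem hv]; omega)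
      obtain ⟨γ', U, hU, hUc, hUh⟩ := hg γ α V' col (by
        rw [hcard]
        exact Finset.single_le_sum (f := g) (fun _ _ => Nat.zero_le _) (mem_univ γ))
      have hvU : v ∉ U := fun h => by
        have := hV' (hU h)
        simp at this
      by_cases hγγ : γ' = γ
      · subst hγγ
        refine ⟨γ', insert v U, ?_, ?_, ?_⟩
        · intro x hx
          rcases Finset.mem_insert.1 hx with rfl | hx
          · exact hv
          · exact Finset.mem_of_mem_erase (hV' (hU hx))
        · rw [Finset.card_insert_of_notMem hvU, hUc, Function.update_self]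
          have := Nat.pos_of_ne_zero (hz γ')
          omega
        · intro T hT hc
          by_cases hvT : v ∈ T
          · have e : insert v (T.erase v) = T := Finset.insert_erase hvT
            rw [← e]
            apply hγ
            · intro x hx
              have hx1 := Finset.mem_of_mem_erase hx
              have hx2 := Finset.ne_of_mem_erase hx
              rcases Finset.mem_insert.1 (hT hx1) with h | h
              · exact absurd h hx2
              · exact hU h
            · rw [Finset.card_erase_of_mem hvT, hc]; rfl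
          · apply hUh T _ hc
            intro x hx
            rcases Finset.mem_insert.1 (hT hx) with h | h
            · exact absurd (h ▸ hx) hvT
            · exact h
      · refine ⟨γ', U, ?_, ?_, hUh⟩
        · exact fun x hx => Finset.mem_of_mem_erase (hV' (hU hx))
        · rw [hUc, Function.update_of_ne hγγ]

/-- **Ramsey's theorem** for colourings of the `r`-subsets with `k` colours. -/
theorem ramsey (r : ℕ) {k : ℕ} (hk : 0 < k) (N : ℕ) : ∃ N₀ : ℕ, ∀ (α : Type) [DecidableEq α]
    (V : Finset α) (col : Finset α → Fin k), N₀ ≤ V.card →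
    ∃ U ⊆ V, U.card = N ∧ ∃ γ, ∀ T ⊆ U, T.card = r → col T = γ := by
  induction r generalizing N with
  | zero =>
    refine ⟨N, fun α _ V col hV => ?_⟩
    obtain ⟨U, hU, hc⟩ := Finset.exists_subset_card_eq hV
    refine ⟨U, hU, hc, col ∅, fun T _ hT => ?_⟩
    rw [Finset.card_eq_zero.1 hT]
  | succ r ih =>
    obtain ⟨N₀, hN₀⟩ := ramsey_step r k ih hk (∑ _i : Fin k, N) (fun _ => N) rfl
    refine ⟨N₀, fun α _ V col hV => ?_⟩
    obtain ⟨γ, U, hU, hc, h⟩ := hN₀ α V col hV
    exact ⟨U, hU, hc, γ, h⟩

/-- Ramsey's theorem with an arbitrary finite set of colours. -/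
theorem ramsey' (r : ℕ) (κ : Type*) [Fintype κ] [Nonempty κ] (N : ℕ) :
    ∃ N₀ : ℕ, ∀ (α : Type) [DecidableEq α]
    (V : Finset α) (col : Finset α → κ), N₀ ≤ V.card →
    ∃ U ⊆ V, U.card = N ∧ ∃ γ, ∀ T ⊆ U, T.card = r → col T = γ := by
  obtain ⟨N₀, h⟩ := ramsey r (Fintype.card_pos (α := κ)) N
  refine ⟨N₀, fun α _ V col hV => ?_⟩
  obtain ⟨U, hU, hc, γ, hγ⟩ := h α V (fun T => Fintype.equivFin κ (col T)) hV
  refine ⟨U, hU, hc, (Fintype.equivFin κ).symm γ, fun T hT hr => ?_⟩
  rw [← hγ T hT hr]; simp

end Pool.Agent.H.MP_4093f8_co.Ord
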