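import Pool.Agent.H.MP_4093f8_co.OrdE
import Pool.Agent.H.MP_4093f8_co.OrdF

/-!
# Ordered counting in the cube, part G

Symmetrization of class counts and of polynomial maps on subcubes.
-/

open Finset

namespace Pool.Agent.H.MP_4093f8_co.Ord

/-- Ramsey's theorem inside the set of directions above the average. -/
lemma select (r : ℕ) (C : Type*) [Fintype C] [Nonempty C] (N : ℕ) {κ : ℝ} (hκ : 0 < κ)
    (hκ1 : κ ≤ 1) : ∃ N₀ : ℕ, ∀ (n : ℕ) (V : Finset (Fin n)) (m : Fin n → ℝ),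
    (∀ i, 0 ≤ m i) → (∀ i, m i ≤ 1) → ∀ (col : Finset (Fin n) → C), N₀ ≤ V.card →
    ∃ U ⊆ V, U.card = N ∧ (∀ i ∈ U, (∑ i ∈ V, m i) / V.card - κ ≤ m i) ∧
      ∃ γ, ∀ T ⊆ U, T.card = r → col T = γ := by
  obtain ⟨N₁, h₁⟩ := ramsey' r C N
  refine ⟨⌈(N₁ : ℝ) / κ⌉₊, fun n V m hm0 hm1 col hV => ?_⟩
  have hV' : (N₁ : ℝ) ≤ κ * V.card := by
    have h1 : (N₁ : ℝ) / κ ≤ V.card := (Nat.le_ceil _).trans (by exact_mod_cast hV)
    rw [div_le_iff₀ hκ] at h1
    linarith
  have h2 := card_threshold V m hm0 hm1 hκ1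
  have h3 : N₁ ≤ (V.filter fun i => (∑ i ∈ V, m i) / V.card - κ ≤ m i).card := by
    exact_mod_cast hV'.trans h2
  obtain ⟨U, hU, hc, γ, hγ⟩ := h₁ (Fin n) _ col h3
  exact ⟨U, hU.trans (Finset.filter_subset _ _), hc,
    fun i hi => (Finset.mem_filter.1 (hU hi)).2, γ, hγ⟩

section

variable {n : ℕ}

/-- The set of the ones of `x` in `V`. -/
def ones (V : Finset (Fin n)) (x : Fin n → Bool) : Finset (Fin n) := V.filter fun j => x j = true

lemma ones_card (V : Finset (Fin n)) (x : Fin n → Bool) : (ones V x).card = cnt V x := rfl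

lemma mem_ones {V : Finset (Fin n)} {x : Fin n → Bool} {j : Fin n} :
    j ∈ ones V x ↔ j ∈ V ∧ x j = true := Finset.mem_filter

lemma ones_subset (V : Finset (Fin n)) (x : Fin n → Bool) : ones V x ⊆ V :=
  Finset.filter_subset _ _

lemma ones_glue {U V : Finset (Fin n)} (h : U ⊆ V) (x w : Fin n → Bool) :
    ones V (glue U x w) = ones U x ∪ ones (V \ U) w := by
  ext j
  simp only [mem_ones, mem_union, mem_sdiff]
  by_cases hj : j ∈ U
  · simp [glue_mem hj, hj, h hj]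
  · simp [glue_notMem hj, hj]

variable {A : Type*} [AddCommGroup A]

lemma sum_powerset_union (Z : Finset (Fin n)) : ∀ W : Finset (Fin n), Disjoint Z W →
    ∀ c : Finset (Fin n) → A, ∑ T ∈ (Z ∪ W).powerset, c T =
      ∑ T ∈ Z.powerset, ∑ T' ∈ W.powerset, c (T ∪ T') := by
  intro W
  induction W using Finset.induction_on with
  | empty => intro _ c; simp
  | insert a W ha ih =>
    intro hd c
    rw [Finset.disjoint_insert_right] at hd
    have haZ : a ∉ Z ∪ W := by
      rw [mem_union]; tauto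
    rw [Finset.union_insert, Finset.sum_powerset_insert haZ, ih hd.2 c,
      ih hd.2 (fun T => c (insert a T)), ← Finset.sum_add_distrib]
    refine Finset.sum_congr rfl fun T _ => ?_
    rw [Finset.sum_powerset_insert ha]
    congr 1
    refine Finset.sum_congr rfl fun T' _ => ?_
    rw [Finset.union_insert]

/-- `F` is given on the subcube `V × z` by coefficients `c T`, `T ⊆ V`, which depend only on
`|T|` if `|T| ≥ r`. -/
def Rep (r : ℕ) (F : (Fin n → Bool) → A) (V : Finset (Fin n)) (z : Fin n → Bool) : Prop :=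
  ∃ (c : Finset (Fin n) → A) (γ : ℕ → A), (∀ T ⊆ V, r ≤ T.card → c T = γ T.card) ∧
    ∀ x, F (glue V x z) = ∑ T ∈ (ones V x).powerset, c T

lemma rep_of {F : (Fin n → Bool) → A} {V U : Finset (Fin n)} {z : Fin n → Bool}
    {c : Finset (Fin n) → A} (hc : ∀ x, F (glue V x z) = ∑ T ∈ (ones V x).powerset, c T)
    (hU : U ⊆ V) (w : Fin n → Bool) (r : ℕ) (g : ℕ → ℕ → A)
    (hg : ∀ T ⊆ U, r ≤ T.card → ∀ T' ⊆ V \ U, c (T ∪ T') = g T.card T'.card) :
    Rep r F U (glue V w z) := by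
  refine ⟨fun T => ∑ T' ∈ (ones (V \ U) w).powerset, c (T ∪ T'),
    fun e => ∑ T' ∈ (ones (V \ U) w).powerset, g e T'.card, ?_, ?_⟩
  · intro T hT hr
    refine Finset.sum_congr rfl fun T' hT' => ?_
    exact hg T hT hr T' ((Finset.mem_powerset.1 hT').trans (ones_subset _ _))
  · intro x
    rw [glue_glue hU, hc, ones_glue hU, sum_powerset_union]
    exact Finset.disjoint_of_subset_left (ones_subset _ _)
      (Finset.disjoint_of_subset_right (ones_subset _ _) Finset.disjoint_sdiff)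

lemma Rep.restrict {r : ℕ} {F : (Fin n → Bool) → A} {V U : Finset (Fin n)} {z : Fin n → Bool}
    (h : Rep r F V z) (hU : U ⊆ V) (w : Fin n → Bool) : Rep r F U (glue V w z) := by
  obtain ⟨c, γ, h1, h2⟩ := h
  refine rep_of h2 hU w r (fun e e' => γ (e + e')) ?_
  intro T hT hr T' hT'
  have hd : Disjoint T T' := Finset.disjoint_of_subset_left hT
    (Finset.disjoint_of_subset_right hT' Finset.disjoint_sdiff)
  have hcard := Finset.card_union_of_disjoint hd
  rw [h1 _ (Finset.union_subset (hT.trans hU) (hT'.trans Finset.sdiff_subset)) (by omega), hcard]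

/-- `F` does not depend on the coordinates in `B`. -/
def Ign (B : Finset (Fin n)) (F : (Fin n → Bool) → A) : Prop :=
  ∀ x y, (∀ j, j ∉ B → x j = y j) → F x = F y

lemma Rep.congr {r : ℕ} {F : (Fin n → Bool) → A} {B V : Finset (Fin n)} {z z' : Fin n → Bool}
    (hF : Ign B F) (h : Rep r F V z) (hz : ∀ j, j ∉ B → z j = z' j) : Rep r F V z' := by
  obtain ⟨c, γ, h1, h2⟩ := h
  refine ⟨c, γ, h1, fun x => ?_⟩
  rw [← h2 x]
  refine hF _ _ fun j hj => ?_
  by_cases h : j ∈ V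
  · rw [glue_mem h, glue_mem h]
  · rw [glue_notMem h, glue_notMem h, hz j hj]

lemma glue_union_agree {B V : Finset (Fin n)} {w z : Fin n → Bool} {j : Fin n} (hj : j ∉ B) :
    glue V w z j = glue (B ∪ V) w z j := by
  by_cases h : j ∈ V
  · rw [glue_mem h, glue_mem (Finset.mem_union_right _ h)]
  · rw [glue_notMem h, glue_notMem]
    rw [mem_union]; tauto

lemma Rep.step {s : Wt n} {R κ : ℝ} {r : ℕ} {F : (Fin n → Bool) → A}
    {B V U : Finset (Fin n)} {z z' : Fin n → Bool} (hF : Ign B F) (h : Rep r F V z)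
    (hs : Step s R κ B V z U z') : Rep r F U z' := by
  obtain ⟨hU, ⟨w, hw⟩, -⟩ := hs
  subst hw
  exact (h.restrict hU w).congr hF fun j hj => glue_union_agree hj

/-- At level one the function is symmetric. -/
lemma Rep.symm {F : (Fin n → Bool) → A} {V : Finset (Fin n)} {z : Fin n → Bool}
    (h : Rep 1 F V z) {x y : Fin n → Bool} (hxy : cnt V x = cnt V y) :
    F (glue V x z) = F (glue V y z) := by
  obtain ⟨c, γ, h1, h2⟩ := h
  obtain ⟨g, hg⟩ : ∃ g : ℕ → A, ∀ e, g e = if e = 0 then c ∅ else γ e := ⟨_, fun _ => rfl⟩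
  have key : ∀ x, F (glue V x z) = ∑ T ∈ (ones V x).powerset, g T.card := by
    intro x
    rw [h2 x]
    refine Finset.sum_congr rfl fun T hT => ?_
    rw [hg]
    by_cases hT0 : T.card = 0
    · rw [if_pos hT0, Finset.card_eq_zero.1 hT0]
    · rw [if_neg hT0]
      exact h1 T ((Finset.mem_powerset.1 hT).trans (ones_subset _ _)) (by omega)
  rw [key, key, Finset.sum_powerset_apply_card g, Finset.sum_powerset_apply_card g, ones_card,
    ones_card, hxy]

end

/-- Symmetrization of a polynomial map with values in a finite abelian group. -/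
lemma poly_att (A : Type*) [AddCommGroup A] [Fintype A] {R : ℝ} (hR : 0 ≤ R) (r : ℕ) :
    ∀ (N : ℕ) {κ : ℝ}, 0 < κ → ∃ N₀ : ℕ, ∀ (n : ℕ) (s : Wt n)
    (B V : Finset (Fin n)) (z : Fin n → Bool) (F : (Fin n → Bool) → A), Ign B F →
    N₀ ≤ V.card → Rep (r + 1) F V z →
    ∃ V' z', Step s R κ B V z V' z' ∧ N ≤ V'.card ∧ Rep 1 F V' z' := by
  induction r with
  | zero =>
    intro N κ hκ
    exact ⟨N, fun n s B V z F _ hV h => ⟨V, z, Step.refl R hκ.le B V z, hV, h⟩⟩
  | succ r ih =>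
    intro N κ hκ
    obtain ⟨N₁, h₁⟩ := ih N (half_pos hκ)
    set κ' : ℝ := min 1 (κ / 2 / (R + 1)) with hκ'
    have hκ'0 : 0 < κ' := lt_min one_pos (by positivity)
    have hRκ : R * κ' ≤ κ / 2 := by
      have h1 : κ' ≤ κ / 2 / (R + 1) := min_le_right _ _
      calc R * κ' ≤ (R + 1) * (κ / 2 / (R + 1)) := by
            apply mul_le_mul (by linarith) h1 hκ'0.le (by linarith)
        _ = κ / 2 := by field_simp
    obtain ⟨N₀, h₀⟩ := select (r + 1) A (N₁ + 1) hκ'0 (min_le_left _ _)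
    refine ⟨N₀, fun n s B V z F hF hV hrep => ?_⟩
    obtain ⟨c, γ, hc1, hc2⟩ := hrep
    obtain ⟨U, hU, hUc, hUm, γ₀, hγ₀⟩ := h₀ n V (mu s (B ∪ V) z) (mu_nonneg s _ _)
      (mu_le s _ _) c hV
    have hne : U.Nonempty := Finset.card_pos.1 (by omega)
    obtain ⟨z₁, hz₁⟩ := step_of_subset hR z hU hne hUm
    have hrep₁ : Rep (r + 1) F U z₁ := by
      obtain ⟨-, ⟨w, hw⟩, -⟩ := hz₁
      subst hw
      refine Rep.congr hF (rep_of hc2 hU w (r + 1)
        (fun e e' => if e = r + 1 ∧ e' = 0 then γ₀ else γ (e + e')) ?_)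
        (fun j hj => glue_union_agree hj)
      intro T hT hr T' hT'
      have hd : Disjoint T T' := Finset.disjoint_of_subset_left hT
        (Finset.disjoint_of_subset_right hT' Finset.disjoint_sdiff)
      have hcard := Finset.card_union_of_disjoint hd
      by_cases h : T.card = r + 1 ∧ T'.card = 0
      · rw [if_pos h, Finset.card_eq_zero.1 h.2, Finset.union_empty]
        exact hγ₀ T hT h.1
      · rw [if_neg h, hc1 _ (Finset.union_subset (hT.trans hU) (hT'.trans Finset.sdiff_subset))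
          (by omega), hcard]
    obtain ⟨V', z', hs, hN, hr'⟩ := h₁ n s B U z₁ F hF (by omega) hrep₁
    exact ⟨V', z', (hz₁.trans hs).mono (by linarith), hN, hr'⟩

/-- Symmetrization of a map and of a colouring of the directions. -/
lemma single_att (A : Type*) [AddCommGroup A] [Fintype A] (Q : Type*) [Fintype Q] {R : ℝ}
    (hR : 0 ≤ R) (r N : ℕ) {κ : ℝ} (hκ : 0 < κ) :
    ∃ N₀ : ℕ, ∀ (n : ℕ) (s : Wt n)
    (B V : Finset (Fin n)) (z : Fin n → Bool) (F : (Fin n → Bool) → A) (χ : Fin n → Q), Ign B F →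
    N₀ ≤ V.card → Rep (r + 1) F V z →
    ∃ V' z', Step s R κ B V z V' z' ∧ N ≤ V'.card ∧ Rep 1 F V' z' ∧
      ∀ i ∈ V', ∀ j ∈ V', χ i = χ j := by
  classical
  obtain ⟨N₁, h₁⟩ := poly_att A hR r N (half_pos hκ)
  set κ' : ℝ := min 1 (κ / 2 / (R + 1)) with hκ'
  have hκ'0 : 0 < κ' := lt_min one_pos (by positivity)
  have hRκ : R * κ' ≤ κ / 2 := by
    have h1 : κ' ≤ κ / 2 / (R + 1) := min_le_right _ _
    calc R * κ' ≤ (R + 1) * (κ / 2 / (R + 1)) := by
          apply mul_le_mul (by linarith) h1 hκ'0.le (by linarith)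
      _ = κ / 2 := by field_simp
  obtain ⟨N₀, h₀⟩ := select 1 (Finset Q) (N₁ + 1) hκ'0 (min_le_left _ _)
  refine ⟨N₀, fun n s B V z F χ hF hV hrep => ?_⟩
  obtain ⟨U, hU, hUc, hUm, γ₀, hγ₀⟩ := h₀ n V (mu s (B ∪ V) z) (mu_nonneg s _ _)
    (mu_le s _ _) (fun T => T.image χ) hV
  have hne : U.Nonempty := Finset.card_pos.1 (by omega)
  obtain ⟨z₁, hz₁⟩ := step_of_subset hR z hU hne hUm
  obtain ⟨V', z', hs, hN, hr'⟩ := h₁ n s B U z₁ F hF (by omega) (hrep.step hF hz₁)
  refine ⟨V', z', (hz₁.trans hs).mono (by linarith), hN, hr', ?_⟩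
  intro i hi j hj
  have h1 := hγ₀ {i} (by simpa using hs.1 hi) (by simp)
  have h2 := hγ₀ {j} (by simpa using hs.1 hj) (by simp)
  rw [← h2] at h1
  simpa using h1

/-- Simultaneous symmetrization of a bounded number of maps and colourings. -/
lemma iter_att (A : Type) [AddCommGroup A] [Fintype A] (Q : Type) [Fintype Q] {R : ℝ}
    (hR : 0 ≤ R) (r K : ℕ) : ∀ (N : ℕ) {κ : ℝ}, 0 < κ →
    ∃ N₀ : ℕ, ∀ (n : ℕ) (s : Wt n)
    (B V : Finset (Fin n)) (z : Fin n → Bool) (l : List (((Fin n → Bool) → A) × (Fin n → Q))),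
    l.length ≤ K → (∀ p ∈ l, Ign B p.1) → N₀ ≤ V.card → (∀ p ∈ l, Rep (r + 1) p.1 V z) →
    ∃ V' z', Step s R κ B V z V' z' ∧ N ≤ V'.card ∧
      ∀ p ∈ l, Rep 1 p.1 V' z' ∧ ∀ i ∈ V', ∀ j ∈ V', p.2 i = p.2 j := by
  induction K with
  | zero =>
    intro N κ hκ
    refine ⟨N, fun n s B V z l hl _ hV _ => ⟨V, z, Step.refl R hκ.le B V z, hV, ?_⟩⟩
    have : l = [] := List.length_eq_zero_iff.1 (by omega)
    subst this
    simp
  | succ K ih =>
    intro N κ hκ
    obtain ⟨N₁, h₁⟩ := ih N (half_pos hκ)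
    obtain ⟨N₀, h₀⟩ := single_att A Q hR r N₁ (half_pos hκ)
    refine ⟨max N₀ N, fun n s B V z l hl hI hV hrep => ?_⟩
    cases l with
    | nil =>
      exact ⟨V, z, Step.refl R hκ.le B V z, (le_max_right _ _).trans hV, by simp⟩
    | cons p l =>
      obtain ⟨V₁, z₁, hs₁, hN₁, hr₁, hχ₁⟩ := h₀ n s B V z p.1 p.2 (hI p (by simp))
        ((le_max_left _ _).trans hV) (hrep p (by simp))
      obtain ⟨V', z', hs', hN', h'⟩ := h₁ n s B V₁ z₁ l (by simpa using hl)
        (fun q hq => hI q (by simp [hq])) hN₁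
        (fun q hq => (hrep q (by simp [hq])).step (hI q (by simp [hq])) hs₁)
      refine ⟨V', z', (hs₁.trans hs').mono (by linarith), hN', ?_⟩
      intro q hq
      rcases List.mem_cons.1 hq with rfl | hq
      · exact ⟨hr₁.step (hI q (by simp)) hs',
          fun i hi j hj => hχ₁ i (hs'.1 hi) j (hs'.1 hj)⟩
      · exact h' q hq

end Pool.Agent.H.MP_4093f8_co.Ord
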