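import Pool.Agent.H.MP_4093f8_co.OrdG

/-!
# Ordered counting in the cube, part H

The inductive choice of a one-sided symmetric subcube of large density.
-/

open Finset

namespace Pool.Agent.H.MP_4093f8_co.Ord

section

variable {n : ℕ}

/-- `g` is a symmetric function of the coordinates in `V` on the subcube `V × z`. -/
def SymOn (V : Finset (Fin n)) (z : Fin n → Bool) (g : (Fin n → Bool) → Prop) : Prop :=
  ∀ x y, cnt V x = cnt V y → (g (glue V x z) ↔ g (glue V y z))

/-- `g` does not depend on the coordinates in `B`. -/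
def IgnP (B : Finset (Fin n)) (g : (Fin n → Bool) → Prop) : Prop :=
  ∀ x y, (∀ j, j ∉ B → x j = y j) → (g x ↔ g y)

lemma cnt_glue {U V : Finset (Fin n)} (h : U ⊆ V) (x w : Fin n → Bool) :
    cnt V (glue U x w) = cnt U x + cnt (V \ U) w := by
  have hd : Disjoint (ones U x) (ones (V \ U) w) :=
    Finset.disjoint_of_subset_left (ones_subset _ _)
      (Finset.disjoint_of_subset_right (ones_subset _ _) Finset.disjoint_sdiff)
  rw [← ones_card, ones_glue h, Finset.card_union_of_disjoint hd, ones_card, ones_card]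

lemma SymOn.step {s : Wt n} {R κ : ℝ} {B V V' : Finset (Fin n)}
    {z z' : Fin n → Bool} {g : (Fin n → Bool) → Prop} (hg : IgnP B g) (h : SymOn V z g)
    (hs : Step s R κ B V z V' z') : SymOn V' z' g := by
  obtain ⟨hU, ⟨w, hw⟩, -⟩ := hs
  subst hw
  intro x y hxy
  have key : ∀ x, g (glue V' x (glue (B ∪ V) w z)) ↔ g (glue V (glue V' x w) z) := by
    intro x
    rw [← glue_glue hU]
    refine hg _ _ fun j hj => ?_
    by_cases h1 : j ∈ V'
    · rw [glue_mem h1, glue_mem h1]
    · rw [glue_notMem h1, glue_notMem h1]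
      exact (glue_union_agree hj).symm
  rw [key, key]
  apply h
  rw [cnt_glue hU, cnt_glue hU, hxy]

variable (ρ : Fin n → ℕ) (s : Fin n → (Fin n → Bool) → Prop)

/-- On the subcube `(B ∪ V) × z`, the status of the edges in a direction `m` of `B` depends only on
the coordinates in `B` before `m` and the number of ones after `m`. -/
def Inv (B V : Finset (Fin n)) (z : Fin n → Bool) : Prop :=
  ∀ m ∈ B, ∀ x y : Fin n → Bool, (∀ j ∈ B, ρ j < ρ m → x j = y j) →
    cnt ((B ∪ V).filter fun j => ρ m < ρ j) x = cnt ((B ∪ V).filter fun j => ρ m < ρ j) y →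
    (s m (glue (B ∪ V) x z) ↔ s m (glue (B ∪ V) y z))

variable {ρ s}

lemma Inv.restrict {B V U : Finset (Fin n)} {z : Fin n → Bool} (h : Inv ρ s B V z) (hU : U ⊆ V)
    (w : Fin n → Bool) : Inv ρ s B U (glue (B ∪ V) w z) := by
  have hsub : B ∪ U ⊆ B ∪ V := Finset.union_subset_union_right hU
  intro m hm x y hxy hc
  rw [glue_glue hsub, glue_glue hsub]
  apply h m hm
  · intro j hj hjm
    rw [glue_mem (Finset.mem_union_left _ hj), glue_mem (Finset.mem_union_left _ hj)]
    exact hxy j hj hjm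
  · have key : ∀ x, cnt ((B ∪ V).filter fun j => ρ m < ρ j) (glue (B ∪ U) x w) =
        cnt ((B ∪ U).filter fun j => ρ m < ρ j) x +
        cnt ((B ∪ V).filter (fun j => ρ m < ρ j) \ (B ∪ U).filter fun j => ρ m < ρ j) w := by
      intro x
      have h1 : ∀ j ∈ (B ∪ V).filter (fun j => ρ m < ρ j), glue (B ∪ U) x w j =
          glue ((B ∪ U).filter fun j => ρ m < ρ j) x w j := by
        intro j hj
        have hmj := (Finset.mem_filter.1 hj).2
        by_cases h2 : j ∈ B ∪ U
        · rw [glue_mem h2, glue_mem (Finset.mem_filter.2 ⟨h2, hmj⟩)]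
        · rw [glue_notMem h2, glue_notMem (fun h3 => h2 (Finset.mem_filter.1 h3).1)]
      rw [cnt_congr h1, cnt_glue (Finset.filter_subset_filter _ hsub)]
    rw [key, key, hc]

lemma Inv.ins {B V : Finset (Fin n)} {z : Fin n → Bool} {b : Fin n}
    (h : Inv ρ s B (insert b V) z) (hB : ∀ j ∈ B, ρ j < ρ b) (hV : ∀ v ∈ V, ρ b < ρ v)
    (hb : ∀ x y : Fin n → Bool, (∀ j ∈ B, x j = y j) → cnt V x = cnt V y →
      (s b (glue (insert b B ∪ V) x z) ↔ s b (glue (insert b B ∪ V) y z))) :
    Inv ρ s (insert b B) V z := by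
  have e : insert b B ∪ V = B ∪ insert b V := by
    rw [Finset.insert_union, Finset.union_insert]
  intro m hm x y hxy hc
  rcases Finset.mem_insert.1 hm with rfl | hm
  · apply hb
    · intro j hj
      exact hxy j (Finset.mem_insert_of_mem hj) (hB j hj)
    · have e2 : (insert m B ∪ V).filter (fun j => ρ m < ρ j) = V := by
        ext j
        simp only [mem_filter, mem_union, mem_insert]
        constructor
        · rintro ⟨(rfl | h1) | h1, h2⟩
          · exact absurd h2 (lt_irrefl _)
          · exact absurd h2 (not_lt.2 (hB j h1).le)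
          · exact h1
        · intro h1
          exact ⟨Or.inr h1, hV j h1⟩
      rwa [e2] at hc
  · rw [e] at hc ⊢
    exact h m hm x y (fun j hj hjm => hxy j (Finset.mem_insert_of_mem hj) hjm) hc

end

/-- A hereditary class of functions. -/
abbrev PClass := ∀ n : ℕ, Finset (Fin n) → Finset (Fin n) → (Fin n → Bool) →
  ((Fin n → Bool) → Prop) → Prop

/-- The class `P` consists of functions that do not depend on `B`, it is stable under steps, and
its members can be made symmetric on a subcube of large dimension with a small loss of the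
potential. -/
structure Good (P : PClass) : Prop where
  ign : ∀ {n : ℕ} {B V : Finset (Fin n)} {z : Fin n → Bool} {g : (Fin n → Bool) → Prop},
    P n B V z g → IgnP B g
  her : ∀ {n : ℕ} {s : Wt n} {R κ : ℝ} {B V V' : Finset (Fin n)}
    {z z' : Fin n → Bool} {g : (Fin n → Bool) → Prop}, P n B V z g →
    Step s R κ B V z V' z' → P n B V' z' g
  att : ∀ {R : ℝ}, 0 ≤ R → ∀ (a N : ℕ) {κ : ℝ}, 0 < κ → ∃ N₀ : ℕ, ∀ (n : ℕ)
    (s : Wt n) (B V : Finset (Fin n)) (z : Fin n → Bool)
    (g : (Fin n → Bool) → Prop), B.card ≤ a → P n B V z g → N₀ ≤ V.card →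
    ∃ V' z', Step s R κ B V z V' z' ∧ N ≤ V'.card ∧ SymOn V' z' g

lemma Good.iter {P : PClass} (hP : Good P) {R : ℝ} (hR : 0 ≤ R) (a K : ℕ) :
    ∀ (N : ℕ) {κ : ℝ}, 0 < κ → ∃ N₀ : ℕ, ∀ (n : ℕ) (s : Wt n)
    (B V : Finset (Fin n)) (z : Fin n → Bool) (l : List ((Fin n → Bool) → Prop)),
    B.card ≤ a → l.length ≤ K → (∀ g ∈ l, P n B V z g) → N₀ ≤ V.card →
    ∃ V' z', Step s R κ B V z V' z' ∧ N ≤ V'.card ∧ ∀ g ∈ l, SymOn V' z' g := by
  induction K with
  | zero =>
    intro N κ hκ
    refine ⟨N, fun n s B V z l _ hl _ hV => ⟨V, z, Step.refl R hκ.le B V z, hV, ?_⟩⟩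
    have : l = [] := List.length_eq_zero_iff.1 (by omega)
    subst this
    simp
  | succ K ih =>
    intro N κ hκ
    obtain ⟨N₁, h₁⟩ := ih N (half_pos hκ)
    obtain ⟨N₀, h₀⟩ := hP.att hR a N₁ (half_pos hκ)
    refine ⟨max N₀ N, fun n s B V z l hBa hl hI hV => ?_⟩
    cases l with
    | nil =>
      exact ⟨V, z, Step.refl R hκ.le B V z, (le_max_right _ _).trans hV, by simp⟩
    | cons p l =>
      obtain ⟨V₁, z₁, hs₁, hN₁, hr₁⟩ := h₀ n s B V z p hBa (hI p (by simp))
        ((le_max_left _ _).trans hV)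
      obtain ⟨V', z', hs', hN', h'⟩ := h₁ n s B V₁ z₁ l hBa (by simpa using hl)
        (fun q hq => hP.her (hI q (by simp [hq])) hs₁) hN₁
      refine ⟨V', z', (hs₁.trans hs').mono (by linarith), hN', ?_⟩
      intro q hq
      rcases List.mem_cons.1 hq with rfl | hq
      · exact hr₁.step (hP.ign (hI q (by simp))) hs'
      · exact h' q hq

/-- Every direction of the block `C` is in the class `P`, as a function of the later coordinates
of the block. -/
def TameS (P : PClass) {n : ℕ} (C : Finset (Fin n)) (ρ : Fin n → ℕ)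
    (s : Fin n → (Fin n → Bool) → Prop) : Prop :=
  ∀ b ∈ C, ∀ B ⊆ C, ∀ V ⊆ C, ∀ (z β : Fin n → Bool), (∀ j ∈ B, ρ j < ρ b) →
    (∀ v ∈ V, ρ b < ρ v) → P n (insert b B) V z (fun x => s b (glue B β x))

/-- The choice of the next direction: the first one whose density is not much below the
average. -/
lemma choose_dir {n : ℕ} {ρ : Fin n → ℕ} (hρ : Function.Injective ρ) (V : Finset (Fin n))
    (m : Fin n → ℝ) (hm0 : ∀ i, 0 ≤ m i)
    (hm : ∀ i, m i ≤ 1) {κ : ℝ} (hκ : 0 < κ) (hV : V.Nonempty) :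
    ∃ b ∈ V, (∑ i ∈ V, m i) / V.card - κ ≤ m b ∧
      κ * (V.card - 1) - 1 ≤ (1 + κ) * (V.filter fun i => ρ b < ρ i).card ∧
      ((∑ i ∈ V, m i) / V.card) * (V.filter fun i => ρ b < ρ i).card - 1 ≤
        ∑ i ∈ V.filter (fun i => ρ b < ρ i), m i := by
  classical
  set A := (∑ i ∈ V, m i) / V.card with hA
  have hV' : (0 : ℝ) < V.card := by exact_mod_cast Finset.card_pos.2 hV
  have hs : ∑ i ∈ V, m i = A * V.card := by rw [hA]; field_simp
  have hA0 : 0 ≤ A := div_nonneg (Finset.sum_nonneg fun i _ => hm0 i) hV'.le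
  have hne : (V.filter fun i => A - κ ≤ m i).Nonempty := by
    by_contra h
    rw [Finset.not_nonempty_iff_eq_empty, Finset.filter_eq_empty_iff] at h
    have h1 : ∑ i ∈ V, m i ≤ ∑ i ∈ V, (A - κ) :=
      Finset.sum_le_sum fun i hi => (not_le.1 (h hi)).le
    rw [Finset.sum_const, nsmul_eq_mul, hs] at h1
    nlinarith
  obtain ⟨b, hb, hmin⟩ := Finset.exists_min_image _ ρ hne
  have hbV : b ∈ V := (Finset.mem_filter.1 hb).1
  have hbm : A - κ ≤ m b := (Finset.mem_filter.1 hb).2
  have hlow : ∀ i ∈ V, ρ i < ρ b → m i ≤ A - κ := by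
    intro i hi hib
    by_contra h
    push Not at h
    have := hmin i (Finset.mem_filter.2 ⟨hi, h.le⟩)
    exact absurd hib (not_lt.2 this)
  -- splitting the sum of the deviations
  have hsplit : ∀ f : Fin n → ℝ, ∑ i ∈ V, f i = ∑ i ∈ V.filter (fun i => ρ i < ρ b), f i + f b +
      ∑ i ∈ V.filter (fun i => ρ b < ρ i), f i := by
    intro f
    have e : V = (V.filter fun i => ρ i < ρ b) ∪ insert b (V.filter fun i => ρ b < ρ i) := by
      ext i
      simp only [mem_union, mem_insert, mem_filter]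
      constructor
      · intro hi
        rcases lt_trichotomy (ρ i) (ρ b) with h | h | h
        · exact Or.inl ⟨hi, h⟩
        · exact Or.inr (Or.inl (hρ h))
        · exact Or.inr (Or.inr ⟨hi, h⟩)
      · rintro (h | h | h)
        · exact h.1
        · rw [h]; exact hbV
        · exact h.1
    conv_lhs => rw [e]
    rw [Finset.sum_union, Finset.sum_insert]
    · ring
    · simp
    · rw [Finset.disjoint_left]
      intro i h1 h2
      simp only [mem_insert, mem_filter] at h1 h2
      rcases h2 with h2 | h2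
      · rw [h2] at h1; exact lt_irrefl _ h1.2
      · exact lt_asymm h1.2 h2.2
  have h1 := hsplit m
  have h2 := hsplit (fun _ => 1)
  simp only [Finset.sum_const, nsmul_eq_mul, mul_one] at h2
  have h3 : ∑ i ∈ V.filter (fun i => ρ i < ρ b), m i ≤
      (A - κ) * (V.filter fun i => ρ i < ρ b).card := by
    refine (Finset.sum_le_sum fun i hi => hlow i (Finset.mem_filter.1 hi).1
      (Finset.mem_filter.1 hi).2).trans ?_
    rw [Finset.sum_const, nsmul_eq_mul]
    exact le_of_eq (mul_comm _ _)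
  have h4 : ∑ i ∈ V.filter (fun i => ρ b < ρ i), m i ≤
      ((V.filter fun i => ρ b < ρ i).card : ℝ) := by
    refine (Finset.sum_le_sum fun i _ => hm i).trans ?_
    simp
  have h5 := hm b
  have hc1 : (0 : ℝ) ≤ ((V.filter fun i => ρ i < ρ b).card : ℝ) := Nat.cast_nonneg _
  have hc2 : (0 : ℝ) ≤ ((V.filter fun i => ρ b < ρ i).card : ℝ) := Nat.cast_nonneg _
  rw [hs, h2] at h1
  refine ⟨b, hbV, hbm, ?_, ?_⟩
  · rw [h2]
    nlinarith
  · nlinarith

/-- The inductive choice. -/
lemma main_choice {P : PClass} (hP : Good P) (R : ℕ) : ∀ (a : ℕ) {κ : ℝ}, 0 < κ →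
    ∃ N : ℕ, ∀ (n : ℕ) (C : Finset (Fin n)) (ρ : Fin n → ℕ) (t : Wt n)
    (s : Fin n → (Fin n → Bool) → Prop), Function.Injective ρ → TameS P C ρ s →
    (∀ i x y, (∀ j, j ≠ i → x j = y j) → (s i x ↔ s i y)) →
    ∀ (B V : Finset (Fin n)) (z : Fin n → Bool), B ⊆ C → V ⊆ C → B.card = a →
    (∀ b ∈ B, ∀ v ∈ V, ρ b < ρ v) →
    Inv ρ s B V z → N ≤ V.card →
    ∃ B' z', B' ⊆ C ∧ B'.card = a + R ∧ Inv ρ s B' ∅ z' ∧
      pot t R B V z - κ ≤ ∑ b ∈ B', mu t B' z' b := by
  induction R with
  | zero =>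
    intro a κ hκ
    refine ⟨0, fun n C ρ t s _ _ _ B V z hBC _ hB _ hI _ => ?_⟩
    obtain ⟨w, hw⟩ := move t ((0 : ℕ) : ℝ) (B := B) (V := V) (B' := B) (V' := ∅)
      (Finset.union_subset_union_right (Finset.empty_subset _)) z
    refine ⟨B, glue (B ∪ V) w z, hBC, by simpa using hB, hI.restrict (Finset.empty_subset _) w, ?_⟩
    unfold pot at hw ⊢
    simp only [Nat.cast_zero, zero_mul, add_zero, Finset.union_empty] at hw ⊢
    linarith
  | succ R ih =>
    intro a κ hκ
    have hκ4 : 0 < κ / 4 := by positivity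
    obtain ⟨N₁, h₁⟩ := ih (a + 1) hκ4
    obtain ⟨N₂, h₂⟩ := hP.iter (Nat.cast_nonneg R) (a + 1) (2 ^ a) N₁ hκ4
    set κ' : ℝ := κ / 4 / (R + 1) with hκ'
    have hκ'0 : 0 < κ' := by positivity
    -- the size of the set of directions after `b`
    set M : ℕ := max N₂ (⌈(R : ℝ) / (κ / 4)⌉₊ + 1) with hM
    refine ⟨⌈((1 + κ') * M + 1) / κ' + 1⌉₊ + 1, fun n C ρ t s hρ hT hself B V z hBC hVC hB hBV hI hV => ?_⟩
    have hVne : V.Nonempty := Finset.card_pos.1 (by omega)
    obtain ⟨b, hbV, hb1, hb2, hb3⟩ := choose_dir hρ V (mu t (B ∪ V) z) (mu_nonneg t _ _)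
      (mu_le t _ _) hκ'0 hVne
    set A := (∑ i ∈ V, mu t (B ∪ V) z i) / V.card with hA
    set Vr := V.filter fun i => ρ b < ρ i with hVr
    have hVc : ((1 + κ') * M + 1) / κ' + 1 ≤ (V.card : ℝ) := by
      have h3 : (⌈((1 + κ') * M + 1) / κ' + 1⌉₊ : ℝ) ≤ V.card := by
        have : ⌈((1 + κ') * M + 1) / κ' + 1⌉₊ ≤ V.card := by omega
        exact_mod_cast this
      exact (Nat.le_ceil _).trans h3
    have hMr : (M : ℝ) ≤ Vr.card := by
      have h4 : ((1 + κ') * M + 1) / κ' ≤ (V.card : ℝ) - 1 := by linarith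
      rw [div_le_iff₀ hκ'0] at h4
      have h5 : (1 + κ') * (M : ℝ) ≤ (1 + κ') * Vr.card := by
        calc (1 + κ') * (M : ℝ) ≤ κ' * (V.card - 1) - 1 := by linarith
          _ ≤ _ := hb2
      exact le_of_mul_le_mul_left h5 (by positivity)
    have hMr' : M ≤ Vr.card := by exact_mod_cast hMr
    have hVr1 : 0 < Vr.card := by
      have : 0 < M := lt_of_lt_of_le (Nat.succ_pos _) (le_max_right _ _)
      omega
    have hVr1' : (0 : ℝ) < Vr.card := by exact_mod_cast hVr1
    have hRr : (R : ℝ) / Vr.card ≤ κ / 4 := by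
      rw [div_le_iff₀ hVr1']
      have h6 : (R : ℝ) / (κ / 4) ≤ Vr.card := by
        have h7 : ⌈(R : ℝ) / (κ / 4)⌉₊ ≤ Vr.card := by
          have := le_max_right N₂ (⌈(R : ℝ) / (κ / 4)⌉₊ + 1)
          omega
        exact (Nat.le_ceil _).trans (by exact_mod_cast h7)
      rw [div_le_iff₀ hκ4] at h6
      linarith
    have hbB : b ∉ B := fun h => lt_irrefl _ (hBV b h b hbV)
    have hsub : insert b B ∪ Vr ⊆ B ∪ V := by
      intro j hj
      rcases Finset.mem_union.1 hj with hj | hj
      · rcases Finset.mem_insert.1 hj with rfl | hj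
        · exact Finset.mem_union_right _ hbV
        · exact Finset.mem_union_left _ hj
      · exact Finset.mem_union_right _ (Finset.mem_filter.1 hj).1
    obtain ⟨w, hw⟩ := move t (R : ℝ) (B := B) (V := V) (B' := insert b B) (V' := Vr) hsub z
    set z₁ := glue (B ∪ V) w z with hz₁
    -- the potential after the choice of `b`
    have hpot : pot t ((R + 1 : ℕ) : ℝ) B V z - κ / 4 - κ / 4 ≤ pot t R (insert b B) Vr z₁ := by
      refine le_trans ?_ hw
      rw [Finset.sum_insert hbB]
      unfold pot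
      rw [← hA]
      have h8 : A - 1 / Vr.card ≤ (∑ i ∈ Vr, mu t (B ∪ V) z i) / Vr.card := by
        rw [le_div_iff₀ hVr1']
        have : (A - 1 / (Vr.card : ℝ)) * Vr.card = A * Vr.card - 1 := by field_simp
        rw [this]
        exact hb3
      have h9 := mul_le_mul_of_nonneg_left h8 (Nat.cast_nonneg R : (0 : ℝ) ≤ R)
      have h10 : (R : ℝ) * (A - 1 / Vr.card) = R * A - R / Vr.card := by ring
      have h11 : κ' ≤ κ / 4 := by
        rw [hκ']
        apply div_le_self hκ4.le
        have : (0 : ℝ) ≤ R := Nat.cast_nonneg R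
        linarith
      push_cast
      rw [h10] at h9
      linarith
    -- symmetrization
    set l : List ((Fin n → Bool) → Prop) := B.powerset.toList.map
      (fun Y => fun x => s b (glue B (fun j => decide (j ∈ Y)) x)) with hl
    have hBb : ∀ j ∈ B, ρ j < ρ b := fun j hj => hBV j hj b hbV
    have hVb : ∀ v ∈ Vr, ρ b < ρ v := fun v hv => (Finset.mem_filter.1 hv).2
    obtain ⟨V', z', hs', hN', hsym⟩ := h₂ n t (insert b B) Vr z₁ l
      (by rw [Finset.card_insert_of_notMem hbB, hB])
      (by rw [hl, List.length_map, Finset.length_toList, Finset.card_powerset, hB])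
      (by
        intro g hg
        rw [hl, List.mem_map] at hg
        obtain ⟨Y, -, rfl⟩ := hg
        exact hT b (hVC hbV) B hBC Vr ((Finset.filter_subset _ _).trans hVC) z₁ _ hBb hVb)
      ((le_max_left _ _).trans hMr')
    -- the invariant
    have hI₁ : Inv ρ s B (insert b Vr) z₁ := by
      apply hI.restrict
      intro j hj
      rcases Finset.mem_insert.1 hj with rfl | hj
      · exact hbV
      · exact (Finset.mem_filter.1 hj).1
    have hI₂ : Inv ρ s B (insert b V') z' := by
      obtain ⟨hV'r, ⟨w', hw'⟩, -⟩ := hs'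
      rw [hw']
      have e : insert b B ∪ Vr = B ∪ insert b Vr := by
        rw [Finset.insert_union, Finset.union_insert]
      rw [e]
      exact hI₁.restrict (Finset.insert_subset_insert b hV'r) w'
    have hV'b : ∀ v ∈ V', ρ b < ρ v := fun v hv => hVb v (hs'.1 hv)
    have hI₃ : Inv ρ s (insert b B) V' z' := by
      refine hI₂.ins hBb hV'b ?_
      intro x y hxy hc
      have hg := hsym (fun x' => s b (glue B (fun j => decide (j ∈ ones B x)) x'))
        (by
          rw [hl, List.mem_map]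
          exact ⟨ones B x, by simpa using ones_subset B x, rfl⟩)
      have key : ∀ u : Fin n → Bool, (∀ j ∈ B, u j = x j) →
          (s b (glue (insert b B ∪ V') u z') ↔
            s b (glue B (fun j => decide (j ∈ ones B x)) (glue V' u z'))) := by
        intro u hu
        apply hself
        intro j hj
        by_cases h1 : j ∈ B
        · rw [glue_mem (Finset.mem_union_left _ (Finset.mem_insert_of_mem h1)), glue_mem h1,
            hu j h1]
          cases hxj : x j <;> simp [mem_ones, h1, hxj]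
        · rw [glue_notMem h1]
          by_cases h2 : j ∈ V'
          · rw [glue_mem (Finset.mem_union_right _ h2), glue_mem h2]
          · rw [glue_notMem h2, glue_notMem]
            simp [h1, h2, hj]
      rw [key x (fun _ _ => rfl), key y (fun j hj => (hxy j hj).symm)]
      exact hg x y hc
    obtain ⟨B', z'', hBC', hB', hI', hp'⟩ := h₁ n C ρ t s hρ hT hself (insert b B) V' z'
      (Finset.insert_subset (hVC hbV) hBC)
      (hs'.1.trans ((Finset.filter_subset _ _).trans hVC))
      (by rw [Finset.card_insert_of_notMem hbB, hB])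
      (by
        intro c hc v hv
        rcases Finset.mem_insert.1 hc with rfl | hc
        · exact hV'b v hv
        · exact (hBb c hc).trans (hV'b v hv))
      hI₃ hN'
    refine ⟨B', z'', hBC', by rw [hB']; ring, hI', ?_⟩
    have := hs'.2.2
    linarith

end Pool.Agent.H.MP_4093f8_co.Ord
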