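import Pool.Agent.H.MP_4093f8_co.OrdH

/-!
# Ordered counting in the cube, part I

Classes of maps that can be made symmetric; products of such classes; class counts and
polynomial maps.
-/

open Finset

namespace Pool.Agent.H.MP_4093f8_co.Ord

/-- `F` is a symmetric function of the coordinates in `V` on the subcube `V × z`. -/
def SymM {n : ℕ} {X : Type*} (V : Finset (Fin n)) (z : Fin n → Bool) (F : (Fin n → Bool) → X) :
    Prop := ∀ x y, cnt V x = cnt V y → F (glue V x z) = F (glue V y z)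

/-- `F` does not depend on the coordinates in `B`. -/
def IgnM {n : ℕ} {X : Type*} (B : Finset (Fin n)) (F : (Fin n → Bool) → X) : Prop :=
  ∀ x y, (∀ j, j ∉ B → x j = y j) → F x = F y

/-- After a step, the subcube is a part of the old one, up to the coordinates in `B`. -/
lemma IgnM.step_eq {n : ℕ} {X : Type*} {s : Wt n} {R κ : ℝ}
    {B V V' : Finset (Fin n)} {z z' : Fin n → Bool} (hs : Step s R κ B V z V' z') :
    ∃ w : Fin n → Bool, ∀ {F : (Fin n → Bool) → X}, IgnM B F →
      ∀ x, F (glue V' x z') = F (glue V (glue V' x w) z) := by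
  obtain ⟨hU, ⟨w, hw⟩, -⟩ := hs
  subst hw
  refine ⟨w, fun hF x => ?_⟩
  rw [← glue_glue hU]
  refine hF _ _ fun j hj => ?_
  by_cases h1 : j ∈ V'
  · rw [glue_mem h1, glue_mem h1]
  · rw [glue_notMem h1, glue_notMem h1]
    exact (glue_union_agree hj).symm

lemma SymM.step {n : ℕ} {X : Type*} {s : Wt n} {R κ : ℝ}
    {B V V' : Finset (Fin n)} {z z' : Fin n → Bool} {F : (Fin n → Bool) → X} (hF : IgnM B F)
    (h : SymM V z F) (hs : Step s R κ B V z V' z') : SymM V' z' F := by
  obtain ⟨w, hw⟩ := IgnM.step_eq (X := X) hs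
  intro x y hxy
  rw [hw hF, hw hF]
  apply h
  rw [cnt_glue hs.1, cnt_glue hs.1, hxy]

/-- A class of maps. -/
abbrev MClass (X : Type) := ∀ n : ℕ, Finset (Fin n) → Finset (Fin n) → (Fin n → Bool) →
  ((Fin n → Bool) → X) → Prop

/-- The class `M` consists of maps that do not depend on `B`, it is stable under steps, and
its members can be made symmetric on a subcube of large dimension with a small loss of the
potential. -/
structure GoodM {X : Type} (M : MClass X) : Prop where
  ign : ∀ {n : ℕ} {B V : Finset (Fin n)} {z : Fin n → Bool} {F : (Fin n → Bool) → X},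
    M n B V z F → IgnM B F
  her : ∀ {n : ℕ} {s : Wt n} {R κ : ℝ} {B V V' : Finset (Fin n)}
    {z z' : Fin n → Bool} {F : (Fin n → Bool) → X}, M n B V z F →
    Step s R κ B V z V' z' → M n B V' z' F
  att : ∀ {R : ℝ}, 0 ≤ R → ∀ (a N : ℕ) {κ : ℝ}, 0 < κ → ∃ N₀ : ℕ, ∀ (n : ℕ)
    (s : Wt n) (B V : Finset (Fin n)) (z : Fin n → Bool)
    (F : (Fin n → Bool) → X), B.card ≤ a → M n B V z F → N₀ ≤ V.card →
    ∃ V' z', Step s R κ B V z V' z' ∧ N ≤ V'.card ∧ SymM V' z' F

lemma GoodM.prod {X Y : Type} {M : MClass X} {M' : MClass Y} (h : GoodM M) (h' : GoodM M') :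
    GoodM (X := X × Y) (fun n B V z F => M n B V z (fun x => (F x).1) ∧
      M' n B V z (fun x => (F x).2)) where
  ign := fun hF x y hxy => Prod.ext (h.ign hF.1 x y hxy) (h'.ign hF.2 x y hxy)
  her := fun hF hs => ⟨h.her hF.1 hs, h'.her hF.2 hs⟩
  att := by
    intro R hR a N κ hκ
    obtain ⟨N₁, h₁⟩ := h'.att hR a N (half_pos hκ)
    obtain ⟨N₀, h₀⟩ := h.att hR a N₁ (half_pos hκ)
    refine ⟨N₀, fun n s B V z F hB hF hV => ?_⟩
    obtain ⟨V₁, z₁, hs₁, hN₁, hr₁⟩ := h₀ n s B V z _ hB hF.1 hV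
    obtain ⟨V₂, z₂, hs₂, hN₂, hr₂⟩ := h₁ n s B V₁ z₁ _ hB (h'.her hF.2 hs₁) hN₁
    refine ⟨V₂, z₂, (hs₁.trans hs₂).mono (by linarith), hN₂, ?_⟩
    intro x y hxy
    exact Prod.ext (hr₁.step (h.ign hF.1) hs₂ x y hxy) (hr₂ x y hxy)

/-- The class of functions determined by a map of the class `M`. -/
def ofM {X : Type} (M : MClass X) : PClass := fun n B V z g => IgnP B g ∧
  ∃ F : (Fin n → Bool) → X, M n B V z F ∧
    ∀ x y, F (glue V x z) = F (glue V y z) → (g (glue V x z) ↔ g (glue V y z))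

lemma GoodM.good {X : Type} {M : MClass X} (h : GoodM M) : Good (ofM M) where
  ign := fun hg => hg.1
  her := by
    rintro n s R κ B V V' z z' g ⟨hg, F, hF, hgF⟩ hs
    refine ⟨hg, F, h.her hF hs, fun x y hxy => ?_⟩
    obtain ⟨w, hw⟩ := IgnM.step_eq (X := X × Prop) hs
    have e1 : ∀ x, (F (glue V' x z'), g (glue V' x z')) =
        (F (glue V (glue V' x w) z), g (glue V (glue V' x w) z)) :=
      hw (F := fun x => (F x, g x)) (fun x y hxy => Prod.ext (h.ign hF x y hxy)
        (propext (hg x y hxy)))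
    have e2 : ∀ x, F (glue V' x z') = F (glue V (glue V' x w) z) :=
      fun x => congrArg Prod.fst (e1 x)
    have e3 : ∀ x, g (glue V' x z') = g (glue V (glue V' x w) z) :=
      fun x => congrArg Prod.snd (e1 x)
    rw [e3, e3]
    apply hgF
    rw [← e2, ← e2, hxy]
  att := by
    intro R hR a N κ hκ
    obtain ⟨N₀, h₀⟩ := h.att hR a N hκ
    refine ⟨N₀, ?_⟩
    rintro n s B V z g hB ⟨hg, F, hF, hgF⟩ hV
    obtain ⟨V₁, z₁, hs₁, hN₁, hr₁⟩ := h₀ n s B V z F hB hF hV
    refine ⟨V₁, z₁, hs₁, hN₁, fun x y hxy => ?_⟩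
    obtain ⟨w, hw⟩ := IgnM.step_eq (X := X × Prop) hs₁
    have e1 : ∀ x, (F (glue V₁ x z₁), g (glue V₁ x z₁)) =
        (F (glue V (glue V₁ x w) z), g (glue V (glue V₁ x w) z)) :=
      hw (F := fun x => (F x, g x)) (fun x y hxy => Prod.ext (h.ign hF x y hxy)
        (propext (hg x y hxy)))
    have e2 : ∀ x, F (glue V₁ x z₁) = F (glue V (glue V₁ x w) z) :=
      fun x => congrArg Prod.fst (e1 x)
    have e3 : ∀ x, g (glue V₁ x z₁) = g (glue V (glue V₁ x w) z) :=
      fun x => congrArg Prod.snd (e1 x)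
    rw [e3, e3]
    apply hgF
    rw [← e2, ← e2]
    exact hr₁ x y hxy

/-! ### Polynomial maps -/

/-- The class of polynomial maps of degree at most `d`. -/
def polyM (A : Type) [AddCommGroup A] (d : ℕ) : MClass A := fun _ B V z F =>
  IgnM B F ∧ Rep (d + 1) F V z

lemma polyM_good (A : Type) [AddCommGroup A] [Fintype A] (d : ℕ) : GoodM (polyM A d) where
  ign := fun h => h.1
  her := fun h hs => ⟨h.1, h.2.step h.1 hs⟩
  att := by
    intro R hR a N κ hκ
    obtain ⟨N₀, h₀⟩ := poly_att A hR d N hκ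
    refine ⟨N₀, fun n s B V z F _ hF hV => ?_⟩
    obtain ⟨V', z', hs, hN, hr⟩ := h₀ n s B V z F hF.1 hV hF.2
    exact ⟨V', z', hs, hN, fun x y hxy => hr.symm hxy⟩

/-! ### Class counts -/

/-- The class of the maps that count the ones in each class of a set `S ⊇ V` of coordinates. -/
def countM (Q : Type) [DecidableEq Q] : MClass (Q → ℕ) := fun n B V _ F =>
  ∃ (S : Finset (Fin n)) (χ : Fin n → Q), Disjoint B S ∧ V ⊆ S ∧
    ∀ x c, F x c = cnt (S.filter fun j => χ j = c) x

lemma countM_good (Q : Type) [DecidableEq Q] [Fintype Q] : GoodM (countM Q) where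
  ign := by
    rintro n B V z F ⟨S, χ, hd, -, hF⟩ x y hxy
    funext c
    rw [hF, hF]
    apply cnt_congr
    intro j hj
    exact hxy j (fun hB => Finset.disjoint_left.1 hd hB (Finset.mem_filter.1 hj).1)
  her := by
    rintro n s R κ B V V' z z' F ⟨S, χ, hd, hV, hF⟩ hs
    exact ⟨S, χ, hd, hs.1.trans hV, hF⟩
  att := by
    intro R hR a N κ hκ
    set κ' : ℝ := min 1 (κ / (R + 1)) with hκ'
    have hκ'0 : 0 < κ' := lt_min one_pos (by positivity)
    have hRκ : R * κ' ≤ κ := by
      have h1 : κ' ≤ κ / (R + 1) := min_le_right _ _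
      calc R * κ' ≤ (R + 1) * (κ / (R + 1)) := by
            apply mul_le_mul (by linarith) h1 hκ'0.le (by linarith)
        _ = κ := by field_simp
    obtain ⟨N₀, h₀⟩ := select 1 (Finset Q) (N + 1) hκ'0 (min_le_left _ _)
    refine ⟨N₀, ?_⟩
    rintro n s B V z F - ⟨S, χ, hd, hVS, hF⟩ hV
    obtain ⟨U, hU, hUc, hUm, γ₀, hγ₀⟩ := h₀ n V (mu s (B ∪ V) z) (mu_nonneg s _ _)
      (mu_le s _ _) (fun T => T.image χ) hV
    have hne : U.Nonempty := Finset.card_pos.1 (by omega)
    obtain ⟨z₁, hz₁⟩ := step_of_subset hR z hU hne hUm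
    refine ⟨U, z₁, hz₁.mono hRκ, by omega, fun x y hxy => ?_⟩
    have hχ : ∀ i ∈ U, ∀ j ∈ U, χ i = χ j := by
      intro i hi j hj
      have h1 := hγ₀ {i} (by simpa using hi) (by simp)
      have h2 := hγ₀ {j} (by simpa using hj) (by simp)
      rw [← h2] at h1
      simpa using h1
    funext c
    rw [hF, hF]
    have key : ∀ x, cnt (S.filter fun j => χ j = c) (glue U x z₁) =
        cnt (U.filter fun j => χ j = c) x +
          cnt ((S.filter fun j => χ j = c) \ U.filter fun j => χ j = c) z₁ := by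
      intro x
      have h1 : ∀ j ∈ S.filter (fun j => χ j = c), glue U x z₁ j =
          glue (U.filter fun j => χ j = c) x z₁ j := by
        intro j hj
        have hmj := (Finset.mem_filter.1 hj).2
        by_cases h2 : j ∈ U
        · rw [glue_mem h2, glue_mem (Finset.mem_filter.2 ⟨h2, hmj⟩)]
        · rw [glue_notMem h2, glue_notMem (fun h3 => h2 (Finset.mem_filter.1 h3).1)]
      rw [cnt_congr h1, cnt_glue (Finset.filter_subset_filter _ (hU.trans hVS))]
    rw [key, key]
    congr 1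
    obtain ⟨i₀, hi₀⟩ := hne
    by_cases hc : χ i₀ = c
    · have : U.filter (fun j => χ j = c) = U :=
        Finset.filter_true_of_mem fun j hj => by rw [hχ j hj i₀ hi₀, hc]
      rw [this, hxy]
    · have : U.filter (fun j => χ j = c) = ∅ :=
        Finset.filter_false_of_mem fun j hj => by rw [hχ j hj i₀ hi₀]; exact hc
      rw [this]; simp [cnt]

end Pool.Agent.H.MP_4093f8_co.Ord
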