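import Pool.Agent.H.MP_4093f8_co.OrdI

/-!
# Ordered counting in the cube, part J

Labellings of the directions that are constant on subcubes, and maps to finite groups.
-/

open Finset

namespace Pool.Agent.H.MP_4093f8_co.Ord

section

variable {n : ℕ}

/-- Averaging over subcubes whose set of directions is constant on the subcube. -/
lemma sum_glue_var (U : (Fin n → Bool) → Finset (Fin n))
    (hU : ∀ w x, U (glue (U w) x w) = U w) (f : (Fin n → Bool) → ℝ) :
    ∑ w, ∑ x, f (glue (U w) x w) = 2 ^ n * ∑ w, f w := by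
  let e : ((Fin n → Bool) × (Fin n → Bool)) ≃ ((Fin n → Bool) × (Fin n → Bool)) :=
    { toFun := fun p => (glue (U p.1) p.2 p.1, glue (U p.1) p.1 p.2)
      invFun := fun p => (glue (U p.1) p.2 p.1, glue (U p.1) p.1 p.2)
      left_inv := by
        rintro ⟨w, x⟩
        simp only [hU]
        ext j <;> by_cases h : j ∈ U w <;> simp [glue, h]
      right_inv := by
        rintro ⟨w, x⟩
        simp only [hU]
        ext j <;> by_cases h : j ∈ U w <;> simp [glue, h] }
  have h1 : ∑ w, ∑ x, f (glue (U w) x w) =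
      ∑ p : (Fin n → Bool) × (Fin n → Bool), f (e p).1 := by
    rw [Fintype.sum_prod_type]
    rfl
  rw [h1, Equiv.sum_comp e (fun p => f p.1), Fintype.sum_prod_type, Finset.mul_sum]
  refine Finset.sum_congr rfl fun x _ => ?_
  simp

/-- The point `y` with the coordinates in `W` switched. -/
def flW (W : Finset (Fin n)) (y : Fin n → Bool) : Fin n → Bool :=
  fun j => if j ∈ W then !y j else y j

lemma glue_eq_flW (U : Finset (Fin n)) (x y : Fin n → Bool) :
    glue U x y = flW (U.filter fun j => x j ≠ y j) y := by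
  funext j
  unfold glue flW
  by_cases h : j ∈ U
  · by_cases h2 : x j = y j
    · simp [h, h2]
    · simp only [h, if_true, mem_filter, true_and, h2, ne_eq, not_false_eq_true]
      cases hx : x j <;> cases hy : y j <;> simp_all
  · simp [h]

lemma flW_insert {W : Finset (Fin n)} {k : Fin n} (h : k ∉ W) (y : Fin n → Bool) :
    flW (insert k W) y = fl (flW W y) k := by
  funext j
  by_cases hj : j = k
  · subst hj
    rw [fl_self]
    simp [flW, h]
  · rw [fl_ne _ hj]
    simp [flW, hj]

variable {D : Type} [DecidableEq D]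

/-- The directions of `V` with label `d` at `y`. -/
def Cls (V : Finset (Fin n)) (δ : Fin n → (Fin n → Bool) → D) (d : D) (y : Fin n → Bool) :
    Finset (Fin n) := V.filter fun j => δ j y = d

lemma cls_fl {V : Finset (Fin n)} {δ : Fin n → (Fin n → Bool) → D}
    (hδ : ∀ j ∈ V, ∀ k ∈ V, ∀ y, δ j (fl y k) = δ k y ↔ δ j y = δ k y) {d : D}
    {y : Fin n → Bool} {k : Fin n} (hk : k ∈ Cls V δ d y) :
    Cls V δ d (fl y k) = Cls V δ d y := by
  have hkV : k ∈ V := (Finset.mem_filter.1 hk).1
  have hkd : δ k y = d := (Finset.mem_filter.1 hk).2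
  refine Finset.filter_congr fun j hj => ?_
  have := hδ j hj k hkV y
  rwa [hkd] at this

lemma cls_flW {V : Finset (Fin n)} {δ : Fin n → (Fin n → Bool) → D}
    (hδ : ∀ j ∈ V, ∀ k ∈ V, ∀ y, δ j (fl y k) = δ k y ↔ δ j y = δ k y) {d : D}
    {y : Fin n → Bool} (W : Finset (Fin n)) (hW : W ⊆ Cls V δ d y) :
    Cls V δ d (flW W y) = Cls V δ d y := by
  induction W using Finset.induction_on with
  | empty =>
    have : flW ∅ y = y := by funext j; simp [flW]
    rw [this]
  | insert k W hk ih =>
    have h1 := ih ((Finset.subset_insert k W).trans hW)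
    rw [flW_insert hk, cls_fl hδ, h1]
    rw [h1]
    exact hW (Finset.mem_insert_self k W)

lemma cls_glue {V : Finset (Fin n)} {δ : Fin n → (Fin n → Bool) → D}
    (hδ : ∀ j ∈ V, ∀ k ∈ V, ∀ y, δ j (fl y k) = δ k y ↔ δ j y = δ k y) (d : D)
    (x y : Fin n → Bool) :
    Cls V δ d (glue (Cls V δ d y) x y) = Cls V δ d y := by
  rw [glue_eq_flW]
  exact cls_flW hδ _ (Finset.filter_subset _ _)

lemma pot_nonneg (s : Wt n) {R : ℝ} (hR : 0 ≤ R)
    (B V : Finset (Fin n)) (z : Fin n → Bool) : 0 ≤ pot s R B V z := by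
  unfold pot
  have h1 : 0 ≤ ∑ b ∈ B, mu s (B ∪ V) z b := Finset.sum_nonneg fun _ _ => mu_nonneg _ _ _ _
  have h2 : 0 ≤ (∑ i ∈ V, mu s (B ∪ V) z i) / (V.card : ℝ) :=
    div_nonneg (Finset.sum_nonneg fun _ _ => mu_nonneg _ _ _ _) (Nat.cast_nonneg _)
  have h3 := mul_nonneg hR h2
  linarith

lemma pot_le (s : Wt n) {R : ℝ} (hR : 0 ≤ R)
    (B V : Finset (Fin n)) (z : Fin n → Bool) : pot s R B V z ≤ B.card + R := by
  unfold pot
  have h1 : ∑ b ∈ B, mu s (B ∪ V) z b ≤ (B.card : ℝ) := by
    refine (Finset.sum_le_sum fun b _ => mu_le s (B ∪ V) z b).trans ?_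
    simp
  have h2 : (∑ i ∈ V, mu s (B ∪ V) z i) / (V.card : ℝ) ≤ 1 := by
    apply div_le_one_of_le₀ _ (Nat.cast_nonneg _)
    refine (Finset.sum_le_sum fun b _ => mu_le s (B ∪ V) z b).trans ?_
    simp
  have h3 := mul_le_mul_of_nonneg_left h2 hR
  linarith

end

/-- The choice of a label and of a subcube by averaging. -/
lemma label_att (K : ℕ) {R : ℝ} (hR : 0 ≤ R) (a N : ℕ) {κ : ℝ} (hκ : 0 < κ) :
    ∃ N₀ : ℕ, ∀ (D : Type) [Fintype D] [DecidableEq D], Fintype.card D ≤ K →
    ∀ (n : ℕ) (s : Wt n) (B V : Finset (Fin n)) (z : Fin n → Bool)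
    (δ : Fin n → (Fin n → Bool) → D), (∀ j, IgnM B (δ j)) →
    (∀ j ∈ V, ∀ k ∈ V, ∀ y, δ j (fl y k) = δ k y ↔ δ j y = δ k y) → B.card ≤ a →
    N₀ ≤ V.card →
    ∃ w d, N ≤ (Cls V δ d (glue (B ∪ V) w z)).card ∧
      pot s R B V z - κ ≤ pot s R B (Cls V δ d (glue (B ∪ V) w z)) (glue (B ∪ V) w z) := by
  refine ⟨⌈(K : ℝ) * (N * (a + R + κ)) / κ⌉₊ + 1, ?_⟩
  intro D _ _ hD n s B V z δ hign hδ hB hV
  by_contra hcon
  push Not at hcon
  set y : (Fin n → Bool) → (Fin n → Bool) := fun w => glue (B ∪ V) w z with hy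
  set U : D → (Fin n → Bool) → Finset (Fin n) := fun d w => Cls V δ d (y w) with hU
  have hUV : ∀ d w, U d w ⊆ V := fun d w => Finset.filter_subset _ _
  have hsub : ∀ d w, B ∪ U d w ⊆ B ∪ V := fun d w => Finset.union_subset_union_right (hUV d w)
  have hyg : ∀ d w x, y (glue (B ∪ U d w) x w) = glue (B ∪ U d w) x (y w) := by
    intro d w x
    simp only [hy]
    rw [glue_glue (hsub d w)]
  have hUinv : ∀ d w x, U d (glue (B ∪ U d w) x w) = U d w := by
    intro d w x
    have h1 : U d (glue (B ∪ U d w) x w) = Cls V δ d (glue (B ∪ U d w) x (y w)) := by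
      rw [← hyg]
    have h2 : Cls V δ d (glue (B ∪ U d w) x (y w)) = Cls V δ d (glue (U d w) x (y w)) := by
      refine Finset.filter_congr fun j _ => ?_
      rw [hign j _ (glue (U d w) x (y w)) (fun i hi => (glue_union_agree hi).symm)]
    rw [h1, h2]
    exact cls_glue hδ d x (y w)
  set G : (Fin n → Bool) → Finset (Fin n) → ℝ := fun x W =>
    (W.card : ℝ) * ∑ b ∈ B, tt s b x + R * ∑ i ∈ W, tt s i x with hG
  have hGp : ∀ x W, G x W = (W.card : ℝ) * potF s R B W x := by
    intro x W
    simp only [hG, potF]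
    by_cases hW : W.card = 0
    · rw [hW, Finset.card_eq_zero.1 hW]; simp
    · have : (W.card : ℝ) ≠ 0 := by exact_mod_cast hW
      field_simp
  -- the sum for one label
  have hd : ∀ d, ∑ w, ((U d w).card : ℝ) * pot s R B (U d w) (y w) = ∑ w, G (y w) (U d w) := by
    intro d
    have h1 : ∑ w, ∑ x, G (y (glue (B ∪ U d w) x w)) (U d (glue (B ∪ U d w) x w)) =
        2 ^ n * ∑ w, G (y w) (U d w) :=
      sum_glue_var (fun w => B ∪ U d w) (fun w x => by
        show B ∪ U d (glue (B ∪ U d w) x w) = B ∪ U d w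
        rw [hUinv]) (fun w => G (y w) (U d w))
    have h2 : ∀ w, ∑ x, G (y (glue (B ∪ U d w) x w)) (U d (glue (B ∪ U d w) x w)) =
        2 ^ n * (((U d w).card : ℝ) * pot s R B (U d w) (y w)) := by
      intro w
      have h3 : ∀ x, G (y (glue (B ∪ U d w) x w)) (U d (glue (B ∪ U d w) x w)) =
          ((U d w).card : ℝ) * potF s R B (U d w) (glue (B ∪ U d w) x (y w)) := by
        intro x
        rw [hUinv, hyg, hGp]
      rw [Finset.sum_congr rfl fun x _ => h3 x, ← Finset.mul_sum, sum_potF]
      unfold pot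
      ring
    rw [Finset.sum_congr rfl fun w _ => h2 w, ← Finset.mul_sum] at h1
    exact mul_left_cancel₀ (by positivity) h1
  have hcard : ∀ w, ∑ d, ((U d w).card : ℝ) = V.card := by
    intro w
    have := Finset.card_eq_sum_card_fiberwise (f := fun j => δ j (y w)) (s := V)
      (t := (univ : Finset D)) (fun _ _ => by simp)
    rw [this]
    push_cast
    rfl
  have htot : ∑ d, ∑ w, ((U d w).card : ℝ) * pot s R B (U d w) (y w) =
      2 ^ n * (V.card * pot s R B V z) := by
    rw [Finset.sum_congr rfl fun d _ => hd d, Finset.sum_comm]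
    have h1 : ∀ w, ∑ d, G (y w) (U d w) = (V.card : ℝ) * potF s R B V (y w) := by
      intro w
      rw [← hGp]
      simp only [hG]
      rw [Finset.sum_add_distrib, ← Finset.sum_mul, hcard, ← Finset.mul_sum]
      congr 2
      exact Finset.sum_fiberwise V (fun j => δ j (y w)) (fun i => tt s i (y w))
    rw [Finset.sum_congr rfl fun w _ => h1 w, ← Finset.mul_sum]
    have h2 := sum_potF s R B V (B ∪ V) z
    have h3 : ∑ w, potF s R B V (y w) = 2 ^ n * pot s R B V z := by
      rw [← show ∑ w, potF s R B V (glue (B ∪ V) w z) = ∑ w, potF s R B V (y w) from rfl, h2]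
      rfl
    rw [h3]; ring
  have hP0 := pot_nonneg s hR B V z
  have hB' : (B.card : ℝ) ≤ a := by exact_mod_cast hB
  have hterm : ∀ d w, ((U d w).card : ℝ) * pot s R B (U d w) (y w) ≤
      ((U d w).card : ℝ) * (pot s R B V z - κ) + N * (a + R + κ) := by
    intro d w
    by_cases hN : N ≤ (U d w).card
    · have h1 := (hcon w d hN).le
      have h2 : ((U d w).card : ℝ) * pot s R B (U d w) (y w) ≤
          ((U d w).card : ℝ) * (pot s R B V z - κ) :=
        mul_le_mul_of_nonneg_left h1 (Nat.cast_nonneg _)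
      have h3 : (0 : ℝ) ≤ N * (a + R + κ) := by positivity
      linarith
    · push Not at hN
      have h1 := pot_le s hR B (U d w) (y w)
      have h2 : ((U d w).card : ℝ) ≤ N := by exact_mod_cast hN.le
      have h3 : (0 : ℝ) ≤ ((U d w).card : ℝ) := Nat.cast_nonneg _
      have h4 : ((U d w).card : ℝ) * pot s R B (U d w) (y w) ≤ ((U d w).card : ℝ) * (a + R) :=
        mul_le_mul_of_nonneg_left (by linarith) h3
      have h5 : ((U d w).card : ℝ) * (a + R + κ) ≤ N * (a + R + κ) :=
        mul_le_mul_of_nonneg_right h2 (by positivity)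
      have h6 : 0 ≤ ((U d w).card : ℝ) * pot s R B V z := mul_nonneg h3 hP0
      linarith
  have hfin : ∑ d, ∑ w, ((U d w).card : ℝ) * pot s R B (U d w) (y w) ≤
      2 ^ n * (V.card * (pot s R B V z - κ)) + Fintype.card D * (2 ^ n * (N * (a + R + κ))) := by
    refine (Finset.sum_le_sum fun d _ => Finset.sum_le_sum fun w _ => hterm d w).trans ?_
    have h1 : ∀ d : D, ∑ w : Fin n → Bool, (((U d w).card : ℝ) * (pot s R B V z - κ) +
        N * (a + R + κ)) = ∑ w, ((U d w).card : ℝ) * (pot s R B V z - κ) +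
          2 ^ n * (N * (a + R + κ)) := by
      intro d
      rw [Finset.sum_add_distrib]
      simp
    rw [Finset.sum_congr rfl fun d _ => h1 d, Finset.sum_add_distrib, Finset.sum_comm]
    have h2 : ∀ w : Fin n → Bool, ∑ d, ((U d w).card : ℝ) * (pot s R B V z - κ) =
        V.card * (pot s R B V z - κ) := by
      intro w
      rw [← Finset.sum_mul, hcard]
    rw [Finset.sum_congr rfl fun w _ => h2 w]
    simp
  rw [htot] at hfin
  have hDK : (Fintype.card D : ℝ) ≤ K := by exact_mod_cast hD
  have h1 : κ * V.card ≤ (K : ℝ) * (N * (a + R + κ)) := by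
    have h2 : (2 : ℝ) ^ n * (κ * V.card) ≤ 2 ^ n * ((Fintype.card D : ℝ) * (N * (a + R + κ))) := by
      linarith
    have h3 := le_of_mul_le_mul_left h2 (by positivity)
    refine h3.trans (mul_le_mul_of_nonneg_right hDK (by positivity))
  have h4 : (K : ℝ) * (N * (a + R + κ)) / κ < V.card := by
    have h5 : (K : ℝ) * (N * (a + R + κ)) / κ ≤ ⌈(K : ℝ) * (N * (a + R + κ)) / κ⌉₊ := Nat.le_ceil _
    have h6 : (⌈(K : ℝ) * (N * (a + R + κ)) / κ⌉₊ : ℝ) < V.card := by
      have : ⌈(K : ℝ) * (N * (a + R + κ)) / κ⌉₊ < V.card := by omega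
      exact_mod_cast this
    linarith
  rw [div_lt_iff₀ hκ] at h4
  linarith

/-! ### Maps to finite groups -/

section

variable {n : ℕ} {G : Type} [Group G]

/-- The effect of switching the coordinate `k` on `Φ`. -/
def Dk (Φ : (Fin n → Bool) → G) (k : Fin n) (y : Fin n → Bool) : G :=
  (Φ (Function.update y k false))⁻¹ * Φ (Function.update y k true)

/-- The effect of switching `k` does not depend on the coordinates before `k`. -/
def RD (V : Finset (Fin n)) (Φ : (Fin n → Bool) → G) : Prop :=
  ∀ j ∈ V, ∀ k ∈ V, j < k → ∀ y, Dk Φ k (fl y j) = Dk Φ k y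

lemma update_fl_self (y : Fin n → Bool) (k : Fin n) (c : Bool) :
    Function.update (fl y k) k c = Function.update y k c := by
  simp [fl]

lemma update_fl_ne (y : Fin n → Bool) {j k : Fin n} (h : j ≠ k) (c : Bool) :
    Function.update (fl y j) k c = fl (Function.update y k c) j := by
  unfold fl
  rw [Function.update_of_ne h, Function.update_comm h]

lemma Dk_fl_self (Φ : (Fin n → Bool) → G) (k : Fin n) (y : Fin n → Bool) :
    Dk Φ k (fl y k) = Dk Φ k y := by
  unfold Dk
  rw [update_fl_self, update_fl_self]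

lemma Dk_spec (Φ : (Fin n → Bool) → G) (k : Fin n) {y : Fin n → Bool} (hy : y k = false) :
    Φ (fl y k) = Φ y * Dk Φ k y := by
  unfold Dk
  have h1 : Function.update y k false = y := by rw [← hy]; exact Function.update_eq_self k y
  have h2 : Function.update y k true = fl y k := by unfold fl; rw [hy]; rfl
  rw [h1, h2]; group

lemma Dk_conj {V : Finset (Fin n)} {Φ : (Fin n → Bool) → G} (h : RD V Φ) {j k : Fin n}
    (hj : j ∈ V) (hk : k ∈ V) (hjk : j < k) {y : Fin n → Bool} (hy : y k = false) :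
    Dk Φ j (fl y k) = (Dk Φ k y)⁻¹ * Dk Φ j y * Dk Φ k y := by
  have hne : j ≠ k := hjk.ne
  have hinv : ∀ c : Bool, Dk Φ k (Function.update y j c) = Dk Φ k y := by
    intro c
    by_cases hc : c = y j
    · rw [hc, Function.update_eq_self]
    · have : Function.update y j c = fl y j := by
        unfold fl
        congr 1
        cases hyj : y j <;> cases c <;> simp_all
      rw [this]
      exact h j hj k hk hjk y
  have h1 : ∀ c : Bool, Φ (Function.update (fl y k) j c) =
      Φ (Function.update y j c) * Dk Φ k y := by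
    intro c
    rw [update_fl_ne y hne.symm, Dk_spec Φ k (by rw [Function.update_of_ne hne.symm]; exact hy),
      hinv]
  unfold Dk at h1 ⊢
  rw [h1, h1]
  group

lemma Dk_star {V : Finset (Fin n)} {Φ : (Fin n → Bool) → G} (h : RD V Φ) :
    ∀ j ∈ V, ∀ k ∈ V, ∀ y, Dk Φ j (fl y k) = Dk Φ k y ↔ Dk Φ j y = Dk Φ k y := by
  intro j hj k hk y
  rcases lt_trichotomy j k with hjk | hjk | hjk
  · cases hy : y k
    · rw [Dk_conj h hj hk hjk hy]
      constructor
      · intro h1
        have h2 : Dk Φ j y = Dk Φ k y * ((Dk Φ k y)⁻¹ * Dk Φ j y * Dk Φ k y) *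
          (Dk Φ k y)⁻¹ := by group
        rw [h2, h1]; group
      · intro h1
        rw [h1]; group
    · have hy' : (fl y k) k = false := by rw [fl_self, hy]; rfl
      have h1 := Dk_conj h hj hk hjk hy'
      rw [fl_fl, Dk_fl_self] at h1
      rw [h1]
      constructor
      · intro h2
        rw [h2]; group
      · intro h2
        have : Dk Φ j (fl y k) = Dk Φ k y * ((Dk Φ k y)⁻¹ * Dk Φ j (fl y k) * Dk Φ k y) *
          (Dk Φ k y)⁻¹ := by group
        rw [this, h2]; group
  · subst hjk
    rw [Dk_fl_self]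
  · rw [h k hk j hj hjk]

/-- On the class of a label `d` the map `Φ` is `Φ₀ * d ^ (number of ones)`. -/
lemma cls_symm [DecidableEq G] {V : Finset (Fin n)} {Φ : (Fin n → Bool) → G} (h : RD V Φ)
    (d : G) (y : Fin n → Bool) (W : Finset (Fin n)) (hW : W ⊆ Cls V (Dk Φ) d y) :
    Φ (glue (Cls V (Dk Φ) d y) (fun j => decide (j ∈ W)) y) =
      Φ (glue (Cls V (Dk Φ) d y) (fun _ => false) y) * d ^ W.card := by
  set U := Cls V (Dk Φ) d y with hU
  induction W using Finset.induction_on with
  | empty => simp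
  | insert k W hk ih =>
    have hkU : k ∈ U := hW (Finset.mem_insert_self k W)
    have h1 := ih ((Finset.subset_insert k W).trans hW)
    set p := glue U (fun j => decide (j ∈ W)) y with hp
    have hpk : p k = false := by rw [hp, glue_mem hkU]; simp [hk]
    have h2 : glue U (fun j => decide (j ∈ insert k W)) y = fl p k := by
      funext j
      by_cases hj : j = k
      · subst hj
        rw [fl_self, hpk, glue_mem hkU]; simp
      · rw [fl_ne _ hj, hp]
        by_cases hjU : j ∈ U
        · rw [glue_mem hjU, glue_mem hjU]; simp [hj]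
        · rw [glue_notMem hjU, glue_notMem hjU]
    have h3 : Cls V (Dk Φ) d p = U := by
      rw [hp, hU]
      exact cls_glue (Dk_star h) d _ y
    have h4 : Dk Φ k p = d := by
      have : k ∈ Cls V (Dk Φ) d p := by rw [h3]; exact hkU
      exact (Finset.mem_filter.1 this).2
    rw [h2, Dk_spec Φ k hpk, h4, h1, Finset.card_insert_of_notMem hk, pow_succ, mul_assoc]

end

/-- Symmetrization of a map to a finite group. -/
lemma group_att (K : ℕ) {R : ℝ} (hR : 0 ≤ R) (a N : ℕ) {κ : ℝ} (hκ : 0 < κ) :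
    ∃ N₀ : ℕ, ∀ (G : Type) [Group G] [Fintype G], Fintype.card G ≤ K →
    ∀ (n : ℕ) (s : Wt n) (B V : Finset (Fin n)) (z : Fin n → Bool)
    (Φ : (Fin n → Bool) → G), IgnM B Φ → Disjoint B V → RD V Φ → B.card ≤ a → N₀ ≤ V.card →
    ∃ V' z', Step s R κ B V z V' z' ∧ N ≤ V'.card ∧ SymM V' z' Φ := by
  classical
  obtain ⟨N₀, h₀⟩ := label_att K hR a N hκ
  refine ⟨N₀, fun G _ _ hG n s B V z Φ hign hd hRD hB hV => ?_⟩
  -- the labels computed with the coordinates in `B` replaced by those of `z`
  obtain ⟨w, d, hN, hp⟩ := h₀ G hG n s B V z (Dk Φ)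
    (by
      intro j x y hxy
      unfold Dk
      rw [hign (Function.update x j false) (Function.update y j false) ?_,
        hign (Function.update x j true) (Function.update y j true) ?_]
      · intro i hi
        by_cases hij : i = j
        · subst hij; simp
        · rw [Function.update_of_ne hij, Function.update_of_ne hij, hxy i hi]
      · intro i hi
        by_cases hij : i = j
        · subst hij; simp
        · rw [Function.update_of_ne hij, Function.update_of_ne hij, hxy i hi])
    (Dk_star hRD) hB hV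
  refine ⟨_, _, ⟨Finset.filter_subset _ _, ⟨w, rfl⟩, hp⟩, hN, ?_⟩
  intro x x' hxx
  set y := glue (B ∪ V) w z with hy
  set U := Cls V (Dk Φ) d y with hU
  have key : ∀ x : Fin n → Bool, Φ (glue U x y) =
      Φ (glue U (fun _ => false) y) * d ^ cnt U x := by
    intro x
    have h1 : glue U x y = glue U (fun j => decide (j ∈ ones U x)) y := by
      funext j
      by_cases hj : j ∈ U
      · rw [glue_mem hj, glue_mem hj]
        cases hxj : x j <;> simp [mem_ones, hj, hxj]
      · rw [glue_notMem hj, glue_notMem hj]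
    rw [h1, cls_symm hRD d y (ones U x) (ones_subset _ _), ones_card]
  show Φ (glue U x y) = Φ (glue U x' y)
  have hxx' : cnt U x = cnt U x' := hxx
  rw [key x, key x', hxx']

end Pool.Agent.H.MP_4093f8_co.Ord
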