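import Pool.Agent.H.MP_4093f8_co.OrdJ

/-!
# Ordered counting in the cube, part K

Products of maps of a finite set to itself (finite automata).
-/

open Finset

namespace Pool.Agent.H.MP_4093f8_co.Ord

/-! ### Rank -/

section rank

variable {Q : Type} [Fintype Q] [DecidableEq Q]

/-- The rank of a map of a finite set to itself. -/
def rk (f : Q → Q) : ℕ := (univ.image f).card

lemma rk_comp_left (f g : Q → Q) : rk (f ∘ g) ≤ rk f := by
  unfold rk
  apply Finset.card_le_card
  intro q hq
  rw [mem_image] at hq ⊢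
  obtain ⟨p, -, hp⟩ := hq
  exact ⟨g p, mem_univ _, hp⟩

lemma image_comp_eq (f g : Q → Q) : univ.image (f ∘ g) = (univ.image g).image f := by
  rw [Finset.image_image]

lemma rk_comp_right (f g : Q → Q) : rk (f ∘ g) ≤ rk g := by
  unfold rk
  rw [image_comp_eq]
  exact Finset.card_image_le

lemma rk_le (f : Q → Q) : rk f ≤ Fintype.card Q := by
  unfold rk
  exact Finset.card_le_univ _

end rank

/-! ### Interval products -/

section

variable {Q : Type} {n : ℕ}

/-- `W lo hi x` is a product of factors, one for each coordinate in the interval `[lo, hi)`. -/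
structure Prd (B : Finset (Fin n)) (W : ℕ → ℕ → (Fin n → Bool) → (Q → Q)) : Prop where
  mul : ∀ lo mid hi x, lo ≤ mid → mid ≤ hi → W lo hi x = W lo mid x ∘ W mid hi x
  loc : ∀ lo hi x y, (∀ j : Fin n, lo ≤ (j : ℕ) → (j : ℕ) < hi → x j = y j) →
    W lo hi x = W lo hi y
  ign : ∀ lo hi, IgnM B (W lo hi)

/-- `[g0, g1)` is one of the intervals into which `U` divides `[lo, hi)`. -/
def Gap (U : Finset (Fin n)) (lo hi g0 g1 : ℕ) : Prop :=
  (g0 = lo ∨ ∃ p ∈ U, g0 = (p : ℕ) + 1) ∧ (g1 = hi ∨ ∃ p ∈ U, g1 = (p : ℕ)) ∧ g0 ≤ g1 ∧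
    ∀ p ∈ U, ¬ (g0 ≤ (p : ℕ) ∧ (p : ℕ) < g1)

lemma rank_surj (T : Finset (Fin n)) {m : ℕ} (hm : m < T.card) :
    ∃ i ∈ T, (T.filter fun j => j < i).card = m := by
  have hsurj : Set.SurjOn (fun i : Fin n => (T.filter fun j : Fin n => (j : ℕ) < (i : ℕ)).card)
      T (range T.card) := by
    apply Finset.surjOn_of_injOn_of_card_le
    · intro i hi
      simpa using rank_lt (fun j : Fin n => (j : ℕ)) T (by simpa using hi)
    · exact rank_inj (fun j : Fin n => (j : ℕ)) Fin.val_injective T
    · simp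
  obtain ⟨i, hi, h⟩ := hsurj (by simpa using hm)
  exact ⟨i, by simpa using hi, h⟩

/-- A subset whose gaps all contain many elements. -/
lemma spaced (m : ℕ) : ∀ (L : ℕ) (U₀ : Finset (Fin n)) (lo hi : ℕ),
    (∀ p ∈ U₀, lo ≤ (p : ℕ) ∧ (p : ℕ) < hi) → (L + 1) * (m + 1) ≤ U₀.card →
    ∃ U ⊆ U₀, U.card = L ∧ ∀ g0 g1, Gap U lo hi g0 g1 →
      m ≤ (U₀.filter fun p : Fin n => g0 ≤ (p : ℕ) ∧ (p : ℕ) < g1).card := by
  intro L
  induction L with
  | zero =>
    intro U₀ lo hi h hc
    refine ⟨∅, Finset.empty_subset _, rfl, fun g0 g1 hg => ?_⟩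
    obtain ⟨h0, h1, -, -⟩ := hg
    have e0 : g0 = lo := by rcases h0 with h0 | ⟨p, hp, -⟩; exact h0; simp at hp
    have e1 : g1 = hi := by rcases h1 with h1 | ⟨p, hp, -⟩; exact h1; simp at hp
    rw [e0, e1, Finset.filter_true_of_mem h]
    omega
  | succ L ih =>
    intro U₀ lo hi h hc
    have hm : m < U₀.card := by nlinarith
    obtain ⟨p, hp, hpm⟩ := rank_surj U₀ hm
    have hsplit : U₀.card = (U₀.filter fun j => j < p).card + 1 +
        (U₀.filter fun j => p < j).card := by
      have e : U₀ = (U₀.filter fun i => i < p) ∪ insert p (U₀.filter fun i => p < i) := by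
        ext i
        simp only [mem_union, mem_insert, mem_filter]
        constructor
        · intro hi
          rcases lt_trichotomy i p with h | h | h
          · exact Or.inl ⟨hi, h⟩
          · exact Or.inr (Or.inl h)
          · exact Or.inr (Or.inr ⟨hi, h⟩)
        · rintro (h | h | h)
          · exact h.1
          · rw [h]; exact hp
          · exact h.1
      conv_lhs => rw [e]
      rw [Finset.card_union_of_disjoint, Finset.card_insert_of_notMem]
      · ring
      · simp
      · rw [Finset.disjoint_left]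
        intro i h1 h2
        simp only [mem_insert, mem_filter] at h1 h2
        rcases h2 with h2 | h2
        · rw [h2] at h1; exact lt_irrefl _ h1.2
        · exact lt_asymm h1.2 h2.2
    obtain ⟨U', hU', hUc', hg'⟩ := ih (U₀.filter fun j => p < j) ((p : ℕ) + 1) hi
      (by
        intro q hq
        obtain ⟨hq1, hq2⟩ := Finset.mem_filter.1 hq
        exact ⟨Nat.succ_le_of_lt (Fin.lt_def.1 hq2), (h q hq1).2⟩)
      (by
        have : (L + 1 + 1) * (m + 1) = (L + 1) * (m + 1) + (m + 1) := by ring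
        omega)
    have hU'p : ∀ q ∈ U', p < q := fun q hq => (Finset.mem_filter.1 (hU' hq)).2
    have hpU' : p ∉ U' := fun hq => lt_irrefl _ (hU'p p hq)
    refine ⟨insert p U', ?_, ?_, ?_⟩
    · intro q hq
      rcases Finset.mem_insert.1 hq with rfl | hq
      · exact hp
      · exact (Finset.mem_filter.1 (hU' hq)).1
    · rw [Finset.card_insert_of_notMem hpU', hUc']
    · intro g0 g1 hg
      obtain ⟨h0, h1, h01, hno⟩ := hg
      have hnop := hno p (Finset.mem_insert_self p U')
      have hph := h p hp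
      -- it is enough to find the gap in `U'`
      have key : (∃ q ∈ insert p U', g0 = (q : ℕ) + 1) →
          Gap U' ((p : ℕ) + 1) hi g0 g1 := by
        rintro ⟨q, hq, hq0⟩
        have hpg : (p : ℕ) < g0 := by
          rcases Finset.mem_insert.1 hq with rfl | hq
          · omega
          · have := hU'p q hq
            rw [Fin.lt_def] at this
            omega
        refine ⟨?_, ?_, h01, fun r hr => hno r (Finset.mem_insert_of_mem hr)⟩
        · rcases Finset.mem_insert.1 hq with rfl | hq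
          · exact Or.inl hq0
          · exact Or.inr ⟨q, hq, hq0⟩
        · rcases h1 with h1 | ⟨r, hr, hr1⟩
          · exact Or.inl h1
          · rcases Finset.mem_insert.1 hr with rfl | hr
            · omega
            · exact Or.inr ⟨r, hr, hr1⟩
      rcases h0 with h0 | h0
      · -- the first gap
        have hg1 : g1 ≤ (p : ℕ) := by
          by_contra hcon
          exact hnop ⟨by omega, by omega⟩
        have e1 : g1 = (p : ℕ) := by
          rcases h1 with h1 | ⟨r, hr, hr1⟩
          · omega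
          · rcases Finset.mem_insert.1 hr with rfl | hr
            · exact hr1
            · have := hU'p r hr
              rw [Fin.lt_def] at this
              omega
        have e2 : (U₀.filter fun q : Fin n => g0 ≤ (q : ℕ) ∧ (q : ℕ) < g1) =
            U₀.filter fun j => j < p := by
          refine Finset.filter_congr fun q hq => ?_
          rw [h0, e1, Fin.lt_def]
          have := (h q hq).1
          constructor
          · intro h; exact h.2
          · intro h; exact ⟨this, h⟩
        rw [e2, hpm]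
      · refine (hg' g0 g1 (key h0)).trans ?_
        apply Finset.card_le_card
        intro q hq
        simp only [mem_filter] at hq ⊢
        exact ⟨hq.1.1, hq.2⟩

/-- Either a subset of size `L` of an interval such that `e` is almost constant on its gaps, or a
subinterval on which `e` is larger. -/
lemma stable (L : ℕ) : ∀ S : ℕ, ∃ N₀ : ℕ, ∀ (n : ℕ) (e : ℕ → ℕ → ℝ) (η : ℝ)
    (U₀ : Finset (Fin n)) (lo hi : ℕ), lo ≤ hi →
    (∀ p ∈ U₀, lo ≤ (p : ℕ) ∧ (p : ℕ) < hi) → N₀ ≤ U₀.card →
    (∃ lo' hi', ∃ U ⊆ U₀, lo ≤ lo' ∧ lo' ≤ hi' ∧ hi' ≤ hi ∧ U.card = L ∧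
      (∀ p ∈ U, lo' ≤ (p : ℕ) ∧ (p : ℕ) < hi') ∧
      ∀ g0 g1, Gap U lo' hi' g0 g1 → e g0 g1 ≤ e lo' hi' + η) ∨
    (∃ lo' hi', lo ≤ lo' ∧ lo' ≤ hi' ∧ hi' ≤ hi ∧ e lo hi + S * η ≤ e lo' hi') := by
  intro S
  induction S with
  | zero =>
    exact ⟨0, fun n e η U₀ lo hi hlh _ _ => Or.inr ⟨lo, hi, le_rfl, hlh, le_rfl, by simp⟩⟩
  | succ S ih =>
    obtain ⟨N₁, h₁⟩ := ih
    refine ⟨(L + 1) * (N₁ + 1), fun n e η U₀ lo hi hlh h hc => ?_⟩
    obtain ⟨U, hU, hUc, hg⟩ := spaced N₁ L U₀ lo hi h hc
    by_cases hall : ∀ g0 g1, Gap U lo hi g0 g1 → e g0 g1 ≤ e lo hi + η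
    · exact Or.inl ⟨lo, hi, U, hU, le_rfl, hlh, le_rfl, hUc, fun p hp => h p (hU hp), hall⟩
    · push Not at hall
      obtain ⟨g0, g1, hgap, he⟩ := hall
      have hg0 : lo ≤ g0 := by
        rcases hgap.1 with h0 | ⟨p, hp, h0⟩
        · omega
        · have := (h p (hU hp)).1
          omega
      have hg1 : g1 ≤ hi := by
        rcases hgap.2.1 with h0 | ⟨p, hp, h0⟩
        · omega
        · have := (h p (hU hp)).2
          omega
      rcases h₁ n e η (U₀.filter fun p : Fin n => g0 ≤ (p : ℕ) ∧ (p : ℕ) < g1) g0 g1 hgap.2.2.1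
        (fun p hp => (Finset.mem_filter.1 hp).2) (hg g0 g1 hgap) with
        ⟨lo', hi', U', hU', a1, a2, a3, a4, a5, a6⟩ | ⟨lo', hi', a1, a2, a3, a4⟩
      · exact Or.inl ⟨lo', hi', U', hU'.trans (Finset.filter_subset _ _), hg0.trans a1, a2,
          a3.trans hg1, a4, a5, a6⟩
      · refine Or.inr ⟨lo', hi', hg0.trans a1, a2, a3.trans hg1, ?_⟩
        push_cast
        linarith

end

end Pool.Agent.H.MP_4093f8_co.Ord
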