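import Pool.Agent.H.MP_4093f8_co.OrdK

/-!
# Ordered counting in the cube, part L

On a set of coordinates whose gaps have products of the same rank as the whole product, a product
of maps of a finite set is determined by a map to a finite group.
-/

open Finset

namespace Pool.Agent.H.MP_4093f8_co.Ord

section

variable {Q : Type} {n : ℕ} {B : Finset (Fin n)} {W : ℕ → ℕ → (Fin n → Bool) → (Q → Q)}

/-- The interval products that avoid `U` do not change on the subcube `U × z`. -/
lemma Prd.avoid (hW : Prd B W) {U : Finset (Fin n)} {g0 g1 : ℕ}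
    (h : ∀ p ∈ U, ¬ (g0 ≤ (p : ℕ) ∧ (p : ℕ) < g1)) (x z : Fin n → Bool) :
    W g0 g1 (glue U x z) = W g0 g1 z := by
  apply hW.loc
  intro j hj0 hj1
  rw [glue_notMem]
  intro hj
  exact h j hj ⟨hj0, hj1⟩

variable [Fintype Q] [DecidableEq Q]

/-- The group-valued map attached to a stable set of coordinates. -/
lemma group_map (hW : Prd B W) {U : Finset (Fin n)} (hBU : Disjoint B U) (hne : U.Nonempty)
    {lo hi : ℕ} (hUI : ∀ p ∈ U, lo ≤ (p : ℕ) ∧ (p : ℕ) < hi) (z : Fin n → Bool)
    (hrk : ∀ x g0 g1, Gap U lo hi g0 g1 →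
      rk (W g0 g1 (glue U x z)) = rk (W lo hi (glue U x z))) :
    ∃ (I : Finset Q) (Φ : (Fin n → Bool) → Equiv.Perm {q // q ∈ I}), IgnM B Φ ∧ RD U Φ ∧
      (∀ x, Φ (glue U x z) = Φ x) ∧
      ∀ x y, Φ x = Φ y → W lo hi (glue U x z) = W lo hi (glue U y z) := by
  classical
  -- the last and the first element of `U`
  obtain ⟨pL, hpL, hmax⟩ := Finset.exists_max_image U id hne
  obtain ⟨p1, hp1, hmin⟩ := Finset.exists_min_image U id hne
  simp only [id] at hmax hmin
  have hmax' : ∀ p ∈ U, (p : ℕ) ≤ (pL : ℕ) := fun p hp => Fin.le_def.1 (hmax p hp)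
  have hmin' : ∀ p ∈ U, (p1 : ℕ) ≤ (p : ℕ) := fun p hp => Fin.le_def.1 (hmin p hp)
  have gapL : Gap U lo hi ((pL : ℕ) + 1) hi :=
    ⟨Or.inr ⟨pL, hpL, rfl⟩, Or.inl rfl, (hUI pL hpL).2, fun p hp h => by
      have := hmax' p hp; omega⟩
  have gap1 : Gap U lo hi lo (p1 : ℕ) :=
    ⟨Or.inl rfl, Or.inr ⟨p1, hp1, rfl⟩, (hUI p1 hp1).1, fun p hp h => by
      have := hmin' p hp; omega⟩
  have hloL : lo ≤ (pL : ℕ) + 1 := by have := (hUI pL hpL).1; omega
  set p : (Fin n → Bool) → (Fin n → Bool) := fun x => glue U x z with hp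
  set AL := W ((pL : ℕ) + 1) hi z with hAL
  set S : (Fin n → Bool) → Q → Q := fun x => W lo ((pL : ℕ) + 1) (p x) with hS
  set I : Finset Q := univ.image AL with hI
  set J : Finset Q := univ.image (W lo (p1 : ℕ) z) with hJ
  have hALx : ∀ x, W ((pL : ℕ) + 1) hi (p x) = AL := fun x => hW.avoid gapL.2.2.2 x z
  have hA1x : ∀ x, W lo (p1 : ℕ) (p x) = W lo (p1 : ℕ) z := fun x => hW.avoid gap1.2.2.2 x z
  have hT : ∀ x, W lo hi (p x) = S x ∘ AL := by
    intro x
    rw [hW.mul lo ((pL : ℕ) + 1) hi (p x) hloL gapL.2.2.1, hALx]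
  have hrT : ∀ x, rk (W lo hi (p x)) = I.card := by
    intro x
    rw [← hrk x _ _ gapL, show W ((pL : ℕ) + 1) hi (glue U x z) = AL from hALx x]
    rfl
  have hIJ : I.card = J.card := by
    rw [← hrT z, ← hrk z _ _ gap1, show W lo (p1 : ℕ) (glue U z z) = W lo (p1 : ℕ) z from hA1x z]
    rfl
  -- the image of `I`
  have himg : ∀ x, I.image (S x) = univ.image (W lo hi (p x)) := by
    intro x
    rw [hT, image_comp_eq]
  have hsubJ : ∀ x, I.image (S x) ⊆ J := by
    intro x
    rw [himg, hW.mul lo (p1 : ℕ) hi (p x) gap1.2.2.1 (hUI p1 hp1).2.le, hA1x]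
    intro q hq
    rw [mem_image] at hq ⊢
    obtain ⟨r, -, hr⟩ := hq
    exact ⟨_, mem_univ _, hr⟩
  have hcardim : ∀ x, (I.image (S x)).card = I.card := by
    intro x
    rw [himg, ← hrT x]
    rfl
  have heqJ : ∀ x, I.image (S x) = J :=
    fun x => Finset.eq_of_subset_of_card_le (hsubJ x) (by rw [hcardim, hIJ])
  have hinj : ∀ x, Set.InjOn (S x) I := fun x => Finset.card_image_iff.1 (hcardim x)
  -- the equivalences
  have hex : ∀ x, ∃ e : {q // q ∈ I} ≃ {q // q ∈ J}, ∀ q, (e q : Q) = S x q := by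
    intro x
    have hmaps : ∀ q : {q // q ∈ I}, S x q ∈ J := fun q => by
      rw [← heqJ x]
      exact Finset.mem_image_of_mem _ q.2
    refine ⟨Equiv.ofBijective (fun q => ⟨S x q, hmaps q⟩) ⟨?_, ?_⟩, fun q => rfl⟩
    · intro q r hqr
      have : S x q = S x r := congrArg Subtype.val hqr
      exact Subtype.ext (hinj x q.2 r.2 this)
    · rintro ⟨j, hj⟩
      rw [← heqJ x, mem_image] at hj
      obtain ⟨q, hq, hqj⟩ := hj
      exact ⟨⟨q, hq⟩, Subtype.ext hqj⟩
  choose e he using hex
  have he_eq : ∀ x y, S x = S y → e x = e y := by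
    intro x y hxy
    ext q
    rw [he, he, hxy]
  refine ⟨I, fun x => (e x).trans (e z).symm, ?_, ?_, ?_, ?_⟩
  · -- independence of `B`
    intro x y hxy
    have : p x = p y := by
      funext j
      simp only [hp]
      by_cases hj : j ∈ U
      · rw [glue_mem hj, glue_mem hj]
        exact hxy j (fun hB => Finset.disjoint_left.1 hBU hB hj)
      · rw [glue_notMem hj, glue_notMem hj]
    have h2 : e x = e y := he_eq x y (by simp only [hS, this])
    simp only [h2]
  · -- the effect of switching `k` does not depend on the coordinates before `k`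
    intro j hj k hk hjk y
    -- the element of `U` before `k`
    obtain ⟨pk, hpk, hpkmax⟩ := Finset.exists_max_image (U.filter fun i => i < k) id
      ⟨j, Finset.mem_filter.2 ⟨hj, hjk⟩⟩
    simp only [id] at hpkmax
    have hpkU : pk ∈ U := (Finset.mem_filter.1 hpk).1
    have hpkk : (pk : ℕ) < (k : ℕ) := Fin.lt_def.1 (Finset.mem_filter.1 hpk).2
    have hjpk : (j : ℕ) ≤ (pk : ℕ) := Fin.le_def.1 (hpkmax j (Finset.mem_filter.2 ⟨hj, hjk⟩))
    have gapk : Gap U lo hi ((pk : ℕ) + 1) (k : ℕ) := by
      refine ⟨Or.inr ⟨pk, hpkU, rfl⟩, Or.inr ⟨k, hk, rfl⟩, hpkk, fun i hi h => ?_⟩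
      have h1 : i < k := Fin.lt_def.2 h.2
      have h2 := Fin.le_def.1 (hpkmax i (Finset.mem_filter.2 ⟨hi, h1⟩))
      omega
    have hkL := hmax' k hk
    have hlopk := (hUI pk hpkU).1
    have hkhi := (hUI k hk).2
    set X : (Fin n → Bool) → Q → Q := fun x => W lo ((pk : ℕ) + 1) (p x) with hX
    set Y : (Fin n → Bool) → Q → Q := fun x => W ((pk : ℕ) + 1) ((pL : ℕ) + 1) (p x) with hY
    set Jk : Finset Q := univ.image (W ((pk : ℕ) + 1) (k : ℕ) z) with hJk
    have hkx : ∀ x, W ((pk : ℕ) + 1) (k : ℕ) (p x) = W ((pk : ℕ) + 1) (k : ℕ) z :=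
      fun x => hW.avoid gapk.2.2.2 x z
    have hSXY : ∀ x, S x = X x ∘ Y x := fun x =>
      hW.mul lo ((pk : ℕ) + 1) ((pL : ℕ) + 1) (p x) (by omega) (by omega)
    have hYJ : ∀ x q, Y x q ∈ Jk := by
      intro x q
      rw [hJk, mem_image]
      refine ⟨W (k : ℕ) ((pL : ℕ) + 1) (p x) q, mem_univ _, ?_⟩
      have := hW.mul ((pk : ℕ) + 1) (k : ℕ) ((pL : ℕ) + 1) (p x) (by omega) (by omega)
      rw [hkx] at this
      simp only [hY]
      rw [this]; rfl
    have hXinj : ∀ x, Set.InjOn (X x) Jk := by
      intro x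
      apply Finset.card_image_iff.1
      apply le_antisymm Finset.card_image_le
      have h1 : W lo hi (p x) = X x ∘ (W ((pk : ℕ) + 1) (k : ℕ) z ∘ W (k : ℕ) hi (p x)) := by
        rw [hW.mul lo ((pk : ℕ) + 1) hi (p x) (by omega) (by omega),
          hW.mul ((pk : ℕ) + 1) (k : ℕ) hi (p x) (by omega) (by omega), hkx]
      have h2 : rk (W lo hi (p x)) ≤ (Jk.image (X x)).card := by
        rw [h1]
        unfold rk
        apply Finset.card_le_card
        intro q hq
        rw [mem_image] at hq ⊢
        obtain ⟨r, -, hr⟩ := hq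
        exact ⟨_, mem_image.2 ⟨_, mem_univ _, rfl⟩, hr⟩
      have h3 : rk (W lo hi (p x)) = Jk.card := by
        rw [← hrk x _ _ gapk, show W ((pk : ℕ) + 1) (k : ℕ) (glue U x z) =
          W ((pk : ℕ) + 1) (k : ℕ) z from hkx x]
        rfl
      omega
    -- the map `Y` does not see `j`
    have hYj : ∀ c, Y (Function.update (fl y j) k c) = Y (Function.update y k c) := by
      intro c
      apply hW.loc
      intro i hi0 _
      simp only [hp]
      by_cases hi : i ∈ U
      · rw [glue_mem hi, glue_mem hi]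
        by_cases hik : i = k
        · subst hik; simp
        · rw [Function.update_of_ne hik, Function.update_of_ne hik, fl_ne]
          rintro rfl
          omega
      · rw [glue_notMem hi, glue_notMem hi]
    -- the map `X` does not see `k`
    have hXk : ∀ (y : Fin n → Bool) c, X (Function.update y k c) = X y := by
      intro y c
      apply hW.loc
      intro i _ hi1
      simp only [hp]
      by_cases hi : i ∈ U
      · rw [glue_mem hi, glue_mem hi, Function.update_of_ne]
        rintro rfl
        omega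
      · rw [glue_notMem hi, glue_notMem hi]
    ext q
    -- both sides through `e`
    have hD : ∀ y : Fin n → Bool, ∀ q, (Dk (fun x => (e x).trans (e z).symm) k y) q =
        (e (Function.update y k false)).symm (e (Function.update y k true) q) := by
      intro y q
      unfold Dk
      simp [Equiv.Perm.mul_apply, Equiv.Perm.inv_def]
    rw [hD, hD]
    congr 1
    rw [Equiv.symm_apply_eq]
    set q' := (e (Function.update y k false)).symm (e (Function.update y k true) q) with hq'
    have h1 : e (Function.update y k false) q' = e (Function.update y k true) q := by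
      rw [hq', Equiv.apply_symm_apply]
    have h2 : S (Function.update y k false) q' = S (Function.update y k true) q := by
      rw [← he, ← he, h1]
    rw [hSXY, hSXY, hXk, hXk] at h2
    have h3 : Y (Function.update y k false) q' = Y (Function.update y k true) q :=
      hXinj y (hYJ _ _) (hYJ _ _) h2
    apply Subtype.ext
    rw [he, he, hSXY, hSXY, hXk, hXk]
    simp only [Function.comp]
    rw [hYj, hYj, h3]
  · intro x
    have : S (glue U x z) = S x := by
      simp only [hS, hp]
      congr 1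
      funext j
      by_cases hj : j ∈ U
      · rw [glue_mem hj]
      · rw [glue_notMem hj, glue_notMem hj]
    simp only [he_eq _ _ this]
  · intro x y hxy
    have h1 : e x = e y := by
      have h2 : (e x).trans (e z).symm = (e y).trans (e z).symm := hxy
      ext q
      have h3 := congrArg (fun f : Equiv.Perm {q // q ∈ I} => e z (f q)) h2
      simp only [Equiv.trans_apply, Equiv.apply_symm_apply] at h3
      rw [h3]
    show W lo hi (p x) = W lo hi (p y)
    rw [hT, hT]
    funext q
    have hq : AL q ∈ I := Finset.mem_image_of_mem _ (mem_univ q)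
    have h4 : S x (AL q) = S y (AL q) := by
      have h5 := he x ⟨AL q, hq⟩
      have h6 := he y ⟨AL q, hq⟩
      simp only at h5 h6
      rw [← h5, ← h6, h1]
    exact h4

end

end Pool.Agent.H.MP_4093f8_co.Ord
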