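import Pool.Agent.H.MP_4093f8_co.OrdL

/-!
# Ordered counting in the cube, part M

Symmetrization of products of maps of a finite set to itself.
-/

open Finset

namespace Pool.Agent.H.MP_4093f8_co.Ord

section

variable {n : ℕ}

lemma glue_step {X : Type*} {B V V' : Finset (Fin n)} {F : (Fin n → Bool) → X} (hF : IgnM B F)
    (h : V' ⊆ V) (x w z : Fin n → Bool) :
    F (glue V' x (glue (B ∪ V) w z)) = F (glue V (glue V' x w) z) := by
  rw [← glue_glue h]
  refine hF _ _ fun j hj => ?_
  by_cases h1 : j ∈ V'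
  · rw [glue_mem h1, glue_mem h1]
  · rw [glue_notMem h1, glue_notMem h1]
    exact (glue_union_agree hj).symm

lemma sum_update_le (g : (Fin n → Bool) → ℝ) (hg : ∀ w, 0 ≤ g w) (i : Fin n) (c : Bool) :
    ∑ w, g (Function.update w i c) ≤ 2 * ∑ w, g w := by
  have h1 : ∀ w, g (Function.update w i c) ≤ g w + g (fl w i) := by
    intro w
    by_cases hc : c = w i
    · rw [hc, Function.update_eq_self]
      have := hg (fl w i)
      linarith
    · have : Function.update w i c = fl w i := by
        unfold fl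
        congr 1
        cases hw : w i <;> cases c <;> simp_all
      rw [this]
      have := hg w
      linarith
  refine (Finset.sum_le_sum fun w _ => h1 w).trans ?_
  rw [Finset.sum_add_distrib, sum_fl g i]
  linarith

lemma sum_fix_le (g : (Fin n → Bool) → ℝ) (hg : ∀ w, 0 ≤ g w) (x : Fin n → Bool)
    (U : Finset (Fin n)) : ∑ w, g (glue U x w) ≤ 2 ^ U.card * ∑ w, g w := by
  induction U using Finset.induction_on with
  | empty =>
    have h0 : ∀ w, glue ∅ x w = w := fun w => by funext j; simp [glue]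
    simp only [h0, Finset.card_empty, pow_zero, one_mul, le_refl]
  | insert i U hi ih =>
    have h1 : ∀ w, glue (insert i U) x w = glue U x (Function.update w i (x i)) := by
      intro w
      funext j
      by_cases hj : j = i
      · subst hj
        rw [glue_mem (Finset.mem_insert_self _ _), glue_notMem hi]
        simp
      · by_cases hU : j ∈ U
        · rw [glue_mem (Finset.mem_insert_of_mem hU), glue_mem hU]
        · rw [glue_notMem hU, glue_notMem (by simp [hj, hU]), Function.update_of_ne hj]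
    rw [Finset.sum_congr rfl fun w _ => by rw [h1 w], Finset.card_insert_of_notMem hi, pow_succ]
    have h2 := sum_update_le (fun w => g (glue U x w)) (fun w => hg _) i (x i)
    refine h2.trans ?_
    linarith

/-- The choice of the fixed coordinates outside a small bad set. -/
lemma choose_good {s : Wt n} {R κ κ' : ℝ} (hR : 0 ≤ R)
    {a : ℕ} {B V U : Finset (Fin n)} (z : Fin n → Bool) (hU : U ⊆ V) (hne : U.Nonempty)
    (hB : B.card ≤ a)
    (h : ∀ i ∈ U, (∑ i ∈ V, mu s (B ∪ V) z i) / V.card - κ' ≤ mu s (B ∪ V) z i)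
    (hRκ : R * κ' ≤ κ / 2) (Bad : Finset (Fin n → Bool))
    (hBad : (Bad.card : ℝ) * (a + R + κ) < κ / 2 * 2 ^ n) :
    ∃ w, w ∉ Bad ∧ pot s R B V z - κ ≤ pot s R B U (glue (B ∪ V) w z) := by
  classical
  by_contra hcon
  push Not at hcon
  have hc : (0 : ℝ) < U.card := by exact_mod_cast Finset.card_pos.2 hne
  have h1 : (∑ i ∈ V, mu s (B ∪ V) z i) / V.card - κ' ≤
      (∑ i ∈ U, mu s (B ∪ V) z i) / U.card := by
    rw [le_div_iff₀ hc]
    have := Finset.sum_le_sum h
    rw [Finset.sum_const, nsmul_eq_mul] at this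
    linarith
  have h2 := mul_le_mul_of_nonneg_left h1 hR
  have hsub : B ∪ U ⊆ B ∪ V := Finset.union_subset_union_right hU
  have h3 := sum_glue_glue hsub z (potF s R B U)
  have h4 : ∀ w, ∑ x, potF s R B U (glue (B ∪ U) x (glue (B ∪ V) w z)) =
      2 ^ n * pot s R B U (glue (B ∪ V) w z) := by
    intro w
    rw [sum_potF]
    rfl
  rw [Finset.sum_congr rfl fun w _ => h4 w, ← Finset.mul_sum, sum_potF] at h3
  have h5 := mul_left_cancel₀ (by positivity : (2 : ℝ) ^ n ≠ 0) h3
  have hP0 := pot_nonneg s hR B V z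
  have hB' : (B.card : ℝ) ≤ a := by exact_mod_cast hB
  have h6 : ∀ w, pot s R B U (glue (B ∪ V) w z) ≤ (pot s R B V z - κ) +
      (if w ∈ Bad then (a + R + κ) else 0) := by
    intro w
    by_cases hw : w ∈ Bad
    · rw [if_pos hw]
      have := pot_le s hR B U (glue (B ∪ V) w z)
      linarith
    · rw [if_neg hw]
      have := hcon w hw
      linarith
  have h7 := Finset.sum_le_sum fun w (_ : w ∈ (univ : Finset (Fin n → Bool))) => h6 w
  rw [h5, Finset.sum_add_distrib, ← Finset.sum_filter, Finset.sum_const, Finset.sum_const,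
    nsmul_eq_mul, nsmul_eq_mul] at h7
  have h8 : (((univ : Finset (Fin n → Bool)).card : ℕ) : ℝ) = 2 ^ n := by simp
  have h9 : (univ.filter fun w => w ∈ Bad) = Bad := by ext w; simp
  rw [h8, h9] at h7
  have h10 : pot s R B V z - κ / 2 ≤ ∑ b ∈ B, mu s (B ∪ V) z b +
      R * ((∑ i ∈ U, mu s (B ∪ V) z i) / U.card) := by
    unfold pot
    linarith
  have h11 := mul_le_mul_of_nonneg_left h10 (by positivity : (0 : ℝ) ≤ 2 ^ n)
  nlinarith

end

/-- The class of the products of maps of a finite set to itself. -/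
def autoM (Q : Type) : MClass (Q → Q) := fun n B V _ F =>
  Disjoint B V ∧ ∃ W : ℕ → ℕ → (Fin n → Bool) → (Q → Q), Prd B W ∧ ∀ x, F x = W 0 n x

lemma autoM_good (Q : Type) [Fintype Q] [DecidableEq Q] : GoodM (autoM Q) where
  ign := by
    rintro n B V z F ⟨-, W, hW, hF⟩ x y hxy
    rw [hF, hF]
    exact hW.ign 0 n x y hxy
  her := by
    rintro n s R κ B V V' z z' F ⟨hd, hW⟩ hs
    exact ⟨Finset.disjoint_of_subset_right hs.1 hd, hW⟩
  att := by
    classical
    intro R hR a N κ hκ
    obtain ⟨Ng, hg⟩ := group_att (Nat.factorial (Fintype.card Q)) hR a N (half_pos hκ)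
    set L := Ng + 1 with hL
    set κ' : ℝ := min 1 (κ / 4 / (R + 1)) with hκ'
    have hκ'0 : 0 < κ' := lt_min one_pos (by positivity)
    have hRκ : R * κ' ≤ κ / 2 / 2 := by
      have h1 : κ' ≤ κ / 4 / (R + 1) := min_le_right _ _
      calc R * κ' ≤ (R + 1) * (κ / 4 / (R + 1)) := by
            apply mul_le_mul (by linarith) h1 hκ'0.le (by linarith)
        _ = κ / 2 / 2 := by field_simp; ring
    set C : ℝ := 4 ^ L * (L + 1) ^ 2 * (a + R + κ / 2) with hC
    have hC0 : 0 < C := by positivity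
    set η₀ : ℝ := κ / 8 / C with hη₀
    have hη₀0 : 0 < η₀ := by positivity
    set S : ℕ := ⌈(Fintype.card Q : ℝ) / η₀⌉₊ + 1 with hS
    have hSη : (Fintype.card Q : ℝ) < S * η₀ := by
      have h1 : (Fintype.card Q : ℝ) / η₀ < S := by
        rw [hS]
        push_cast
        have := Nat.le_ceil ((Fintype.card Q : ℝ) / η₀)
        linarith
      rwa [div_lt_iff₀ hη₀0] at h1
    obtain ⟨Ns, hs⟩ := stable L S
    refine ⟨⌈(Ns : ℝ) / κ'⌉₊, ?_⟩
    rintro n s B V z F hB ⟨hd, W, hW, hF⟩ hV
    set y : (Fin n → Bool) → (Fin n → Bool) := fun x => glue (B ∪ V) x z with hy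
    set U₀ := V.filter fun i => (∑ i ∈ V, mu s (B ∪ V) z i) / V.card - κ' ≤ mu s (B ∪ V) z i
      with hU₀
    have hU₀c : Ns ≤ U₀.card := by
      have h1 : (Ns : ℝ) / κ' ≤ V.card := (Nat.le_ceil _).trans (by exact_mod_cast hV)
      rw [div_le_iff₀ hκ'0] at h1
      have h2 := card_threshold V (mu s (B ∪ V) z) (mu_nonneg s _ _) (mu_le s _ _)
        (min_le_left 1 (κ / 4 / (R + 1)))
      have h3 : (Ns : ℝ) ≤ U₀.card := by
        refine le_trans ?_ h2
        rw [← hκ']
        linarith
      exact_mod_cast h3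
    set er : ℕ → ℕ → ℝ := fun lo hi => ∑ x, (rk (W lo hi (y x)) : ℝ) with her
    have her0 : ∀ lo hi, 0 ≤ er lo hi := fun lo hi =>
      Finset.sum_nonneg fun x _ => Nat.cast_nonneg _
    have her1 : ∀ lo hi, er lo hi ≤ 2 ^ n * Fintype.card Q := by
      intro lo hi
      simp only [her]
      refine (Finset.sum_le_sum fun x _ => (Nat.cast_le.2 (rk_le (W lo hi (y x))) :
        (rk (W lo hi (y x)) : ℝ) ≤ Fintype.card Q)).trans ?_
      simp
    have hmono : ∀ lo hi g0 g1 x, lo ≤ g0 → g0 ≤ g1 → g1 ≤ hi →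
        rk (W lo hi x) ≤ rk (W g0 g1 x) := by
      intro lo hi g0 g1 x h1 h2 h3
      rw [hW.mul lo g0 hi x h1 (h2.trans h3), hW.mul g0 g1 hi x h2 h3]
      exact (rk_comp_right _ _).trans (rk_comp_left _ _)
    rcases hs n er (η₀ * 2 ^ n) U₀ 0 n (Nat.zero_le n) (fun p _ => ⟨Nat.zero_le _, p.2⟩) hU₀c
      with ⟨lo, hi, U, hUU₀, -, hlohi, hhin, hUc, hUI, hgap⟩ | ⟨lo, hi, -, -, -, hbig⟩
    swap
    · exfalso
      have h1 := her0 0 n
      have h2 := her1 lo hi
      have h3 : (0 : ℝ) < 2 ^ n := by positivity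
      have h4 : (S : ℝ) * (η₀ * 2 ^ n) ≤ 2 ^ n * Fintype.card Q := by linarith
      have h5 : (2 : ℝ) ^ n * (S * η₀) ≤ 2 ^ n * Fintype.card Q := by linarith
      have := le_of_mul_le_mul_left h5 h3
      linarith
    -- the bad set
    have hUV : U ⊆ V := hUU₀.trans (Finset.filter_subset _ _)
    have hne : U.Nonempty := Finset.card_pos.1 (by omega)
    have hgapb : ∀ g0 g1, Gap U lo hi g0 g1 → lo ≤ g0 ∧ g1 ≤ hi := by
      rintro g0 g1 ⟨h0, h1, -, -⟩
      constructor
      · rcases h0 with h0 | ⟨p, hp, h0⟩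
        · omega
        · have := (hUI p hp).1; omega
      · rcases h1 with h1 | ⟨p, hp, h1⟩
        · omega
        · have := (hUI p hp).2; omega
    set Bad : Finset (Fin n → Bool) := univ.filter fun x =>
      ∃ g0 g1, Gap U lo hi g0 g1 ∧ rk (W g0 g1 (y x)) ≠ rk (W lo hi (y x)) with hBad
    set Pz : Finset (ℕ × ℕ) := (insert lo (U.image fun p : Fin n => (p : ℕ) + 1)) ×ˢ
      (insert hi (U.image fun p : Fin n => (p : ℕ))) with hPz
    have hPzc : (Pz.card : ℝ) ≤ (L + 1) ^ 2 := by
      have h1 : (insert lo (U.image fun p : Fin n => (p : ℕ) + 1)).card ≤ L + 1 := by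
        refine (Finset.card_insert_le _ _).trans ?_
        have := Finset.card_image_le (s := U) (f := fun p : Fin n => (p : ℕ) + 1)
        omega
      have h2 : (insert hi (U.image fun p : Fin n => (p : ℕ))).card ≤ L + 1 := by
        refine (Finset.card_insert_le _ _).trans ?_
        have := Finset.card_image_le (s := U) (f := fun p : Fin n => (p : ℕ))
        omega
      have h3 : Pz.card ≤ (L + 1) * (L + 1) := by
        rw [hPz, Finset.card_product]
        exact Nat.mul_le_mul h1 h2
      have h4 : (Pz.card : ℝ) ≤ ((L + 1) * (L + 1) : ℕ) := by exact_mod_cast h3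
      push_cast at h4
      rw [sq]
      exact h4
    have hBadc : (Bad.card : ℝ) ≤ (L + 1) ^ 2 * (η₀ * 2 ^ n) := by
      have h1 : (Bad.card : ℝ) ≤ ∑ q ∈ Pz.filter (fun q => Gap U lo hi q.1 q.2),
          (er q.1 q.2 - er lo hi) := by
        rw [hBad, Finset.card_filter]
        push_cast
        simp only [her]
        have h2 : ∀ q : ℕ × ℕ, ∑ x, (rk (W q.1 q.2 (y x)) : ℝ) - ∑ x, (rk (W lo hi (y x)) : ℝ) =
            ∑ x, ((rk (W q.1 q.2 (y x)) : ℝ) - rk (W lo hi (y x))) := fun q => by
          rw [Finset.sum_sub_distrib]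
        rw [Finset.sum_congr rfl fun q _ => h2 q, Finset.sum_comm]
        refine Finset.sum_le_sum fun x _ => ?_
        have hnn : ∀ q ∈ Pz.filter (fun q => Gap U lo hi q.1 q.2),
            (0 : ℝ) ≤ (rk (W q.1 q.2 (y x)) : ℝ) - rk (W lo hi (y x)) := by
          intro q hq
          have hG := (Finset.mem_filter.1 hq).2
          have hb := hgapb q.1 q.2 hG
          have := hmono lo hi q.1 q.2 (y x) hb.1 hG.2.2.1 hb.2
          have : (rk (W lo hi (y x)) : ℝ) ≤ rk (W q.1 q.2 (y x)) := by exact_mod_cast this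
          linarith
        split
        · rename_i hx
          obtain ⟨g0, g1, hG, hr⟩ := hx
          have hmem : (g0, g1) ∈ Pz.filter (fun q => Gap U lo hi q.1 q.2) := by
            rw [Finset.mem_filter, hPz, Finset.mem_product]
            refine ⟨⟨?_, ?_⟩, hG⟩
            · rcases hG.1 with h0 | ⟨p, hp, h0⟩
              · simp [h0]
              · rw [mem_insert, mem_image]
                exact Or.inr ⟨p, hp, h0.symm⟩
            · rcases hG.2.1 with h0 | ⟨p, hp, h0⟩
              · simp [h0]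
              · rw [mem_insert, mem_image]
                exact Or.inr ⟨p, hp, h0.symm⟩
          refine le_trans ?_ (Finset.single_le_sum hnn hmem)
          have hb := hgapb g0 g1 hG
          have h3 := hmono lo hi g0 g1 (y x) hb.1 hG.2.2.1 hb.2
          have h4 : rk (W lo hi (y x)) + 1 ≤ rk (W g0 g1 (y x)) := by omega
          have h5 : (rk (W lo hi (y x)) : ℝ) + 1 ≤ rk (W g0 g1 (y x)) := by exact_mod_cast h4
          simp only
          linarith
        · exact Finset.sum_nonneg hnn
      refine h1.trans ?_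
      have h2 : ∀ q ∈ Pz.filter (fun q => Gap U lo hi q.1 q.2),
          er q.1 q.2 - er lo hi ≤ η₀ * 2 ^ n := by
        intro q hq
        have := hgap q.1 q.2 (Finset.mem_filter.1 hq).2
        linarith
      refine (Finset.sum_le_sum h2).trans ?_
      rw [Finset.sum_const, nsmul_eq_mul]
      apply mul_le_mul_of_nonneg_right _ (by positivity)
      refine le_trans ?_ hPzc
      exact_mod_cast Finset.card_filter_le _ _
    set Bad₁ : Finset (Fin n → Bool) := univ.filter fun w =>
      ∃ Y ∈ U.powerset, glue U (fun j => decide (j ∈ Y)) w ∈ Bad with hBad₁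
    have hBad₁c : (Bad₁.card : ℝ) ≤ 4 ^ L * ((L + 1) ^ 2 * (η₀ * 2 ^ n)) := by
      have h1 : (Bad₁.card : ℝ) ≤ ∑ Y ∈ U.powerset, ∑ w : Fin n → Bool,
          (if glue U (fun j => decide (j ∈ Y)) w ∈ Bad then (1 : ℝ) else 0) := by
        rw [hBad₁, Finset.card_filter, Finset.sum_comm]
        push_cast
        refine Finset.sum_le_sum fun w _ => ?_
        split
        · rename_i hx
          obtain ⟨Y, hY, hYB⟩ := hx
          refine le_trans ?_ (Finset.single_le_sum (f := fun Y =>
            (if glue U (fun j => decide (j ∈ Y)) w ∈ Bad then (1 : ℝ) else 0))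
            (fun Y _ => by positivity) hY)
          rw [if_pos hYB]
        · exact Finset.sum_nonneg fun Y _ => by positivity
      refine h1.trans ?_
      have h2 : ∀ Y ∈ U.powerset, ∑ w : Fin n → Bool,
          (if glue U (fun j => decide (j ∈ Y)) w ∈ Bad then (1 : ℝ) else 0) ≤
          2 ^ L * ((L + 1) ^ 2 * (η₀ * 2 ^ n)) := by
        intro Y _
        have h3 := sum_fix_le (fun w : Fin n → Bool => (if w ∈ Bad then (1 : ℝ) else 0))
          (fun w => by positivity) (fun j => decide (j ∈ Y)) U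
        refine h3.trans ?_
        rw [hUc, Finset.sum_boole]
        have h9 : (univ.filter fun w => w ∈ Bad) = Bad := by ext w; simp
        rw [h9]
        exact mul_le_mul_of_nonneg_left hBadc (by positivity)
      refine (Finset.sum_le_sum h2).trans ?_
      rw [Finset.sum_const, Finset.card_powerset, hUc, nsmul_eq_mul]
      push_cast
      have : (4 : ℝ) ^ L = 2 ^ L * 2 ^ L := by rw [← mul_pow]; norm_num
      rw [this]
      apply le_of_eq
      ring
    have hsmall : (Bad₁.card : ℝ) * (a + R + κ / 2) < κ / 2 / 2 * 2 ^ n := by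
      have h1 : (Bad₁.card : ℝ) * (a + R + κ / 2) ≤
          4 ^ L * ((L + 1) ^ 2 * (η₀ * 2 ^ n)) * (a + R + κ / 2) :=
        mul_le_mul_of_nonneg_right hBad₁c (by positivity)
      have h2 : 4 ^ L * ((L + 1) ^ 2 * (η₀ * 2 ^ n)) * (a + R + κ / 2) = C * η₀ * 2 ^ n := by
        rw [hC]; ring
      have h3 : C * η₀ = κ / 8 := by
        rw [hη₀]; field_simp
      rw [h2, h3] at h1
      have h4 : (0 : ℝ) < 2 ^ n := by positivity
      nlinarith
    obtain ⟨w, hw, hpw⟩ := choose_good (s := s) hR z hUV hne hB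
      (fun i hi => (Finset.mem_filter.1 (hUU₀ hi)).2) hRκ Bad₁ hsmall
    set z₁ := glue (B ∪ V) w z with hz₁
    have hstep₁ : Step s R (κ / 2) B V z U z₁ := ⟨hUV, ⟨w, rfl⟩, hpw⟩
    have hUBV : U ⊆ B ∪ V := hUV.trans Finset.subset_union_right
    have hrk : ∀ x g0 g1, Gap U lo hi g0 g1 →
        rk (W g0 g1 (glue U x z₁)) = rk (W lo hi (glue U x z₁)) := by
      intro x g0 g1 hG
      have h1 : glue U x z₁ = y (glue U (fun j => decide (j ∈ ones U x)) w) := by
        rw [hz₁, glue_glue hUBV]
        simp only [hy]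
        congr 1
        funext j
        by_cases hj : j ∈ U
        · rw [glue_mem hj, glue_mem hj]
          cases hxj : x j <;> simp [mem_ones, hj, hxj]
        · rw [glue_notMem hj, glue_notMem hj]
      rw [h1]
      by_contra hne'
      apply hw
      rw [hBad₁, Finset.mem_filter]
      refine ⟨mem_univ _, ones U x, Finset.mem_powerset.2 (ones_subset _ _), ?_⟩
      rw [hBad, Finset.mem_filter]
      exact ⟨mem_univ _, g0, g1, hG, hne'⟩
    obtain ⟨I, Φ, hΦ1, hΦ2, hΦ3, hΦ4⟩ := group_map hW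
      (Finset.disjoint_of_subset_right hUV hd) hne hUI z₁ hrk
    have hcardG : Fintype.card (Equiv.Perm {q // q ∈ I}) ≤ Nat.factorial (Fintype.card Q) := by
      rw [Fintype.card_perm]
      apply Nat.factorial_le
      rw [Fintype.card_coe]
      exact Finset.card_le_univ I
    obtain ⟨V', z', hstep₂, hN', hsym⟩ := hg (Equiv.Perm {q // q ∈ I}) hcardG n s B U z₁ Φ hΦ1
      (Finset.disjoint_of_subset_right hUV hd) hΦ2 hB (by omega)
    refine ⟨V', z', (hstep₁.trans hstep₂).mono (by linarith), hN', ?_⟩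
    intro x x' hxx
    have h1 := hsym x x' hxx
    obtain ⟨hV'U, ⟨w', hw'⟩, -⟩ := hstep₂
    rw [hw', glue_step hΦ1 hV'U, glue_step hΦ1 hV'U, hΦ3, hΦ3] at h1
    have h2 := hΦ4 _ _ h1
    have hFign : IgnM B F := by
      intro u v huv
      rw [hF, hF]
      exact hW.ign 0 n u v huv
    rw [hw', glue_step hFign hV'U, glue_step hFign hV'U, hF, hF,
      hW.mul 0 lo n _ (Nat.zero_le _) (hlohi.trans hhin), hW.mul lo hi n _ hlohi hhin,
      hW.mul 0 lo n (glue U (glue V' x' w') z₁) (Nat.zero_le _) (hlohi.trans hhin),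
      hW.mul lo hi n (glue U (glue V' x' w') z₁) hlohi hhin, h2]
    have a1 : ∀ p ∈ U, ¬ (0 ≤ (p : ℕ) ∧ (p : ℕ) < lo) := by
      intro p hp h
      have := (hUI p hp).1; omega
    have a2 : ∀ p ∈ U, ¬ (hi ≤ (p : ℕ) ∧ (p : ℕ) < n) := by
      intro p hp h
      have := (hUI p hp).2; omega
    rw [hW.avoid a1, hW.avoid a2, hW.avoid a1, hW.avoid a2]

end Pool.Agent.H.MP_4093f8_co.Ord
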