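import Pool.Agent.H.MP_4093f8_co.OrdM

/-!
# Ordered counting in the cube, part N

Maps of small total influence.
-/

open Finset Filter Topology

namespace Pool.Agent.H.MP_4093f8_co.Ord

section

variable {n : ℕ} {X : Type}

open Classical in
/-- The number of `x` at which `F`, restricted to the subcube `V × z`, is sensitive in
direction `i`. -/
noncomputable def sens (F : (Fin n → Bool) → X) (V : Finset (Fin n)) (z : Fin n → Bool)
    (i : Fin n) : ℝ :=
  ∑ x : Fin n → Bool, if F (glue V x z) ≠ F (glue V (fl x i) z) then 1 else 0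

lemma sens_nonneg (F : (Fin n → Bool) → X) (V : Finset (Fin n)) (z : Fin n → Bool)
    (i : Fin n) : 0 ≤ sens F V z i :=
  Finset.sum_nonneg fun _ _ => by positivity

/-- If no point of the subcube `U × z` is sensitive in a direction of `U`, then `F` is constant
on it. -/
lemma const_of_not_sens (F : (Fin n → Bool) → X) (U : Finset (Fin n)) (z : Fin n → Bool)
    (h : ∀ Y ⊆ U, ∀ i ∈ U, F (glue U (fun j => decide (j ∈ Y)) z) =
      F (glue U (fl (fun j => decide (j ∈ Y)) i) z)) (x : Fin n → Bool) :
    F (glue U x z) = F (glue U (fun _ => false) z) := by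
  have key : ∀ Y : Finset (Fin n), Y ⊆ U →
      F (glue U (fun j => decide (j ∈ Y)) z) = F (glue U (fun _ => false) z) := by
    intro Y
    induction Y using Finset.induction_on with
    | empty => intro _; simp
    | insert i Y hi ih =>
      intro hY
      have hiU := hY (Finset.mem_insert_self i Y)
      have hYU := (Finset.subset_insert i Y).trans hY
      rw [← ih hYU, h Y hYU i hiU]
      congr 1
      congr 1
      funext j
      by_cases hj : j = i
      · subst hj
        rw [fl_self]; simp [hi]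
      · rw [fl_ne _ hj]; simp [hj]
  rw [← key (ones U x) (ones_subset _ _)]
  congr 1
  funext j
  by_cases hj : j ∈ U
  · rw [glue_mem hj, glue_mem hj]
    cases hxj : x j <;> simp [mem_ones, hj, hxj]
  · rw [glue_notMem hj, glue_notMem hj]

end

/-- The class of the maps whose total influence on each subcube is bounded by `φ` of the
dimension. -/
def lowM (X : Type) (φ : ℕ → ℝ) : MClass X := fun n B V _ F =>
  IgnM B F ∧ ∀ V' ⊆ V, ∀ z', ∑ i ∈ V', sens F V' z' i ≤ φ V'.card * 2 ^ n

lemma lowM_good (X : Type) {φ : ℕ → ℝ} (hφ : Tendsto (fun N : ℕ => φ N / N) atTop (𝓝 0)) :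
    GoodM (lowM X φ) where
  ign := fun h => h.1
  her := fun h hs => ⟨h.1, fun V' hV' => h.2 V' (hV'.trans hs.1)⟩
  att := by
    classical
    intro R hR a N κ hκ
    set κ' : ℝ := min 1 (κ / 2 / (R + 1)) with hκ'
    have hκ'0 : 0 < κ' := lt_min one_pos (by positivity)
    have hRκ : R * κ' ≤ κ / 2 := by
      have h1 : κ' ≤ κ / 2 / (R + 1) := min_le_right _ _
      calc R * κ' ≤ (R + 1) * (κ / 2 / (R + 1)) := by
            apply mul_le_mul (by linarith) h1 hκ'0.le (by linarith)
        _ = κ / 2 := by field_simp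
    set M : ℕ := N + 1 with hM
    -- the admissible influence
    set δ : ℝ := κ / 4 / (4 ^ M * M * (a + R + κ)) with hδ
    have hδ0 : 0 < δ := by
      rw [hδ]; positivity
    have hev : ∀ᶠ K : ℕ in atTop, φ K / K < δ * κ' / 2 :=
      hφ.eventually (gt_mem_nhds (by positivity))
    obtain ⟨N₁, hN₁⟩ := eventually_atTop.1 hev
    refine ⟨max (N₁ + 1) (⌈2 * (M : ℝ) / κ'⌉₊ + 1), ?_⟩
    rintro n s B V z F hB ⟨hign, hF⟩ hV
    have hVpos : 0 < V.card := by
      have := le_max_left (N₁ + 1) (⌈2 * (M : ℝ) / κ'⌉₊ + 1)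
      omega
    have hVpos' : (0 : ℝ) < V.card := by exact_mod_cast hVpos
    have hφV : φ V.card < δ * κ' / 2 * V.card := by
      have h1 := hN₁ V.card (by
        have := le_max_left (N₁ + 1) (⌈2 * (M : ℝ) / κ'⌉₊ + 1)
        omega)
      rwa [div_lt_iff₀ hVpos'] at h1
    set U₀ := V.filter fun i => (∑ i ∈ V, mu s (B ∪ V) z i) / V.card - κ' ≤ mu s (B ∪ V) z i
      with hU₀
    have hU₀c : κ' * V.card ≤ (U₀.card : ℝ) := by
      have h2 := card_threshold V (mu s (B ∪ V) z) (mu_nonneg s _ _) (mu_le s _ _)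
        (min_le_left 1 (κ / 2 / (R + 1)))
      rw [← hκ'] at h2
      exact h2
    -- the directions with small influence
    set z₀ := z with hz₀
    set U₁ := U₀.filter fun i => sens F V z i ≤ δ * 2 ^ n with hU₁
    have hU₁c : (M : ℝ) ≤ U₁.card := by
      have h1 : ((U₀.filter fun i => ¬ sens F V z i ≤ δ * 2 ^ n).card : ℝ) * (δ * 2 ^ n) ≤
          ∑ i ∈ V, sens F V z i := by
        rw [← nsmul_eq_mul, ← Finset.sum_const]
        refine (Finset.sum_le_sum (fun i hi => (not_le.1 (Finset.mem_filter.1 hi).2).le)).trans ?_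
        exact Finset.sum_le_sum_of_subset_of_nonneg
          ((Finset.filter_subset _ _).trans (Finset.filter_subset _ _))
          (fun i _ _ => sens_nonneg F V z i)
      have h2 := hF V Finset.Subset.rfl z
      have h3 : (0 : ℝ) < 2 ^ n := by positivity
      have h4 : ((U₀.filter fun i => ¬ sens F V z i ≤ δ * 2 ^ n).card : ℝ) * (δ * 2 ^ n) ≤
          (κ' * V.card / 2) * (δ * 2 ^ n) := by
        calc _ ≤ φ V.card * 2 ^ n := h1.trans h2
          _ ≤ (δ * κ' / 2 * V.card) * 2 ^ n := mul_le_mul_of_nonneg_right hφV.le h3.le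
          _ = _ := by ring
      have h5 := le_of_mul_le_mul_right h4 (by positivity)
      have h6' := Finset.card_filter_add_card_filter_not (s := U₀)
          (fun i => sens F V z i ≤ δ * 2 ^ n)
      have h6 : (U₁.card : ℝ) + ((U₀.filter fun i => ¬ sens F V z i ≤ δ * 2 ^ n).card : ℝ) =
          U₀.card := by
        rw [hU₁, ← Nat.cast_add, h6']
      have h7 : 2 * (M : ℝ) ≤ κ' * V.card := by
        have h8 : 2 * (M : ℝ) / κ' ≤ V.card := by
          have h9 : ⌈2 * (M : ℝ) / κ'⌉₊ ≤ V.card := by
            have := le_max_right (N₁ + 1) (⌈2 * (M : ℝ) / κ'⌉₊ + 1)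
            omega
          exact (Nat.le_ceil _).trans (by exact_mod_cast h9)
        rw [div_le_iff₀ hκ'0] at h8
        linarith
      linarith
    have hU₁c' : M ≤ U₁.card := by exact_mod_cast hU₁c
    obtain ⟨U, hUU₁, hUc⟩ := Finset.exists_subset_card_eq hU₁c'
    have hUU₀ : U ⊆ U₀ := hUU₁.trans (Finset.filter_subset _ _)
    have hUV : U ⊆ V := hUU₀.trans (Finset.filter_subset _ _)
    have hne : U.Nonempty := Finset.card_pos.1 (by omega)
    set y : (Fin n → Bool) → (Fin n → Bool) := fun x => glue (B ∪ V) x z with hy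
    -- the bad set
    set Bad : Finset (Fin n → Bool) := univ.filter fun w =>
      ∃ Y ∈ U.powerset, ∃ i ∈ U,
        F (glue V (glue U (fun j => decide (j ∈ Y)) w) z) ≠
          F (glue V (fl (glue U (fun j => decide (j ∈ Y)) w) i) z) with hBad
    have hBadc : (Bad.card : ℝ) ≤ 2 ^ M * (M * (2 ^ M * (δ * 2 ^ n))) := by
      have h1 : (Bad.card : ℝ) ≤ ∑ Y ∈ U.powerset, ∑ i ∈ U, ∑ w : Fin n → Bool,
          (if F (glue V (glue U (fun j => decide (j ∈ Y)) w) z) ≠
          F (glue V (fl (glue U (fun j => decide (j ∈ Y)) w) i) z) then (1 : ℝ) else 0) := by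
        have h0 : ∑ Y ∈ U.powerset, ∑ i ∈ U, ∑ w : Fin n → Bool,
          (if F (glue V (glue U (fun j => decide (j ∈ Y)) w) z) ≠
          F (glue V (fl (glue U (fun j => decide (j ∈ Y)) w) i) z) then (1 : ℝ) else 0) =
          ∑ w : Fin n → Bool, ∑ Y ∈ U.powerset, ∑ i ∈ U,
          (if F (glue V (glue U (fun j => decide (j ∈ Y)) w) z) ≠
          F (glue V (fl (glue U (fun j => decide (j ∈ Y)) w) i) z) then (1 : ℝ) else 0) := by
          rw [Finset.sum_congr rfl fun Y _ => Finset.sum_comm, Finset.sum_comm]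
        rw [h0, hBad, Finset.card_filter]
        push_cast
        refine Finset.sum_le_sum fun w _ => ?_
        split
        · rename_i hx
          obtain ⟨Y, hY, i, hi, hYi⟩ := hx
          refine le_trans ?_ (Finset.single_le_sum (f := fun Y => ∑ i ∈ U,
            (if F (glue V (glue U (fun j => decide (j ∈ Y)) w) z) ≠
            F (glue V (fl (glue U (fun j => decide (j ∈ Y)) w) i) z) then (1 : ℝ) else 0))
            (fun Y _ => Finset.sum_nonneg fun i _ => by positivity) hY)
          refine le_trans ?_ (Finset.single_le_sum (f := fun i =>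
            (if F (glue V (glue U (fun j => decide (j ∈ Y)) w) z) ≠
            F (glue V (fl (glue U (fun j => decide (j ∈ Y)) w) i) z) then (1 : ℝ) else 0))
            (fun i _ => by positivity) hi)
          rw [if_pos hYi]
        · exact Finset.sum_nonneg fun Y _ => Finset.sum_nonneg fun i _ => by positivity
      refine h1.trans ?_
      have h2 : ∀ Y ∈ U.powerset, ∑ i ∈ U, ∑ w : Fin n → Bool,
          (if F (glue V (glue U (fun j => decide (j ∈ Y)) w) z) ≠
          F (glue V (fl (glue U (fun j => decide (j ∈ Y)) w) i) z) then (1 : ℝ) else 0) ≤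
          M * (2 ^ M * (δ * 2 ^ n)) := by
        intro Y _
        have h3 : ∀ i ∈ U, ∑ w : Fin n → Bool,
          (if F (glue V (glue U (fun j => decide (j ∈ Y)) w) z) ≠
          F (glue V (fl (glue U (fun j => decide (j ∈ Y)) w) i) z) then (1 : ℝ) else 0) ≤
          2 ^ M * (δ * 2 ^ n) := by
          intro i hi
          have h4 := sum_fix_le (fun w : Fin n → Bool =>
            (if F (glue V w z) ≠ F (glue V (fl w i) z) then (1 : ℝ) else 0))
            (fun w => by positivity) (fun j => decide (j ∈ Y)) U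
          refine h4.trans ?_
          rw [hUc]
          exact mul_le_mul_of_nonneg_left (Finset.mem_filter.1 (hUU₁ hi)).2 (by positivity)
        refine (Finset.sum_le_sum h3).trans ?_
        rw [Finset.sum_const, hUc, nsmul_eq_mul]
      refine (Finset.sum_le_sum h2).trans ?_
      rw [Finset.sum_const, Finset.card_powerset, hUc, nsmul_eq_mul]
      push_cast
      exact le_rfl
    have hsmall : (Bad.card : ℝ) * (a + R + κ) < κ / 2 * 2 ^ n := by
      have h1 : (Bad.card : ℝ) * (a + R + κ) ≤
          2 ^ M * (M * (2 ^ M * (δ * 2 ^ n))) * (a + R + κ) :=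
        mul_le_mul_of_nonneg_right hBadc (by positivity)
      have h4 : (4 : ℝ) ^ M = 2 ^ M * 2 ^ M := by rw [← mul_pow]; norm_num
      have h2 : 2 ^ M * (M * (2 ^ M * (δ * 2 ^ n))) * (a + R + κ) =
          (4 ^ M * M * (a + R + κ)) * δ * 2 ^ n := by
        rw [h4]; ring
      have hM0 : (0 : ℝ) < M := by rw [hM]; positivity
      have h3 : (4 ^ M * M * (a + R + κ)) * δ = κ / 4 := by
        have : (4 ^ M * M * (a + R + κ) : ℝ) ≠ 0 := by positivity
        rw [hδ]; field_simp
      rw [h2, h3] at h1
      have h5 : (0 : ℝ) < 2 ^ n := by positivity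
      nlinarith
    obtain ⟨w, hw, hpw⟩ := choose_good (s := s) hR z hUV hne hB
      (fun i hi => (Finset.mem_filter.1 (hUU₀ hi)).2) hRκ Bad hsmall
    refine ⟨U, glue (B ∪ V) w z, ⟨hUV, ⟨w, rfl⟩, hpw⟩, by omega, ?_⟩
    have key : ∀ x : Fin n → Bool, F (glue U x (glue (B ∪ V) w z)) =
        F (glue U (fun _ => false) (glue (B ∪ V) w z)) := by
      apply const_of_not_sens
      intro Y hY i hi
      rw [glue_step hign hUV, glue_step hign hUV, glue_fl hi]
      by_contra hne'
      apply hw
      rw [hBad, Finset.mem_filter]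
      exact ⟨mem_univ _, Y, Finset.mem_powerset.2 hY, i, hi, hne'⟩
    intro x x' _
    rw [key x, key x']

end Pool.Agent.H.MP_4093f8_co.Ord
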