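import Pool.Agent.H.MP_4093f8_co.OrdN

/-!
# Ordered counting in the cube, part N2

Permutations of the coordinates.
-/

open Finset

namespace Pool.Agent.H.MP_4093f8_co.Ord

section

variable {n : ℕ} (σ : Equiv.Perm (Fin n))

/-- The preimage of a set of coordinates. -/
def pull (V : Finset (Fin n)) : Finset (Fin n) := V.map σ.symm.toEmbedding

lemma mem_pull {V : Finset (Fin n)} {i : Fin n} : i ∈ pull σ V ↔ σ i ∈ V := by
  unfold pull
  rw [Finset.mem_map_equiv]
  simp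

lemma card_pull (V : Finset (Fin n)) : (pull σ V).card = V.card := Finset.card_map _

lemma sum_pull {M : Type*} [AddCommMonoid M] (V : Finset (Fin n)) (f : Fin n → M) :
    ∑ i ∈ pull σ V, f (σ i) = ∑ i ∈ V, f i := by
  unfold pull
  rw [Finset.sum_map]
  simp

lemma pull_union (A B : Finset (Fin n)) : pull σ (A ∪ B) = pull σ A ∪ pull σ B := by
  ext i; simp [mem_pull]

lemma pull_map (V : Finset (Fin n)) : pull σ (V.map σ.toEmbedding) = V := by
  ext i
  rw [mem_pull, Finset.mem_map_equiv]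
  simp

lemma pull_subset {A B : Finset (Fin n)} (h : A ⊆ B) : pull σ A ⊆ pull σ B := fun i hi =>
  (mem_pull σ).2 (h ((mem_pull σ).1 hi))

lemma glue_pull (V : Finset (Fin n)) (x z : Fin n → Bool) :
    glue (pull σ V) (x ∘ σ) (z ∘ σ) = glue V x z ∘ σ := by
  funext j
  simp only [glue, mem_pull, Function.comp]

/-- Composition with `σ`. -/
def compEquiv : (Fin n → Bool) ≃ (Fin n → Bool) where
  toFun x := x ∘ σ
  invFun x := x ∘ σ.symm
  left_inv x := by funext j; simp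
  right_inv x := by funext j; simp

lemma cnt_pull (V : Finset (Fin n)) (x : Fin n → Bool) : cnt (pull σ V) (x ∘ σ) = cnt V x := by
  unfold cnt
  rw [← card_pull σ (V.filter fun j => x j = true)]
  congr 1
  ext j
  simp [mem_pull]

variable (s : Wt n)

lemma mu_pull (V : Finset (Fin n)) (z : Fin n → Bool) (i : Fin n) :
    mu (fun i x => s (σ i) (x ∘ σ.symm)) (pull σ V) (z ∘ σ) i = mu s V z (σ i) := by
  unfold mu
  congr 1
  rw [← Equiv.sum_comp (compEquiv σ)]
  refine Finset.sum_congr rfl fun x _ => ?_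
  have e : ((compEquiv σ) x) = x ∘ σ := rfl
  have e2 : (glue V x z ∘ σ) ∘ σ.symm = glue V x z := by funext j; simp
  have e3 : tt (fun i x => s (σ i) (x ∘ σ.symm)) i (glue V x z ∘ σ) =
      tt s (σ i) ((glue V x z ∘ σ) ∘ σ.symm) := rfl
  rw [e, glue_pull, e3, e2]

lemma pot_pull (R : ℝ) (B V : Finset (Fin n)) (z : Fin n → Bool) :
    pot (fun i x => s (σ i) (x ∘ σ.symm)) R (pull σ B) (pull σ V) (z ∘ σ) = pot s R B V z := by
  unfold pot
  rw [← pull_union, card_pull]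
  simp only [mu_pull]
  rw [sum_pull σ B (fun i => mu s (B ∪ V) z i), sum_pull σ V (fun i => mu s (B ∪ V) z i)]

variable {s}

lemma Step.pull {R κ : ℝ} {B V V' : Finset (Fin n)} {z z' : Fin n → Bool}
    (h : Step s R κ B V z V' z') :
    Step (fun i x => s (σ i) (x ∘ σ.symm)) R κ (pull σ B) (pull σ V) (z ∘ σ) (pull σ V')
      (z' ∘ σ) := by
  obtain ⟨h1, ⟨w, hw⟩, h2⟩ := h
  refine ⟨pull_subset σ h1, ⟨w ∘ σ, ?_⟩, ?_⟩
  · rw [← pull_union, glue_pull, ← hw]
  · rw [pot_pull, pot_pull]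
    exact h2

lemma Step.unpull {R κ : ℝ} {B V V₁ : Finset (Fin n)} {z z₁ : Fin n → Bool}
    (h : Step (fun i x => s (σ i) (x ∘ σ.symm)) R κ (Ord.pull σ B) (Ord.pull σ V) (z ∘ σ)
      V₁ z₁) : Step s R κ B V z (V₁.map σ.toEmbedding) (z₁ ∘ σ.symm) := by
  have e1 := pull_map σ V₁
  have e2 : (z₁ ∘ σ.symm) ∘ σ = z₁ := by funext j; simp
  obtain ⟨h1, ⟨w, hw⟩, h2⟩ := h
  refine ⟨?_, ⟨w ∘ σ.symm, ?_⟩, ?_⟩
  · intro i hi
    rw [Finset.mem_map_equiv] at hi
    have := (mem_pull σ).1 (h1 hi)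
    simpa using this
  · have e3 : (w ∘ σ.symm) ∘ σ = w := by funext j; simp
    have e4 := glue_pull σ (B ∪ V) (w ∘ σ.symm) z
    rw [e3, pull_union, ← hw] at e4
    rw [e4]
    funext j; simp
  · rw [pot_pull, ← e1, ← e2, pot_pull] at h2
    exact h2

end

/-- The class of the maps that belong to `M` after a permutation of the coordinates. -/
def permM {X : Type} (M : MClass X) : MClass X := fun n B V z F =>
  ∃ σ : Equiv.Perm (Fin n), M n (pull σ B) (pull σ V) (z ∘ σ) (fun x => F (x ∘ σ.symm))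

lemma GoodM.perm {X : Type} {M : MClass X} (h : GoodM M) : GoodM (permM M) where
  ign := by
    rintro n B V z F ⟨σ, hσ⟩ x y hxy
    have h1 := h.ign hσ (x ∘ σ) (y ∘ σ) (fun j hj => hxy _ (fun hB => hj ((mem_pull σ).2 hB)))
    have e : ∀ x : Fin n → Bool, (x ∘ σ) ∘ σ.symm = x := fun x => by funext j; simp
    simp only [e] at h1
    exact h1
  her := by
    rintro n s R κ B V V' z z' F ⟨σ, hσ⟩ hs
    exact ⟨σ, h.her hσ (hs.pull σ)⟩
  att := by
    intro R hR a N κ hκ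
    obtain ⟨N₀, hN₀⟩ := h.att hR a N hκ
    refine ⟨N₀, ?_⟩
    rintro n s B V z F hB ⟨σ, hσ⟩ hV
    obtain ⟨V₁, z₁, hs, hN, hsym⟩ := hN₀ n (fun i x => s (σ i) (x ∘ σ.symm)) (pull σ B)
      (pull σ V) (z ∘ σ) (fun x => F (x ∘ σ.symm)) (by rwa [card_pull]) hσ (by rwa [card_pull])
    refine ⟨V₁.map σ.toEmbedding, z₁ ∘ σ.symm, hs.unpull σ, by rwa [Finset.card_map], ?_⟩
    intro x y hxy
    have e1 : ∀ x : Fin n → Bool, glue (V₁.map σ.toEmbedding) x (z₁ ∘ σ.symm) =
        glue V₁ (x ∘ σ) z₁ ∘ σ.symm := by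
      intro x
      have e2 := glue_pull σ (V₁.map σ.toEmbedding) x (z₁ ∘ σ.symm)
      have e3 : (z₁ ∘ σ.symm) ∘ σ = z₁ := by funext j; simp
      rw [pull_map, e3] at e2
      rw [e2]
      funext j; simp
    rw [e1, e1]
    apply hsym (x ∘ σ) (y ∘ σ)
    rw [← cnt_pull σ (V₁.map σ.toEmbedding) x, ← cnt_pull σ (V₁.map σ.toEmbedding) y,
      pull_map] at hxy
    exact hxy

end Pool.Agent.H.MP_4093f8_co.Ord
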