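import Pool.Agent.H.MP_4093f8_co.OrdN2

/-!
# Ordered counting in the cube, part O

The bound for the directions of one block, and the four classes of maps together.
-/

open Finset Filter Topology

namespace Pool.Agent.H.MP_4093f8_co.Ord

section

variable {n : ℕ}

open Classical in
/-- The indicator of the edges that are present, as a weight. -/
noncomputable def ind (s : Fin n → (Fin n → Bool) → Prop) : Wt n := fun i x =>
  if s i x then 1 else 0

open Classical in
lemma tt_ind (s : Fin n → (Fin n → Bool) → Prop) (i : Fin n) (x : Fin n → Bool) :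
    tt (ind s) i x = if s i x then 1 else 0 := by
  unfold tt ind
  split <;> simp

/-- The edges at which `s` and `g` differ. -/
def err (s g : Fin n → (Fin n → Bool) → Prop) (i : Fin n) (x : Fin n → Bool) : Prop :=
  ¬ (s i x ↔ g i x)

/-- The bound for one-sided symmetric subcubes. -/
lemma core_subcube {ρ : Fin n → ℕ} (hρ : Function.Injective ρ)
    {s : Fin n → (Fin n → Bool) → Prop}
    (hself : ∀ i x y, (∀ j, j ≠ i → x j = y j) → (s i x ↔ s i y)) {B : Finset (Fin n)}
    (hC : Free s B) {z : Fin n → Bool} (hI : Inv ρ s B ∅ z) (hne : B.Nonempty) :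
    ∑ b ∈ B, mu (ind s) B z b ≤ (B.card : ℝ) / 2 + 12 * (B.card : ℝ) ^ (8 / 9 : ℝ) := by
  classical
  set s' : Fin n → (Fin n → Bool) → Prop := fun i x => s i (glue B x z) with hs'
  have hS : Sym s' ρ B := by
    intro m hm x y hxy hc
    have h1 := hI m hm x y (fun j hj hjm => hxy j (Or.inl hjm))
    rw [Finset.union_empty] at h1
    exact h1 hc
  have hC' : Free s' B := by
    intro i hi j hj hij x h
    simp only [hs'] at h
    rw [glue_fl hj, glue_fl hi] at h
    exact hC i hi j hj hij (glue B x z) h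
  have h2 := block' hρ hS hC' hne
  have h3 : ∀ m ∈ B, e s' m = 2 ^ n / 2 * mu (ind s) B z m := by
    intro m hm
    unfold e mu
    have h4 := sum_half (fun x => tt (ind s) m (glue B x z)) m (fun x => by
      rw [glue_fl hm, tt_ind, tt_ind]
      have h5 : s m (fl (glue B x z) m) ↔ s m (glue B x z) :=
        hself m _ _ (fun j hj => fl_ne _ hj)
      simp only [h5])
    have h6 : ∑ x : Fin n → Bool, (if x m = false ∧ s' m x then (1 : ℝ) else 0) =
        ∑ x : Fin n → Bool, (if x m = false then tt (ind s) m (glue B x z) else 0) := by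
      refine Finset.sum_congr rfl fun x _ => ?_
      rw [tt_ind]
      by_cases hx : x m = false
      · simp only [hx, true_and, hs', if_true]
      · simp [hx]
    rw [h6, h4]
    field_simp
  rw [Finset.sum_congr rfl h3, ← Finset.mul_sum] at h2
  exact le_of_mul_le_mul_left h2 (by positivity)

/-- A present edge in a subcube of small dimension has a positive weight. -/
lemma mu_ind_ge (s : Fin n → (Fin n → Bool) → Prop) (B : Finset (Fin n)) (z x₀ : Fin n → Bool)
    (b : Fin n) (h : s b (glue B x₀ z)) : 1 / 2 ^ B.card ≤ mu (ind s) B z b := by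
  have h1 := sum_fix_le (fun w => tt (ind s) b (glue B w z)) (fun w => tt_nonneg _ _ _) x₀ B
  have h2 : ∀ w, tt (ind s) b (glue B (glue B x₀ w) z) = 1 := by
    intro w
    have e : glue B (glue B x₀ w) z = glue B x₀ z := by
      funext j
      by_cases hj : j ∈ B
      · rw [glue_mem hj, glue_mem hj, glue_mem hj]
      · rw [glue_notMem hj, glue_notMem hj]
    rw [e, tt_ind, if_pos h]
  rw [Finset.sum_congr rfl fun w _ => h2 w] at h1
  simp only [Finset.sum_const, nsmul_eq_mul, mul_one, Finset.card_univ, Fintype.card_pi,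
    Fintype.card_bool, Finset.prod_const, Fintype.card_fin] at h1
  push_cast at h1
  unfold mu
  rw [div_le_div_iff₀ (by positivity) (by positivity), one_mul, mul_comm]
  exact h1

end

/-- The bound for the directions of one block; `g` is tame, `s` is free of full faces. -/
lemma block_bound {ε : ℝ} (hε : 0 < ε) :
    ∃ K : ℝ, 0 ≤ K ∧ ∀ P : PClass, Good P → ∃ L : ℕ, ∀ (n : ℕ) (C : Finset (Fin n))
    (ρ : Fin n → ℕ) (g s : Fin n → (Fin n → Bool) → Prop), Function.Injective ρ →
    TameS P C ρ g → (∀ i x y, (∀ j, j ≠ i → x j = y j) → (g i x ↔ g i y)) →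
    (∀ i x y, (∀ j, j ≠ i → x j = y j) → (s i x ↔ s i y)) → Free s C → L ≤ C.card →
    ∑ i ∈ C, ∑ x, tt (ind s) i x ≤ (1 / 2 + ε) * C.card * 2 ^ n +
      K * ∑ i ∈ C, ∑ x, tt (ind (err s g)) i x := by
  -- the dimension of the good subcube
  set R : ℕ := ⌈(24 / ε) ^ (9 : ℕ)⌉₊ + 1 with hR
  have hR0 : 0 < R := Nat.succ_pos _
  have hR0' : (0 : ℝ) < R := by exact_mod_cast hR0
  have hRε : 12 * (R : ℝ) ^ (8 / 9 : ℝ) ≤ ε / 2 * R := by
    set r : ℝ := (R : ℝ) ^ (1 / 9 : ℝ) with hr
    have hr0 : 0 < r := Real.rpow_pos_of_pos hR0' _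
    have hr9 : r ^ 9 = R := by
      rw [hr, ← Real.rpow_natCast, ← Real.rpow_mul hR0'.le]
      norm_num
    have hr8 : (R : ℝ) ^ (8 / 9 : ℝ) = r ^ 8 := by
      rw [hr, ← Real.rpow_natCast, ← Real.rpow_mul hR0'.le]
      norm_num
    have h1 : (24 / ε) ^ (9 : ℕ) ≤ r ^ 9 := by
      rw [hr9, hR]
      push_cast
      have := Nat.le_ceil ((24 / ε) ^ (9 : ℕ))
      linarith
    have h2 : 24 / ε ≤ r := le_of_pow_le_pow_left₀ (by norm_num) hr0.le h1
    rw [div_le_iff₀ hε] at h2
    rw [hr8, ← hr9]
    have h3 : r ^ 9 = r ^ 8 * r := by ring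
    rw [h3]
    have h4 : 0 < r ^ 8 := by positivity
    nlinarith
  set K : ℝ := R * 2 ^ R with hK
  have hK0 : 0 < K := by positivity
  refine ⟨K, hK0.le, fun P hP => ?_⟩
  have hκ : 0 < ε / 2 * R / (K + 1) := by positivity
  obtain ⟨N, hN⟩ := main_choice hP R 0 hκ
  refine ⟨N + 1, fun n C ρ g s hρ hT hselfg hself hF hC => ?_⟩
  have hCpos : (0 : ℝ) < C.card := by
    have : 0 < C.card := by omega
    exact_mod_cast this
  -- the weights
  set E : Wt n := ind (err s g) with hE
  have htt : ∀ i x, 0 ≤ (tt (ind s) i x + K * (1 - tt E i x)) / (K + 1) ∧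
      (tt (ind s) i x + K * (1 - tt E i x)) / (K + 1) ≤ 1 := by
    intro i x
    have a1 := tt_nonneg (ind s) i x
    have a2 := tt_le (ind s) i x
    have a3 := tt_nonneg E i x
    have a4 := tt_le E i x
    constructor
    · have : 0 ≤ 1 - tt E i x := by linarith
      positivity
    · rw [div_le_one (by linarith)]
      nlinarith
  set t : Wt n := fun i x => ⟨(tt (ind s) i x + K * (1 - tt E i x)) / (K + 1), htt i x⟩ with ht
  have hmu : ∀ V z i, (K + 1) * mu t V z i = mu (ind s) V z i + K * (1 - mu E V z i) := by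
    intro V z i
    have e1 : ∀ x, tt t i x = (tt (ind s) i x + K * (1 - tt E i x)) / (K + 1) := fun x => rfl
    have e2 : ∑ x : Fin n → Bool, (1 : ℝ) = 2 ^ n := by simp
    unfold mu
    rw [Finset.sum_congr rfl fun x _ => e1 (glue V x z), ← Finset.sum_div,
      Finset.sum_add_distrib, ← Finset.mul_sum, Finset.sum_sub_distrib, e2]
    have h3 : (0 : ℝ) < 2 ^ n := by positivity
    field_simp
  have h1 : ∀ z, ∑ i ∈ C, mu (ind s) C z i ≤
      (1 / 2 + ε) * C.card + K * ∑ i ∈ C, mu E C z i := by
    intro z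
    obtain ⟨B', z', hB'C, hB'c, hI', hp⟩ := hN n C ρ t g hρ hT hselfg ∅ C z
      (Finset.empty_subset _) Finset.Subset.rfl rfl (by simp) (by intro m hm; simp at hm)
      (by omega)
    rw [zero_add] at hB'c
    have hne : B'.Nonempty := Finset.card_pos.1 (by omega)
    unfold pot at hp
    simp only [Finset.sum_empty, Finset.empty_union, zero_add] at hp
    have hp2 := mul_le_mul_of_nonneg_left hp (by positivity : (0 : ℝ) ≤ K + 1)
    rw [mul_sub, Finset.mul_sum] at hp2
    have e1 : (K + 1) * (ε / 2 * R / (K + 1)) = ε / 2 * R := by field_simp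
    have e2 : (K + 1) * ((R : ℝ) * ((∑ i ∈ C, mu t C z i) / C.card)) =
        R * ((∑ i ∈ C, mu (ind s) C z i + K * (C.card - ∑ i ∈ C, mu E C z i)) / C.card) := by
      have e3 : (K + 1) * ∑ i ∈ C, mu t C z i =
          ∑ i ∈ C, mu (ind s) C z i + K * (C.card - ∑ i ∈ C, mu E C z i) := by
        rw [Finset.mul_sum, Finset.sum_congr rfl fun i _ => hmu C z i, Finset.sum_add_distrib,
          ← Finset.mul_sum, Finset.sum_sub_distrib]
        simp
      rw [← e3]; ring
    have e4 : ∑ b ∈ B', (K + 1) * mu t B' z' b =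
        ∑ b ∈ B', mu (ind s) B' z' b + K * (R - ∑ b ∈ B', mu E B' z' b) := by
      rw [Finset.sum_congr rfl fun i _ => hmu B' z' i, Finset.sum_add_distrib,
        ← Finset.mul_sum, Finset.sum_sub_distrib]
      simp [hB'c]
    rw [e1, e2, e4] at hp2
    -- the bound in the final subcube
    have hfin : ∑ b ∈ B', mu (ind s) B' z' b - K * ∑ b ∈ B', mu E B' z' b ≤
        (R : ℝ) / 2 + 12 * (R : ℝ) ^ (8 / 9 : ℝ) := by
      by_cases hbad : ∃ b ∈ B', ∃ x, err s g b (glue B' x z')
      · obtain ⟨b, hb, x, hx⟩ := hbad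
        have a1 := mu_ind_ge (err s g) B' z' x b hx
        rw [hB'c] at a1
        have a2 : mu E B' z' b ≤ ∑ b ∈ B', mu E B' z' b :=
          Finset.single_le_sum (f := fun b => mu E B' z' b) (fun b _ => mu_nonneg E _ _ _) hb
        have a3 : ∑ b ∈ B', mu (ind s) B' z' b ≤ R := by
          refine (Finset.sum_le_sum fun b _ => mu_le (ind s) B' z' b).trans ?_
          simp [hB'c]
        have a4 : (R : ℝ) ≤ K * ∑ b ∈ B', mu E B' z' b := by
          have a5 : K * (1 / 2 ^ R) ≤ K * ∑ b ∈ B', mu E B' z' b :=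
            mul_le_mul_of_nonneg_left (a1.trans a2) hK0.le
          have a6 : K * (1 / 2 ^ R) = R := by rw [hK]; field_simp
          linarith
        have a7 : 0 ≤ (R : ℝ) ^ (8 / 9 : ℝ) := by positivity
        linarith
      · push Not at hbad
        have hI'' : Inv ρ s B' ∅ z' := by
          intro m hm x y hxy hc
          have b1 := hbad m hm x
          have b2 := hbad m hm y
          unfold err at b1 b2
          push Not at b1 b2
          have b3 := hI' m hm x y hxy hc
          rw [Finset.union_empty] at b3 ⊢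
          rw [b1, b2]
          exact b3
        have hF' : Free s B' := fun i hi j hj hij x => hF i (hB'C hi) j (hB'C hj) hij x
        have h2 := core_subcube hρ hself hF' hI'' hne
        rw [hB'c] at h2
        have a1 : 0 ≤ K * ∑ b ∈ B', mu E B' z' b :=
          mul_nonneg hK0.le (Finset.sum_nonneg fun b _ => mu_nonneg E _ _ _)
        linarith
    have h3 : (R : ℝ) * ((∑ i ∈ C, mu (ind s) C z i - K * ∑ i ∈ C, mu E C z i) / C.card) ≤
        R * (1 / 2 + ε) := by
      have e5 : (R : ℝ) * ((∑ i ∈ C, mu (ind s) C z i +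
          K * (C.card - ∑ i ∈ C, mu E C z i)) / C.card) =
          R * ((∑ i ∈ C, mu (ind s) C z i - K * ∑ i ∈ C, mu E C z i) / C.card) + K * R := by
        field_simp
        ring
      rw [e5] at hp2
      linarith
    have h4 := le_of_mul_le_mul_left h3 hR0'
    rw [div_le_iff₀ hCpos] at h4
    linarith
  have h2 : ∀ s : Wt n, ∑ z, ∑ i ∈ C, mu s C z i = ∑ i ∈ C, ∑ x, tt s i x := by
    intro s
    rw [Finset.sum_comm]
    refine Finset.sum_congr rfl fun i _ => ?_
    unfold mu
    rw [← Finset.sum_div, sum_glue C (tt s i)]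
    field_simp
  rw [← h2, ← h2]
  refine (Finset.sum_le_sum fun z _ => h1 z).trans (le_of_eq ?_)
  have e6 : ∑ z : Fin n → Bool, K * ∑ i ∈ C, mu E C z i =
      K * ∑ z : Fin n → Bool, ∑ i ∈ C, mu E C z i := (Finset.mul_sum _ _ _).symm
  rw [Finset.sum_add_distrib, e6]
  congr 1
  simp
  ring

/-! ### The four classes together -/

/-- The class of the quadruples: class counts, polynomial map, product of maps of a finite set,
map of small influence. -/
def fourM (q d : ℕ) (A Q X : Type) [AddCommGroup A] (φ : ℕ → ℝ) :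
    MClass ((Fin q → ℕ) × (A × ((Q → Q) × X))) := fun n B V z F =>
  countM (Fin q) n B V z (fun x => (F x).1) ∧
    (fun n B V z (F : (Fin n → Bool) → A × ((Q → Q) × X)) =>
      polyM A d n B V z (fun x => (F x).1) ∧
        (fun n B V z (F : (Fin n → Bool) → (Q → Q) × X) =>
          permM (autoM Q) n B V z (fun x => (F x).1) ∧
            lowM X φ n B V z (fun x => (F x).2)) n B V z
          (fun x => (F x).2)) n B V z (fun x => (F x).2)

lemma fourM_good (q d : ℕ) (A Q X : Type) [AddCommGroup A] [Fintype A] [Fintype Q]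
    {φ : ℕ → ℝ} (hφ : Tendsto (fun N : ℕ => φ N / N) atTop (𝓝 0)) :
    GoodM (fourM q d A Q X φ) := by
  classical
  exact (countM_good (Fin q)).prod ((polyM_good A d).prod ((autoM_good Q).perm.prod
    (lowM_good X hφ)))

/-! ### Interval products from lists -/

section

variable {Q : Type} {n : ℕ}

/-- The composition `f lo ∘ f (lo + 1) ∘ ⋯ ∘ f (hi - 1)`. -/
def comps (f : ℕ → Q → Q) (lo hi : ℕ) : Q → Q :=
  ((List.range' lo (hi - lo)).map f).foldr (· ∘ ·) id

lemma foldr_comp_append (l₁ l₂ : List (Q → Q)) :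
    (l₁ ++ l₂).foldr (· ∘ ·) id = l₁.foldr (· ∘ ·) id ∘ l₂.foldr (· ∘ ·) id := by
  induction l₁ with
  | nil => rfl
  | cons a l ih =>
    simp only [List.cons_append, List.foldr_cons, ih]
    rfl

lemma comps_mul (f : ℕ → Q → Q) {lo mid hi : ℕ} (h1 : lo ≤ mid) (h2 : mid ≤ hi) :
    comps f lo hi = comps f lo mid ∘ comps f mid hi := by
  unfold comps
  rw [← foldr_comp_append, ← List.map_append]
  congr 2
  have e1 : hi - lo = (mid - lo) + (hi - mid) := by omega
  have e3 : lo + (mid - lo) = mid := by omega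
  have h := List.range'_append_1 (s := lo) (m := mid - lo) (n := hi - mid)
  rw [e3] at h
  rw [e1, ← h]

lemma comps_congr {f g : ℕ → Q → Q} {lo hi : ℕ} (h : ∀ j, lo ≤ j → j < hi → f j = g j) :
    comps f lo hi = comps g lo hi := by
  unfold comps
  congr 1
  apply List.map_congr_left
  intro j hj
  rw [List.mem_range'_1] at hj
  exact h j hj.1 (by omega)

lemma comps_ofFn (f : Fin n → Q → Q) :
    (List.ofFn f).foldr (· ∘ ·) id =
      comps (fun j => if h : j < n then f ⟨j, h⟩ else id) 0 n := by
  unfold comps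
  congr 1
  rw [Nat.sub_zero, ← List.range_eq_range']
  rw [List.ofFn_eq_map, ← List.map_coe_finRange_eq_range, List.map_map]
  apply List.map_congr_left
  intro j _
  simp

end

end Pool.Agent.H.MP_4093f8_co.Ord
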