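import Pool.Agent.H.MP_4093f8_co.OrdO

/-!
# Ordered counting in the cube, part P

Functions that are tame in the coordinates of a set, with arbitrary dependence on the others.
-/

open Finset Filter Topology

namespace Pool.Agent.H.MP_4093f8_co.Ord

section

variable {n : ℕ}

/-- The polynomial map with coefficients `c T`, `T ⊆ V`, `|T| ≤ d`. -/
def pol {A : Type} [AddCommGroup A] (d : ℕ) (V : Finset (Fin n)) (c : Finset (Fin n) → A)
    (x : Fin n → Bool) : A :=
  ∑ T ∈ V.powerset with T.card ≤ d ∧ ∀ j ∈ T, x j = true, c T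

/-- The product of the letters of the coordinates in `V`, in the order given by `σ`. -/
def rd {Q : Type} (σ : Equiv.Perm (Fin n)) (V : Finset (Fin n)) (m : Fin n → Bool → Q → Q)
    (x : Fin n → Bool) : Q → Q :=
  (List.ofFn fun k : Fin n => if σ k ∈ V then m (σ k) (x (σ k)) else id).foldr (· ∘ ·) id

lemma pol_eq {A : Type} [AddCommGroup A] (d : ℕ) (V : Finset (Fin n)) (c : Finset (Fin n) → A)
    (x : Fin n → Bool) : pol d V c x =
      ∑ T ∈ (ones V x).powerset, if T.card ≤ d then c T else 0 := by
  unfold pol
  rw [← Finset.sum_filter]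
  apply Finset.sum_congr _ (fun _ _ => rfl)
  ext T
  simp only [mem_filter, mem_powerset]
  constructor
  · rintro ⟨h1, h2, h3⟩
    exact ⟨fun j hj => mem_ones.2 ⟨h1 hj, h3 j hj⟩, h2⟩
  · rintro ⟨h1, h2⟩
    exact ⟨h1.trans (ones_subset _ _), h2, fun j hj => (mem_ones.1 (h1 hj)).2⟩

lemma pol_congr {A : Type} [AddCommGroup A] (d : ℕ) (V : Finset (Fin n))
    (c : Finset (Fin n) → A) {x y : Fin n → Bool} (h : ∀ j ∈ V, x j = y j) :
    pol d V c x = pol d V c y := by
  have e : ones V x = ones V y := by
    ext j
    simp only [mem_ones]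
    constructor
    · rintro ⟨h1, h2⟩; exact ⟨h1, by rw [← h j h1]; exact h2⟩
    · rintro ⟨h1, h2⟩; exact ⟨h1, by rw [h j h1]; exact h2⟩
  rw [pol_eq, pol_eq, e]

lemma pol_rep {A : Type} [AddCommGroup A] (d : ℕ) {W V : Finset (Fin n)} (hV : V ⊆ W)
    (c : Finset (Fin n) → A) (z : Fin n → Bool) : Rep (d + 1) (pol d W c) V z := by
  have h := rep_of (F := pol d W c) (V := W) (U := V) (z := z)
    (c := fun T => if T.card ≤ d then c T else 0) (fun x => by
      rw [pol_eq]
      have e : ones W (glue W x z) = ones W x := by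
        ext j
        simp only [mem_ones]
        constructor
        · rintro ⟨h1, h2⟩; rw [glue_mem h1] at h2; exact ⟨h1, h2⟩
        · rintro ⟨h1, h2⟩; rw [glue_mem h1]; exact ⟨h1, h2⟩
      rw [e]) hV z (d + 1) (fun _ _ => 0) (by
        intro T _ hc T' _
        rw [if_neg]
        have := Finset.card_le_card (Finset.subset_union_left (s₁ := T) (s₂ := T'))
        omega)
  rwa [glue_self] at h

/-- `g` is tame in the coordinates of `V`. -/
def Tame (q d : ℕ) (A Q X : Type) [AddCommGroup A] (φ : ℕ → ℝ) (V : Finset (Fin n))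
    (g : (Fin n → Bool) → Prop) : Prop :=
  ∀ z : Fin n → Bool, ∃ (χ : Fin n → Fin q) (c : Finset (Fin n) → A) (σ : Equiv.Perm (Fin n))
    (m : Fin n → Bool → Q → Q) (f : (Fin n → Bool) → X),
    (∀ V' ⊆ V, ∀ w, ∑ i ∈ V', sens f V' w i ≤ φ V'.card * 2 ^ n) ∧
    ∀ x y : Fin n → Bool, (∀ j ∉ V, x j = z j) → (∀ j ∉ V, y j = z j) →
      (∀ k, cnt (V.filter fun j => χ j = k) x = cnt (V.filter fun j => χ j = k) y) →
      pol d V c x = pol d V c y → rd σ V m x = rd σ V m y → f x = f y → (g x ↔ g y)

/-- A tame function belongs to the class of the functions determined by the quadruples. -/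
lemma Tame.mem {q d : ℕ} {A Q X : Type} [AddCommGroup A] {φ : ℕ → ℝ} {W : Finset (Fin n)}
    {g : (Fin n → Bool) → Prop} (hg : Tame q d A Q X φ W g) {b : Fin n}
    (hself : ∀ x y, (∀ j, j ≠ b → x j = y j) → (g x ↔ g y)) {B V : Finset (Fin n)}
    (hVW : V ⊆ W) (hbB : b ∉ B) (hd : Disjoint (insert b B) V) (z β : Fin n → Bool) :
    ofM (fourM q d A Q X φ) n (insert b B) V z (fun x => g (glue B β x)) := by
  classical
  have hbV : b ∉ V := Finset.disjoint_left.1 hd (Finset.mem_insert_self _ _)
  refine ⟨?_, ?_⟩
  · intro x y hxy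
    apply hself
    intro j hj
    by_cases h : j ∈ B
    · rw [glue_mem h, glue_mem h]
    · rw [glue_notMem h, glue_notMem h]
      exact hxy j (by simp [hj, h])
  set y₀ : Fin n → Bool := glue B β z with hy₀
  set B' := insert b B with hB'
  obtain ⟨χ, c, σ, m, f, hf, hdet⟩ := hg y₀
  set Y : (Fin n → Bool) → (Fin n → Bool) := fun x => glue B' y₀ x with hY
  have hYign : ∀ x y, (∀ j, j ∉ B' → x j = y j) → Y x = Y y := by
    intro x y hxy
    funext j
    by_cases h : j ∈ B'
    · simp only [hY]; rw [glue_mem h, glue_mem h]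
    · simp only [hY]; rw [glue_notMem h, glue_notMem h]; exact hxy j h
  have hYV : ∀ (V' : Finset (Fin n)), V' ⊆ V → ∀ x z',
      Y (glue V' x z') = glue V' x (Y z') := by
    intro V' hV' x z'
    funext j
    by_cases h : j ∈ V'
    · have h' : j ∉ B' := fun h1 => Finset.disjoint_left.1 hd h1 (hV' h)
      simp only [hY]; rw [glue_notMem h', glue_mem h, glue_mem h]
    · by_cases h1 : j ∈ B'
      · simp only [hY]; rw [glue_mem h1, glue_notMem h, glue_mem h1]
      · simp only [hY]; rw [glue_notMem h1, glue_notMem h, glue_notMem h, glue_notMem h1]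
  have hYB : ∀ x, glue B β (glue V x z) = Y (glue V x z) := by
    intro x
    funext j
    by_cases h : j ∈ B
    · simp only [hY]
      rw [glue_mem h, glue_mem (Finset.mem_insert_of_mem h), hy₀, glue_mem h]
    · rw [glue_notMem h]
      by_cases hj : j = b
      · subst hj
        simp only [hY]
        rw [glue_mem (Finset.mem_insert_self _ _), hy₀, glue_notMem h, glue_notMem hbV]
      · simp only [hY]
        rw [glue_notMem (V := B') (by simp [hB', hj, h])]
  refine ⟨fun x => (fun k => cnt ((W \ B').filter fun j => χ j = k) x,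
    (pol d W c (Y x), (rd σ W m (Y x), f (Y x)))), ⟨?_, ?_, ?_, ?_, ?_⟩, ?_⟩
  · refine ⟨W \ B', χ, Finset.disjoint_sdiff, ?_, fun x k => rfl⟩
    intro j hj
    exact Finset.mem_sdiff.2 ⟨hVW hj, fun h => Finset.disjoint_left.1 hd h hj⟩
  · refine ⟨fun x y hxy => by simp only; rw [hYign x y hxy], ?_⟩
    obtain ⟨c', γ, h1, h2⟩ := pol_rep d hVW c (Y z)
    refine ⟨c', γ, h1, fun x => ?_⟩
    simp only
    rw [hYV V Finset.Subset.rfl, h2]
  · refine ⟨σ, ?_, ?_⟩
    · rw [Finset.disjoint_left]
      intro j h1 h2
      exact Finset.disjoint_left.1 hd ((mem_pull σ).1 h1) ((mem_pull σ).1 h2)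
    set lt : (Fin n → Bool) → ℕ → Q → Q := fun x k =>
      if h : k < n then (if σ ⟨k, h⟩ ∈ W then m (σ ⟨k, h⟩) (Y (x ∘ σ.symm) (σ ⟨k, h⟩)) else id)
      else id with hlt
    refine ⟨fun lo hi x => comps (lt x) lo hi, ⟨?_, ?_, ?_⟩, ?_⟩
    · intro lo mid hi x h1 h2
      exact comps_mul _ h1 h2
    · intro lo hi x y hxy
      apply comps_congr
      intro j h1 h2
      simp only [hlt]
      by_cases h : j < n
      · simp only [dif_pos h]
        have : Y (x ∘ σ.symm) (σ ⟨j, h⟩) = Y (y ∘ σ.symm) (σ ⟨j, h⟩) := by
          by_cases h3 : σ ⟨j, h⟩ ∈ B'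
          · simp only [hY]; rw [glue_mem h3, glue_mem h3]
          · simp only [hY]; rw [glue_notMem h3, glue_notMem h3]
            simp only [Function.comp, Equiv.symm_apply_apply]
            exact hxy _ h1 h2
        rw [this]
      · simp only [dif_neg h]
    · intro lo hi x y hxy
      have e : Y (x ∘ σ.symm) = Y (y ∘ σ.symm) := hYign _ _ fun j hj =>
        hxy _ (fun h => hj (by simpa using (mem_pull σ).1 h))
      simp only [hlt, e]
    · intro x
      simp only [rd]
      rw [comps_ofFn]
  · intro x y hxy
    simp only; rw [hYign x y hxy]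
  · intro V' hV' z'
    have h := hf V' (hV'.trans hVW) (Y z')
    refine le_trans (le_of_eq ?_) h
    refine Finset.sum_congr rfl fun i _ => ?_
    unfold sens
    refine Finset.sum_congr rfl fun x _ => ?_
    have e : ∀ x, f (Y (glue V' x z')) = f (glue V' x (Y z')) := fun x => by rw [hYV V' hV']
    exact if_congr (by rw [← e, ← e]) rfl rfl
  · intro x y hxy
    simp only [Prod.mk.injEq] at hxy
    obtain ⟨h1, h2, h3, h4⟩ := hxy
    simp only
    rw [hYB, hYB]
    have hout : ∀ x, ∀ j ∉ W, Y (glue V x z) j = y₀ j := by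
      intro x j hj
      have hjV : j ∉ V := fun h => hj (hVW h)
      rw [← hYB]
      by_cases h : j ∈ B
      · rw [glue_mem h, hy₀, glue_mem h]
      · rw [glue_notMem h, glue_notMem hjV, hy₀, glue_notMem h]
    refine hdet _ _ (hout x) (hout y) ?_ h2 h3 h4
    intro k
    have key : ∀ x, cnt (W.filter fun j => χ j = k) (Y x) =
        cnt ((W \ B').filter fun j => χ j = k) x + cnt ((W ∩ B').filter fun j => χ j = k) y₀ := by
      intro x
      have e : W.filter (fun j => χ j = k) =
          (W \ B').filter (fun j => χ j = k) ∪ (W ∩ B').filter (fun j => χ j = k) := by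
        rw [← Finset.filter_union, Finset.sdiff_union_inter]
      rw [e, cnt_union (Finset.disjoint_filter_filter
        (Finset.disjoint_sdiff_inter W B'))]
      congr 1
      · apply cnt_congr
        intro j hj
        have := (Finset.mem_sdiff.1 (Finset.mem_filter.1 hj).1).2
        simp only [hY]; rw [glue_notMem this]
      · apply cnt_congr
        intro j hj
        have := (Finset.mem_inter.1 (Finset.mem_filter.1 hj).1).2
        simp only [hY]; rw [glue_mem this]
    rw [key, key]
    have := congrFun h1 k
    rw [this]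

end

/-! ### From the blocks to the whole cube -/

/-- The bound for the directions in a union of blocks: among any `ω` directions of a block there
are two such that the status `g` of the edges in one is tame in the coordinate of the other; `s` is
free of full faces. -/
lemma total_bound {ε : ℝ} (hε : 0 < ε) : ∃ K : ℝ, 0 ≤ K ∧
    ∀ (q d ω : ℕ) (A Q X : Type) [AddCommGroup A] [Fintype A] [Fintype Q]
    (φ : ℕ → ℝ), Tendsto (fun N : ℕ => φ N / N) atTop (𝓝 0) →
    ∃ L : ℕ, ∀ (n : ℕ) (β : Fin n → ℕ) (V : Fin n → Finset (Fin n))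
    (g s : Fin n → (Fin n → Bool) → Prop), (∀ i, i ∉ V i) →
    (∀ S : Finset (Fin n), (∀ i ∈ S, ∀ j ∈ S, β i = β j) → ω ≤ S.card →
      ∃ i ∈ S, ∃ j ∈ S, i ≠ j ∧ j ∈ V i) →
    (∀ i, Tame q d A Q X φ (V i) (g i)) →
    (∀ i x y, (∀ j, j ≠ i → x j = y j) → (g i x ↔ g i y)) →
    (∀ i x y, (∀ j, j ≠ i → x j = y j) → (s i x ↔ s i y)) → Free s univ →
    ∑ i, ∑ x, tt (ind s) i x ≤ ((1 / 2 + ε) * n + L * (univ.image β).card) * 2 ^ n +
      K * ∑ i, ∑ x, tt (ind (err s g)) i x := by
  classical
  obtain ⟨K, hK0, hK⟩ := block_bound hε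
  refine ⟨K, hK0, ?_⟩
  intro q d ω A Q X _ _ _ φ hφ
  obtain ⟨L₀, hL₀⟩ := hK _ (fourM_good q d A Q X hφ).good
  set L₁ := max L₀ ω + 1 with hL₁
  obtain ⟨N₀, hN₀⟩ := ramsey' 2 (Fin 3) L₁
  refine ⟨N₀, fun n β V g s hVi hω hT hselfg hself hF => ?_⟩
  have htt2 : ∀ i, ∑ x, tt (ind s) i x ≤ 2 ^ n := by
    intro i
    refine (Finset.sum_le_sum fun x _ => tt_le (ind s) i x).trans (le_of_eq ?_)
    simp
  have hee : ∀ S : Finset (Fin n), 0 ≤ ∑ i ∈ S, ∑ x, tt (ind (err s g)) i x := fun S =>
    Finset.sum_nonneg fun i _ => Finset.sum_nonneg fun x _ => tt_nonneg _ _ _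
  -- the bound within a block
  have key : ∀ (k : ℕ) (S : Finset (Fin n)), S.card = k → (∀ i ∈ S, ∀ j ∈ S, β i = β j) →
      ∑ i ∈ S, ∑ x, tt (ind s) i x ≤ ((1 / 2 + ε) * S.card + N₀) * 2 ^ n +
        K * ∑ i ∈ S, ∑ x, tt (ind (err s g)) i x := by
    intro k
    induction k using Nat.strong_induction_on with
    | _ k ih =>
      intro S hSk hS
      have hp : (0 : ℝ) < 2 ^ n := by positivity
      by_cases hlt : S.card < N₀
      · have h1 : ∑ i ∈ S, ∑ x, tt (ind s) i x ≤ S.card * 2 ^ n := by
          refine (Finset.sum_le_sum fun i _ => htt2 i).trans (le_of_eq ?_)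
          simp
        have h2 : (S.card : ℝ) ≤ N₀ := by exact_mod_cast hlt.le
        have h3 : (0 : ℝ) ≤ (1 / 2 + ε) * S.card := by positivity
        have h4 := mul_nonneg hK0 (hee S)
        have h5 := mul_le_mul_of_nonneg_right
          (by linarith : (S.card : ℝ) ≤ (1 / 2 + ε) * S.card + N₀) hp.le
        linarith
      · set col : Finset (Fin n) → Fin 3 := fun T =>
          if ∃ i ∈ T, ∃ j ∈ T, i < j ∧ j ∈ V i then 1
          else if ∃ i ∈ T, ∃ j ∈ T, i < j ∧ i ∈ V j then 2 else 0 with hcol
        obtain ⟨C, hCS, hCc, γ, hγ⟩ := hN₀ (Fin n) S col (not_lt.1 hlt)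
        have hpair : ∀ i ∈ C, ∀ j ∈ C, i < j → (γ = 1 → j ∈ V i) ∧ (γ ≠ 1 → γ = 2 → i ∈ V j) := by
          intro i hi j hj hij
          have h1 := hγ {i, j} (by
            intro t ht
            rcases Finset.mem_insert.1 ht with rfl | ht
            · exact hi
            · rw [Finset.mem_singleton.1 ht]; exact hj) (Finset.card_pair hij.ne)
          have e1 : (∃ a ∈ ({i, j} : Finset (Fin n)), ∃ b ∈ ({i, j} : Finset (Fin n)),
              a < b ∧ b ∈ V a) ↔ j ∈ V i := by
            constructor
            · rintro ⟨a, ha, b, hb, hab, h⟩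
              simp only [mem_insert, mem_singleton] at ha hb
              rcases ha with rfl | rfl <;> rcases hb with rfl | rfl
              · exact absurd hab (lt_irrefl _)
              · exact h
              · exact absurd hab (not_lt.2 hij.le)
              · exact absurd hab (lt_irrefl _)
            · intro h
              exact ⟨i, by simp, j, by simp, hij, h⟩
          have e2 : (∃ a ∈ ({i, j} : Finset (Fin n)), ∃ b ∈ ({i, j} : Finset (Fin n)),
              a < b ∧ a ∈ V b) ↔ i ∈ V j := by
            constructor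
            · rintro ⟨a, ha, b, hb, hab, h⟩
              simp only [mem_insert, mem_singleton] at ha hb
              rcases ha with rfl | rfl <;> rcases hb with rfl | rfl
              · exact absurd hab (lt_irrefl _)
              · exact h
              · exact absurd hab (not_lt.2 hij.le)
              · exact absurd hab (lt_irrefl _)
            · intro h
              exact ⟨i, by simp, j, by simp, hij, h⟩
          simp only [hcol, e1, e2] at h1
          constructor
          · intro hγ1
            by_contra h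
            rw [if_neg h, hγ1] at h1
            split at h1 <;> revert h1 <;> decide
          · intro _ hγ2
            by_contra h
            rw [if_neg h, hγ2] at h1
            split at h1 <;> revert h1 <;> decide
        -- the colour is not `0`
        have hγ0 : γ = 1 ∨ γ = 2 := by
          obtain ⟨i, hi, j, hj, hij, hV⟩ := hω C (fun i hi j hj => hS i (hCS hi) j (hCS hj))
            (by rw [hCc]; omega)
          have h1 := hγ {i, j} (by
            intro t ht
            rcases Finset.mem_insert.1 ht with rfl | ht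
            · exact hi
            · rw [Finset.mem_singleton.1 ht]; exact hj) (Finset.card_pair hij)
          simp only [hcol] at h1
          split at h1
          · exact Or.inl h1.symm
          · split at h1
            · exact Or.inr h1.symm
            · rename_i h2 h3
              exfalso
              rcases lt_or_gt_of_ne hij with h | h
              · exact h2 ⟨i, by simp, j, by simp, h, hV⟩
              · exact h3 ⟨j, by simp, i, by simp, h, hV⟩
        -- the order
        have hbd : ∑ i ∈ C, ∑ x, tt (ind s) i x ≤ (1 / 2 + ε) * C.card * 2 ^ n +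
            K * ∑ i ∈ C, ∑ x, tt (ind (err s g)) i x := by
          have hFC : Free s C := fun i _ j _ => hF i (mem_univ i) j (mem_univ j)
          rcases hγ0 with hγ1 | hγ2
          · apply hL₀ n C (fun j => (j : ℕ)) g s Fin.val_injective _ hselfg hself hFC
              (by rw [hCc]; omega)
            intro b hb B hBC V' hV'C z β' hBb hV'b
            apply (hT b).mem (hselfg b)
            · intro v hv
              exact (hpair b hb v (hV'C hv) (Fin.lt_def.2 (hV'b v hv))).1 hγ1
            · intro h; exact lt_irrefl _ (hBb b h)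
            · rw [Finset.disjoint_left]
              intro j h1 h2
              rcases Finset.mem_insert.1 h1 with rfl | h1
              · exact lt_irrefl _ (hV'b j h2)
              · exact lt_asymm (hBb j h1) (hV'b j h2)
          · apply hL₀ n C (fun j => n - (j : ℕ)) g s _ _ hselfg hself hFC (by rw [hCc]; omega)
            · intro i j hij
              simp only at hij
              apply Fin.ext
              have := i.2
              have := j.2
              omega
            intro b hb B hBC V' hV'C z β' hBb hV'b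
            apply (hT b).mem (hselfg b)
            · intro v hv
              have h1 := hV'b v hv
              simp only at h1
              refine (hpair v (hV'C hv) b hb (Fin.lt_def.2 ?_)).2 (by rw [hγ2]; decide) hγ2
              omega
            · intro h; exact lt_irrefl _ (hBb b h)
            · rw [Finset.disjoint_left]
              intro j h1 h2
              rcases Finset.mem_insert.1 h1 with rfl | h1
              · exact lt_irrefl _ (hV'b j h2)
              · exact lt_asymm (hBb j h1) (hV'b j h2)
        have hcard : (S \ C).card + C.card = S.card := Finset.card_sdiff_add_card_eq_card hCS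
        have hrest := ih (S \ C).card (by omega) (S \ C) rfl (fun i hi j hj =>
          hS i (Finset.mem_sdiff.1 hi).1 j (Finset.mem_sdiff.1 hj).1)
        rw [← Finset.sum_sdiff hCS, ← Finset.sum_sdiff hCS]
        refine (add_le_add hrest hbd).trans (le_of_eq ?_)
        have : (S.card : ℝ) = (S \ C).card + C.card := by exact_mod_cast hcard.symm
        rw [this]
        ring
  have h1 : ∀ t : Wt n, ∑ i, ∑ x, tt t i x =
      ∑ b ∈ univ.image β, ∑ i with β i = b, ∑ x, tt t i x := fun t =>
    (Finset.sum_fiberwise_of_maps_to (fun i _ => Finset.mem_image_of_mem β (mem_univ i)) _).symm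
  have h2 : (n : ℝ) = ∑ b ∈ univ.image β, ((univ.filter fun i => β i = b).card : ℝ) := by
    have := Finset.card_eq_sum_card_fiberwise (s := (univ : Finset (Fin n))) (f := β)
      (t := univ.image β) (fun i _ => by simp)
    rw [Finset.card_univ, Fintype.card_fin] at this
    exact_mod_cast this
  rw [h1, h1]
  have h3 : ∀ b ∈ univ.image β, ∑ i with β i = b, ∑ x, tt (ind s) i x ≤
      ((1 / 2 + ε) * (univ.filter fun i => β i = b).card + N₀) * 2 ^ n +
        K * ∑ i with β i = b, ∑ x, tt (ind (err s g)) i x := by
    intro b _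
    apply key _ _ rfl
    intro i hi j hj
    rw [(Finset.mem_filter.1 hi).2, (Finset.mem_filter.1 hj).2]
  refine (Finset.sum_le_sum h3).trans (le_of_eq ?_)
  rw [Finset.sum_add_distrib, ← Finset.mul_sum, ← Finset.sum_mul, Finset.sum_add_distrib,
    ← Finset.mul_sum, ← h2]
  simp
  ring

end Pool.Agent.H.MP_4093f8_co.Ord
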