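import Pool.Prelude.Def_F_a92f9a66
import Pool.Agent.H.MP_4093f8_co.OrdP

/-!
# Ordered counting in the cube, part Q

Edge counts, the explicit bound for one-sided symmetric subgraphs, unate functions.
-/

open SimpleGraph Finset Filter Topology

namespace Pool.Agent.H.MP_4093f8_co.Ord

section

variable {n : ℕ}

lemma hyper_adj_iff (x y : Fin n → Bool) : (hypercube n).Adj x y ↔ ∃ i, y = fl x i := by
  rw [hypercube_adj, Finset.card_eq_one]
  constructor
  · rintro ⟨i, hi⟩
    refine ⟨i, ?_⟩
    funext k
    by_cases h : k = i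
    · subst h
      have : k ∈ ({k} : Finset (Fin n)) := by simp
      rw [← hi] at this
      simp only [ne_eq, mem_filter, mem_univ, true_and] at this
      rw [fl_self]
      cases hx : x k <;> cases hy : y k <;> simp_all
    · have : k ∉ ({i} : Finset (Fin n)) := by simpa using h
      rw [← hi] at this
      simp only [ne_eq, mem_filter, mem_univ, true_and, not_not] at this
      rw [fl_ne x h, this]
  · rintro ⟨i, rfl⟩
    refine ⟨i, ?_⟩
    ext k
    by_cases h : k = i
    · subst h
      simp [fl]
    · simp [fl, h]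

/-- The status of the edge at `x` in direction `i`. -/
def sta (H : SimpleGraph (Fin n → Bool)) (i : Fin n) (x : Fin n → Bool) : Prop :=
  H.Adj x (fl x i)

lemma sta_fl (H : SimpleGraph (Fin n → Bool)) (i : Fin n) (x : Fin n → Bool) :
    sta H i (fl x i) ↔ sta H i x := by
  unfold sta
  rw [fl_fl, H.adj_comm]

lemma sta_self (H : SimpleGraph (Fin n → Bool)) (i : Fin n) (x y : Fin n → Bool)
    (h : ∀ j, j ≠ i → x j = y j) : sta H i x ↔ sta H i y := by
  by_cases hi : x i = y i
  · have : x = y := by
      funext j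
      by_cases hj : j = i
      · subst hj; exact hi
      · exact h j hj
    rw [this]
  · have : x = fl y i := by
      funext j
      by_cases hj : j = i
      · subst hj
        rw [fl_self]
        cases hx : x j <;> cases hy : y j <;> simp_all
      · rw [fl_ne y hj]; exact h j hj
    rw [this, sta_fl]

lemma sta_free (H : SimpleGraph (Fin n → Bool)) (hC : ¬ cycleGraph 4 ⊑ H) :
    Free (sta H) univ := by
  intro i _ j _ hij x h
  obtain ⟨h1, h2, h3, h4⟩ := h
  unfold sta at h1 h2 h3 h4
  rw [fl_comm x j i] at h2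
  exact hC (contained H x hij h1 h4 h2 h3)

open Classical in
/-- The degree of `x` in `H`. -/
noncomputable def dg (H : SimpleGraph (Fin n → Bool)) (x : Fin n → Bool) : ℝ :=
  ((univ.filter fun i => H.Adj x (fl x i)).card : ℝ)

lemma degree_eq (H : SimpleGraph (Fin n → Bool)) (hH : H ≤ hypercube n) (x : Fin n → Bool)
    [Fintype (H.neighborSet x)] : (H.degree x : ℝ) = dg H x := by
  classical
  unfold dg
  rw [← SimpleGraph.card_neighborFinset_eq_degree]
  congr 1
  symm
  apply Finset.card_bij (fun i _ => fl x i)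
  · intro i hi
    simpa using hi
  · intro i _ j _ hij
    by_contra h
    exact fl_ne_fl x h hij
  · intro y hy
    rw [mem_neighborFinset] at hy
    obtain ⟨i, rfl⟩ := (hyper_adj_iff x y).1 (hH hy)
    exact ⟨i, by simpa using hy, rfl⟩

lemma sum_dg (H : SimpleGraph (Fin n → Bool)) (hH : H ≤ hypercube n) :
    ∑ x, dg H x = 2 * (H.edgeSet.ncard : ℝ) := by
  classical
  have h1 := H.sum_degrees_eq_twice_card_edges
  have h2 : H.edgeSet.ncard = H.edgeFinset.card := by
    rw [Set.ncard_eq_toFinset_card']
    rfl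
  rw [h2]
  have h3 : ((∑ v, H.degree v : ℕ) : ℝ) = ((2 * H.edgeFinset.card : ℕ) : ℝ) := by rw [h1]
  push_cast at h3
  rw [← h3]
  exact Finset.sum_congr rfl fun x _ => (degree_eq H hH x).symm

/-- The edges, counted by their directions. -/
lemma edge_count (H : SimpleGraph (Fin n → Bool)) (hH : H ≤ hypercube n) :
    ∑ i, ∑ x, tt (ind (sta H)) i x = 2 * (H.edgeSet.ncard : ℝ) := by
  classical
  rw [← sum_dg H hH, Finset.sum_comm]
  refine Finset.sum_congr rfl fun x _ => ?_
  unfold dg
  simp only [tt_ind]
  rw [Finset.sum_boole]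
  rfl

/-- The bound with explicit error for one-sided symmetric families. -/
lemma explicit_bound (β : Fin n → ℕ) (s : Fin n → (Fin n → Bool) → Prop)
    (hself : ∀ i x y, (∀ j, j ≠ i → x j = y j) → (s i x ↔ s i y))
    (hsym : ∀ i x y, (∀ j, j ∉ (univ.filter fun j => i < j ∧ β j = β i) → x j = y j) →
      cnt (univ.filter fun j => i < j ∧ β j = β i) x =
        cnt (univ.filter fun j => i < j ∧ β j = β i) y → (s i x ↔ s i y))
    (hF : Free s univ) :
    ∑ i, ∑ x, tt (ind s) i x ≤ ((n : ℝ) / 2 + 12 * ((univ.image β).card : ℝ) ^ (1 / 9 : ℝ) *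
      (n : ℝ) ^ (8 / 9 : ℝ)) * 2 ^ n := by
  classical
  -- one block
  have key : ∀ b ∈ univ.image β, ∑ i with β i = b, ∑ x, tt (ind s) i x ≤
      2 ^ n * (((univ.filter fun i => β i = b).card : ℝ) / 2 +
        12 * ((univ.filter fun i => β i = b).card : ℝ) ^ (8 / 9 : ℝ)) := by
    intro b hb
    set B := univ.filter fun i => β i = b with hB
    have hBne : B.Nonempty := by
      obtain ⟨i, -, hi⟩ := Finset.mem_image.1 hb
      exact ⟨i, Finset.mem_filter.2 ⟨mem_univ _, hi⟩⟩
    have hS : Sym s (fun j => (j : ℕ)) B := by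
      intro m hm x y hxy hc
      have hβm : β m = b := (Finset.mem_filter.1 hm).2
      have e1 : suf (fun j : Fin n => (j : ℕ)) B m =
          univ.filter fun j => m < j ∧ β j = β m := by
        unfold suf
        ext j
        simp only [hB, mem_filter, mem_univ, true_and, hβm, Fin.lt_def]
        exact and_comm
      rw [e1] at hc
      -- change the coordinate `m` of `y`
      set y' : Fin n → Bool := Function.update y m (x m) with hy'
      have h1 : s m y' ↔ s m y := hself m _ _ fun j hj => by simp [hy', hj]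
      rw [← h1]
      apply hsym
      · intro j hj
        by_cases hjm : j = m
        · subst hjm; simp [hy']
        · rw [hy', Function.update_of_ne hjm]
          apply hxy
          by_cases h2 : j ∈ B
          · left
            have h3 : β j = β m := by rw [(Finset.mem_filter.1 h2).2, hβm]
            have h4 : ¬ m < j := fun h => hj (Finset.mem_filter.2 ⟨mem_univ _, h, h3⟩)
            exact Fin.lt_def.1 (lt_of_le_of_ne (not_lt.1 h4) hjm)
          · exact Or.inr h2
      · rw [hc]
        apply cnt_congr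
        intro j hj
        rw [hy', Function.update_of_ne]
        exact fun h => lt_irrefl _ (h ▸ (Finset.mem_filter.1 hj).2.1)
    have h2 := block' Fin.val_injective hS
      (fun i _ j _ => hF i (mem_univ i) j (mem_univ j)) hBne
    have h3 : ∀ m ∈ B, e s m = 1 / 2 * ∑ x, tt (ind s) m x := by
      intro m hm
      unfold e
      have h4 := sum_half (fun x => tt (ind s) m x) m (fun x => by
        rw [tt_ind, tt_ind]
        have h5 : s m (fl x m) ↔ s m x := hself m _ _ (fun j hj => fl_ne _ hj)
        simp only [h5])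
      have h6 : ∑ x : Fin n → Bool, (if x m = false ∧ s m x then (1 : ℝ) else 0) =
          ∑ x : Fin n → Bool, (if x m = false then tt (ind s) m x else 0) := by
        refine Finset.sum_congr rfl fun x _ => ?_
        rw [tt_ind]
        by_cases hx : x m = false
        · simp only [hx, true_and, if_true]
        · simp [hx]
      rw [h6, h4]
      ring
    rw [Finset.sum_congr rfl h3, ← Finset.mul_sum] at h2
    linarith
  have h1 : ∑ i, ∑ x, tt (ind s) i x = ∑ b ∈ univ.image β, ∑ i with β i = b, ∑ x, tt (ind s) i x :=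
    (Finset.sum_fiberwise_of_maps_to (fun i _ => Finset.mem_image_of_mem β (mem_univ i)) _).symm
  have h2 : (n : ℝ) = ∑ b ∈ univ.image β, ((univ.filter fun i => β i = b).card : ℝ) := by
    have := Finset.card_eq_sum_card_fiberwise (s := (univ : Finset (Fin n))) (f := β)
      (t := univ.image β) (fun i _ => by simp)
    rw [Finset.card_univ, Fintype.card_fin] at this
    exact_mod_cast this
  -- Hölder
  have h3 : ∑ b ∈ univ.image β, ((univ.filter fun i => β i = b).card : ℝ) ^ (8 / 9 : ℝ) ≤
      ((univ.image β).card : ℝ) ^ (1 / 9 : ℝ) * (n : ℝ) ^ (8 / 9 : ℝ) := by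
    have hpq : (9 / 8 : ℝ).HolderConjugate 9 := by
      rw [Real.holderConjugate_iff]
      norm_num
    have h4 := Real.inner_le_Lp_mul_Lq_of_nonneg (univ.image β) hpq
      (f := fun b => ((univ.filter fun i => β i = b).card : ℝ) ^ (8 / 9 : ℝ)) (g := fun _ => 1)
      (fun b _ => by positivity) (fun b _ => by positivity)
    simp only [mul_one, Real.one_rpow, Finset.sum_const, nsmul_eq_mul] at h4
    have h5 : ∀ b ∈ univ.image β,
        (((univ.filter fun i => β i = b).card : ℝ) ^ (8 / 9 : ℝ)) ^ (9 / 8 : ℝ) =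
          ((univ.filter fun i => β i = b).card : ℝ) := by
      intro b _
      rw [← Real.rpow_mul (by positivity)]
      norm_num
    rw [Finset.sum_congr rfl h5, ← h2] at h4
    have e1 : (1 : ℝ) / (9 / 8) = 8 / 9 := by norm_num
    rw [e1, mul_comm] at h4
    exact h4
  rw [h1]
  refine (Finset.sum_le_sum key).trans ?_
  rw [← Finset.mul_sum, Finset.sum_add_distrib, ← Finset.sum_div, ← h2, ← Finset.mul_sum]
  have hp : (0 : ℝ) < 2 ^ n := by positivity
  nlinarith

end

/-! ### Unate functions -/

section

variable {n r : ℕ}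

open Classical in
/-- The total influence of a function that is monotone or antitone in each coordinate. -/
lemma unate_one (V : Finset (Fin n)) (o : Fin n → Bool) (f : (Fin n → Bool) → Prop)
    (w : Fin n → Bool)
    (hf : ∀ j ∈ V, ∀ x, x j = o j → f x → f (fl x j)) :
    ∑ i ∈ V, ∑ x : Fin n → Bool,
      (if ¬ (f (glue V x w) ↔ f (glue V (fl x i) w)) then (1 : ℝ) else 0) ≤
      Real.sqrt V.card * 2 ^ n := by
  rcases V.eq_empty_or_nonempty with rfl | hV
  · simp
  have hVc : (0 : ℝ) < V.card := by exact_mod_cast hV.card_pos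
  set g : (Fin n → Bool) → ℝ := fun x => if f (glue V x w) then 1 else 0 with hg
  set σ : Fin n → ℝ := fun i => if o i = true then 1 else -1 with hσ
  have hσ2 : ∀ i, σ i ^ 2 = 1 := by intro i; simp only [hσ]; split <;> norm_num
  have h1 : ∀ i ∈ V, ∀ x : Fin n → Bool,
      (if ¬ (f (glue V x w) ↔ f (glue V (fl x i) w)) then (1 : ℝ) else 0) =
        (σ i * ep i x) * (g x - g (fl x i)) := by
    intro i hi x
    have hmono : ∀ x, x i = o i → f (glue V x w) → f (glue V (fl x i) w) := by
      intro x hx h
      rw [glue_fl hi]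
      exact hf i hi _ (by rw [glue_mem hi]; exact hx) h
    simp only [hσ, ep, hg]
    by_cases hxo : x i = o i
    · have h2 := hmono x hxo
      by_cases a : f (glue V x w) <;> by_cases b : f (glue V (fl x i) w)
      · simp [a, b]
      · exact absurd (h2 a) b
      · cases ho : o i <;> rw [ho] at hxo <;> simp [a, b, hxo]
      · simp [a, b]
    · have hxo' : (fl x i) i = o i := by
        rw [fl_self]; cases hx : x i <;> cases ho : o i <;> simp_all
      have h2 := hmono (fl x i) hxo'
      rw [fl_fl] at h2
      by_cases a : f (glue V x w) <;> by_cases b : f (glue V (fl x i) w)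
      · simp [a, b]
      · cases hx : x i <;> cases ho : o i <;> simp_all
      · exact absurd (h2 b) a
      · simp [a, b]
  have h2 : ∀ i ∈ V, ∑ x : Fin n → Bool,
      (if ¬ (f (glue V x w) ↔ f (glue V (fl x i) w)) then (1 : ℝ) else 0) =
        2 * ∑ x, g x * (σ i * ep i x) := by
    intro i hi
    rw [Finset.sum_congr rfl fun x _ => h1 i hi x]
    have e1 : ∑ x : Fin n → Bool, σ i * ep i x * (g x - g (fl x i)) =
        ∑ x, g x * (σ i * ep i x) - ∑ x, g (fl x i) * (σ i * ep i x) := by
      rw [← Finset.sum_sub_distrib]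
      exact Finset.sum_congr rfl fun x _ => by ring
    have e2 : ∑ x : Fin n → Bool, g (fl x i) * (σ i * ep i x) =
        - ∑ x, g x * (σ i * ep i x) := by
      rw [← sum_fl (fun x => g (fl x i) * (σ i * ep i x)) i, ← Finset.sum_neg_distrib]
      refine Finset.sum_congr rfl fun x _ => ?_
      rw [fl_fl, ep_fl_self]; ring
    rw [e1, e2]; ring
  rw [Finset.sum_congr rfl h2, ← Finset.mul_sum, Finset.sum_comm]
  have h3 : ∑ x : Fin n → Bool, ∑ i ∈ V, σ i * ep i x = 0 := by
    rw [Finset.sum_comm]
    apply Finset.sum_eq_zero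
    intro i _
    exact sum_mul_ep (fun _ => σ i) i (fun _ => rfl)
  have h4 : 2 * ∑ x : Fin n → Bool, ∑ i ∈ V, g x * (σ i * ep i x) ≤
      ∑ x : Fin n → Bool, |∑ i ∈ V, σ i * ep i x| := by
    have h5 : ∀ x : Fin n → Bool, 2 * ∑ i ∈ V, g x * (σ i * ep i x) ≤
        |∑ i ∈ V, σ i * ep i x| + ∑ i ∈ V, σ i * ep i x := by
      intro x
      rw [← Finset.mul_sum]
      simp only [hg]
      have h6 := neg_abs_le (∑ i ∈ V, σ i * ep i x)
      have h7 := le_abs_self (∑ i ∈ V, σ i * ep i x)
      split <;> linarith
    rw [Finset.mul_sum]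
    refine (Finset.sum_le_sum fun x _ => h5 x).trans (le_of_eq ?_)
    rw [Finset.sum_add_distrib, h3, add_zero]
  refine h4.trans ?_
  have h5 := sum_abs_le (fun j : Fin n => (j : ℕ)) Fin.val_injective V (fun i _ => σ i)
    (fun i _ j _ _ _ => rfl) (K := 1 / V.card) (by positivity) (fun y => by
      simp only [hσ2]
      simp)
  refine h5.trans (le_of_eq ?_)
  rw [Real.sqrt_div (by norm_num), Real.sqrt_one]
  field_simp

/-- The total influence of `r` unate functions. -/
lemma unate_bound (V : Finset (Fin n)) (o : Fin r → Fin n → Bool)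
    (f : (Fin n → Bool) → Fin r → Prop)
    (hf : ∀ k, ∀ j ∈ V, ∀ x, x j = o k j → f x k → f (fl x j) k) (V' : Finset (Fin n))
    (hV' : V' ⊆ V) (w : Fin n → Bool) :
    ∑ i ∈ V', sens f V' w i ≤ r * Real.sqrt V'.card * 2 ^ n := by
  classical
  have h1 : ∀ i ∈ V', sens f V' w i ≤ ∑ k : Fin r, ∑ x : Fin n → Bool,
      (if ¬ (f (glue V' x w) k ↔ f (glue V' (fl x i) w) k) then (1 : ℝ) else 0) := by
    intro i _
    unfold sens
    rw [Finset.sum_comm]
    refine Finset.sum_le_sum fun x _ => ?_
    split
    · rename_i hne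
      have : ∃ k, ¬ (f (glue V' x w) k ↔ f (glue V' (fl x i) w) k) := by
        by_contra hcon
        push Not at hcon
        exact hne (funext fun k => propext (hcon k))
      obtain ⟨k, hk⟩ := this
      refine le_trans ?_ (Finset.single_le_sum (f := fun k =>
        (if ¬ (f (glue V' x w) k ↔ f (glue V' (fl x i) w) k) then (1 : ℝ) else 0))
        (fun k _ => by positivity) (mem_univ k))
      rw [if_pos hk]
    · exact Finset.sum_nonneg fun k _ => by positivity
  refine (Finset.sum_le_sum h1).trans ?_
  rw [Finset.sum_comm]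
  have h2 : ∀ k : Fin r, ∑ i ∈ V', ∑ x : Fin n → Bool,
      (if ¬ (f (glue V' x w) k ↔ f (glue V' (fl x i) w) k) then (1 : ℝ) else 0) ≤
      Real.sqrt V'.card * 2 ^ n := fun k =>
    unate_one V' (o k) (fun x => f x k) w fun j hj x hx h => hf k j (hV' hj) x hx h
  refine (Finset.sum_le_sum fun k _ => h2 k).trans (le_of_eq ?_)
  simp
  ring

end

end Pool.Agent.H.MP_4093f8_co.Ord
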