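import Pool.Agent.H.MP_4093f8_co.OrdQ

/-!
# Ordered counting in the cube, part S

The total influence of polynomial threshold functions.
-/

open Finset

namespace Pool.Agent.H.MP_4093f8_co.Ord

section

variable {n : ℕ}

/-- The discrete derivative. -/
def dd (i : Fin n) (p : (Fin n → Bool) → ℝ) (x : Fin n → Bool) : ℝ :=
  p (Function.update x i true) - p (Function.update x i false)

lemma dd_fl (i : Fin n) (p : (Fin n → Bool) → ℝ) (x : Fin n → Bool) :
    dd i p (fl x i) = dd i p x := by
  unfold dd fl
  simp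

/-- `p` is a polynomial of degree at most `d` in the coordinates of `V`. -/
def Deg (V : Finset (Fin n)) : ℕ → ((Fin n → Bool) → ℝ) → Prop
  | 0, p => ∀ i ∈ V, ∀ x, p (fl x i) = p x
  | d + 1, p => ∀ i ∈ V, Deg V d (dd i p)

open Classical in
/-- The number of pairs `(x, i)`, `i ∈ V`, such that the sign of `p` changes. -/
noncomputable def as (V : Finset (Fin n)) (p : (Fin n → Bool) → ℝ) : ℝ :=
  ∑ i ∈ V, ∑ x : Fin n → Bool, if ¬ (0 < p x ↔ 0 < p (fl x i)) then 1 else 0

/-- The sign, with the convention that the sign of `0` is `-1`. -/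
noncomputable def sn (t : ℝ) : ℝ := if 0 < t then 1 else -1

lemma sn_abs (t : ℝ) : |sn t| = 1 := by unfold sn; split <;> simp

lemma sn_sq (t : ℝ) : sn t * sn t = 1 := by unfold sn; split <;> norm_num

lemma as_nonneg (V : Finset (Fin n)) (p : (Fin n → Bool) → ℝ) : 0 ≤ as V p :=
  Finset.sum_nonneg fun _ _ => Finset.sum_nonneg fun _ _ => by positivity

/-- The influences through the signs of the derivatives. -/
lemma inf_eq (p : (Fin n → Bool) → ℝ) (i : Fin n) :
    open Classical in
    ∑ x : Fin n → Bool, (if ¬ (0 < p x ↔ 0 < p (fl x i)) then (1 : ℝ) else 0) =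
      ∑ x, sn (p x) * (- ep i x * sn (dd i p x)) := by
  classical
  have h1 : ∀ g : (Fin n → Bool) → ℝ, ∑ x, g x = ∑ x, (g x + g (fl x i)) / 2 := by
    intro g
    rw [← Finset.sum_div, Finset.sum_add_distrib, sum_fl g i]
    ring
  rw [h1 (fun x => if ¬ (0 < p x ↔ 0 < p (fl x i)) then (1 : ℝ) else 0),
    h1 (fun x => sn (p x) * (- ep i x * sn (dd i p x)))]
  refine Finset.sum_congr rfl fun x _ => ?_
  simp only [fl_fl, dd_fl, ep_fl_self]
  have e1 : dd i p x = if x i = true then p x - p (fl x i) else p (fl x i) - p x := by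
    unfold dd
    cases hx : x i
    · have a1 : Function.update x i true = fl x i := by unfold fl; rw [hx]; rfl
      have a2 : Function.update x i false = x := by rw [← hx]; exact Function.update_eq_self i x
      rw [a1, a2]; simp
    · have a1 : Function.update x i false = fl x i := by unfold fl; rw [hx]; rfl
      have a2 : Function.update x i true = x := by rw [← hx]; exact Function.update_eq_self i x
      rw [a1, a2]; simp
  rw [e1]
  unfold sn ep
  cases hx : x i
  · simp only [Bool.false_eq_true, if_false]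
    by_cases h1 : 0 < p x <;> by_cases h2 : 0 < p (fl x i)
    · simp [h1, h2]
      split <;> norm_num
    · have h3 : ¬ 0 < p (fl x i) - p x := by linarith [not_lt.1 h2]
      simp [h1, h2, h3]
    · have h3 : 0 < p (fl x i) - p x := by linarith [not_lt.1 h1]
      simp [h1, h2, h3]
    · simp [h1, h2]
      split <;> norm_num
  · simp only [if_true]
    by_cases h1 : 0 < p x <;> by_cases h2 : 0 < p (fl x i)
    · simp [h1, h2]
      split <;> norm_num
    · have h3 : 0 < p x - p (fl x i) := by linarith [not_lt.1 h2]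
      simp [h1, h2, h3]
    · have h3 : ¬ 0 < p x - p (fl x i) := by linarith [not_lt.1 h1]
      simp [h1, h2, h3]
    · simp [h1, h2]
      split <;> norm_num

/-- The correlations are bounded by the influences. -/
lemma corr_le (p : (Fin n → Bool) → ℝ) {i j : Fin n} (hij : i ≠ j) :
    open Classical in
    ∑ x, (- ep i x * sn (dd i p x)) * (- ep j x * sn (dd j p x)) ≤
      ∑ x : Fin n → Bool, (if ¬ (0 < dd i p x ↔ 0 < dd i p (fl x j)) then (1 : ℝ) else 0) := by
  classical
  have h1 : ∀ g : (Fin n → Bool) → ℝ, ∑ x, g x = ∑ x, (g x + g (fl x j)) / 2 := by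
    intro g
    rw [← Finset.sum_div, Finset.sum_add_distrib, sum_fl g j]
    ring
  rw [h1]
  refine Finset.sum_le_sum fun x _ => ?_
  rw [dd_fl, ep_fl_self, ep_fl_ne hij]
  unfold sn ep
  by_cases a1 : 0 < dd i p x <;> by_cases a2 : 0 < dd i p (fl x j) <;>
    by_cases a3 : 0 < dd j p x <;> cases hx : x i <;> cases hy : x j <;>
    simp [a1, a2, a3]

/-- One step of the recursion. -/
lemma as_step (V : Finset (Fin n)) (p : (Fin n → Bool) → ℝ) {K : ℝ}
    (hK : ∀ i ∈ V, as V (dd i p) ≤ K * 2 ^ n) :
    (as V p) ^ 2 ≤ (V.card + V.card * K) * (2 ^ n) ^ 2 := by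
  classical
  have h1 : as V p = ∑ x, sn (p x) * ∑ i ∈ V, (- ep i x * sn (dd i p x)) := by
    unfold as
    rw [Finset.sum_congr rfl fun i _ => inf_eq p i, Finset.sum_comm]
    exact Finset.sum_congr rfl fun x _ => by rw [Finset.mul_sum]
  have h2 : as V p ≤ ∑ x, |∑ i ∈ V, (- ep i x * sn (dd i p x))| := by
    rw [h1]
    refine Finset.sum_le_sum fun x _ => ?_
    refine (le_abs_self _).trans ?_
    rw [abs_mul, sn_abs, one_mul]
  have h3 := sq_sum_le_card_mul_sum_sq (s := (univ : Finset (Fin n → Bool)))
    (f := fun x => |∑ i ∈ V, (- ep i x * sn (dd i p x))|)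
  simp only [sq_abs] at h3
  have hcard : (((univ : Finset (Fin n → Bool)).card : ℕ) : ℝ) = 2 ^ n := by simp
  rw [hcard] at h3
  have h4 : ∑ x : Fin n → Bool, (∑ i ∈ V, (- ep i x * sn (dd i p x))) ^ 2 ≤
      (V.card + V.card * K) * 2 ^ n := by
    have e1 : ∀ x : Fin n → Bool, (∑ i ∈ V, (- ep i x * sn (dd i p x))) ^ 2 =
        ∑ i ∈ V, ∑ j ∈ V, (- ep i x * sn (dd i p x)) * (- ep j x * sn (dd j p x)) := by
      intro x
      rw [sq, Finset.sum_mul_sum]
    rw [Finset.sum_congr rfl fun x _ => e1 x, Finset.sum_comm]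
    have e2 : ∀ i ∈ V, ∑ x : Fin n → Bool,
        ∑ j ∈ V, (- ep i x * sn (dd i p x)) * (- ep j x * sn (dd j p x)) ≤
        2 ^ n + K * 2 ^ n := by
      intro i hi
      rw [Finset.sum_comm]
      have e3 : ∀ j ∈ V, ∑ x : Fin n → Bool,
          (- ep i x * sn (dd i p x)) * (- ep j x * sn (dd j p x)) ≤
          (if j = i then (2 : ℝ) ^ n else 0) +
          ∑ x : Fin n → Bool,
            (if ¬ (0 < dd i p x ↔ 0 < dd i p (fl x j)) then (1 : ℝ) else 0) := by
        intro j hj
        by_cases hij : j = i
        · subst hij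
          rw [if_pos rfl]
          have e4 : ∑ x : Fin n → Bool,
              (- ep j x * sn (dd j p x)) * (- ep j x * sn (dd j p x)) = 2 ^ n := by
            rw [← hcard, Finset.card_eq_sum_ones]
            push_cast
            refine Finset.sum_congr rfl fun x _ => ?_
            have a1 := ep_sq j x
            have a2 := sn_sq (dd j p x)
            calc _ = (ep j x * ep j x) * (sn (dd j p x) * sn (dd j p x)) := by ring
              _ = 1 := by rw [a1, a2, one_mul]
          rw [e4]
          have : (0 : ℝ) ≤ ∑ x : Fin n → Bool,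
            (if ¬ (0 < dd j p x ↔ 0 < dd j p (fl x j)) then (1 : ℝ) else 0) :=
            Finset.sum_nonneg fun _ _ => by positivity
          linarith
        · rw [if_neg hij, zero_add]
          exact corr_le p (fun h => hij h.symm)
      refine (Finset.sum_le_sum e3).trans ?_
      rw [Finset.sum_add_distrib]
      have e5 : ∑ j ∈ V, (if j = i then (2 : ℝ) ^ n else 0) = 2 ^ n := by
        rw [Finset.sum_ite_eq' V i]
        simp [hi]
      rw [e5]
      have e6 := hK i hi
      unfold as at e6
      linarith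
    refine (Finset.sum_le_sum e2).trans (le_of_eq ?_)
    rw [Finset.sum_const, nsmul_eq_mul]
    ring
  have h5 : (as V p) ^ 2 ≤ (∑ x, |∑ i ∈ V, (- ep i x * sn (dd i p x))|) ^ 2 :=
    pow_le_pow_left₀ (as_nonneg V p) h2 2
  refine h5.trans (h3.trans ?_)
  calc (2 : ℝ) ^ n * ∑ x : Fin n → Bool, (∑ i ∈ V, (- ep i x * sn (dd i p x))) ^ 2 ≤
      2 ^ n * ((V.card + V.card * K) * 2 ^ n) := mul_le_mul_of_nonneg_left h4 (by positivity)
    _ = _ := by ring

/-- The total influence of a polynomial threshold function of degree `d` in `N` coordinates is at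
most `2 N^(1-1/2^d)`. -/
lemma as_le (V : Finset (Fin n)) (d : ℕ) : ∀ p : (Fin n → Bool) → ℝ, Deg V d p →
    as V p ≤ 2 * (V.card : ℝ) ^ (1 - 1 / 2 ^ d : ℝ) * 2 ^ n := by
  classical
  induction d with
  | zero =>
    intro p hp
    have : as V p = 0 := by
      unfold as
      apply Finset.sum_eq_zero
      intro i hi
      apply Finset.sum_eq_zero
      intro x _
      rw [hp i hi]; simp
    rw [this]; positivity
  | succ d ih =>
    intro p hp
    rcases V.eq_empty_or_nonempty with rfl | hV
    · have : as (∅ : Finset (Fin n)) p = 0 := by unfold as; simp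
      rw [this]; positivity
    have hN : (1 : ℝ) ≤ V.card := by exact_mod_cast hV.card_pos
    set N : ℝ := (V.card : ℝ) with hNdef
    have hN0 : (0 : ℝ) < N := by linarith
    have h1 := as_step V p (K := 2 * N ^ (1 - 1 / 2 ^ d : ℝ)) fun i hi => ih _ (hp i hi)
    have h2 : (N + N * (2 * N ^ (1 - 1 / 2 ^ d : ℝ))) ≤
        (2 * N ^ (1 - 1 / 2 ^ (d + 1) : ℝ)) ^ 2 := by
      have e1 : (2 * N ^ (1 - 1 / 2 ^ (d + 1) : ℝ)) ^ 2 = 4 * (N * N ^ (1 - 1 / 2 ^ d : ℝ)) := by
        rw [mul_pow, ← Real.rpow_natCast (N ^ (1 - 1 / 2 ^ (d + 1) : ℝ)), ← Real.rpow_mul hN0.le]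
        have e2 : N * N ^ (1 - 1 / 2 ^ d : ℝ) = N ^ ((1 - 1 / 2 ^ (d + 1)) * (2 : ℕ) : ℝ) := by
          nth_rewrite 1 [← Real.rpow_one N]
          rw [← Real.rpow_add hN0]
          congr 1
          push_cast
          field_simp
          ring
        rw [e2]; norm_num
      rw [e1]
      have e3 : (1 : ℝ) ≤ N ^ (1 - 1 / 2 ^ d : ℝ) := by
        apply Real.one_le_rpow hN
        have : (1 : ℝ) ≤ 2 ^ d := one_le_pow₀ (by norm_num)
        have : (1 : ℝ) / 2 ^ d ≤ 1 := by
          rw [div_le_one (by positivity)]; exact this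
        linarith
      nlinarith
    have h3 : (as V p) ^ 2 ≤ (2 * N ^ (1 - 1 / 2 ^ (d + 1) : ℝ) * 2 ^ n) ^ 2 := by
      refine h1.trans ?_
      rw [mul_pow]
      exact mul_le_mul_of_nonneg_right h2 (by positivity)
    exact le_of_sq_le_sq h3 (by positivity)

/-- Sums of monomials. -/
lemma deg_sum {ι : Type*} [DecidableEq ι] (V : Finset (Fin n)) (d : ℕ) :
    ∀ (K : Finset ι) (a : ι → ℝ) (T : ι → Finset (Fin n)), (∀ k ∈ K, (T k).card ≤ d) →
    Deg V d (fun x => ∑ k ∈ K, if ∀ j ∈ T k, x j = true then a k else 0) := by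
  induction d with
  | zero =>
    intro K a T hT i _ x
    refine Finset.sum_congr rfl fun k hk => ?_
    have : T k = ∅ := Finset.card_eq_zero.1 (Nat.le_zero.1 (hT k hk))
    simp [this]
  | succ d ih =>
    intro K a T hT i _
    have e : dd i (fun x => ∑ k ∈ K, if ∀ j ∈ T k, x j = true then a k else 0) =
        fun x => ∑ k ∈ K.filter (fun k => i ∈ T k),
          if ∀ j ∈ (T k).erase i, x j = true then a k else 0 := by
      funext x
      unfold dd
      rw [← Finset.sum_sub_distrib, Finset.sum_filter]
      refine Finset.sum_congr rfl fun k hk => ?_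
      by_cases hi : i ∈ T k
      · have e1 : ¬ ∀ j ∈ T k, Function.update x i false j = true := by
          intro h
          have := h i hi
          simp at this
        have e2 : (∀ j ∈ T k, Function.update x i true j = true) ↔
            ∀ j ∈ (T k).erase i, x j = true := by
          constructor
          · intro h j hj
            have h1 := h j (Finset.mem_of_mem_erase hj)
            rwa [Function.update_of_ne (Finset.ne_of_mem_erase hj)] at h1
          · intro h j hj
            by_cases hji : j = i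
            · subst hji; simp
            · rw [Function.update_of_ne hji]
              exact h j (Finset.mem_erase.2 ⟨hji, hj⟩)
        rw [if_neg e1, if_pos hi, sub_zero]
        exact if_congr e2 rfl rfl
      · have e1 : ∀ b, (∀ j ∈ T k, Function.update x i b j = true) ↔ ∀ j ∈ T k, x j = true := by
          intro b
          refine forall₂_congr fun j hj => ?_
          rw [Function.update_of_ne]
          rintro rfl
          exact hi hj
        rw [if_neg hi]
        simp only [e1, sub_self]
    rw [e]
    apply ih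
    intro k hk
    have h1 := Finset.mem_filter.1 hk
    have h2 := hT k h1.1
    rw [Finset.card_erase_of_mem h1.2]
    omega

/-- The total influence of `r` polynomial threshold functions. -/
lemma ptf_bound {r : ℕ} (D : ℕ) (V : Finset (Fin n)) (c : Fin r → Finset (Fin n) → ℝ)
    (f : (Fin n → Bool) → Fin r → Prop) (hf : ∀ x k, f x k ↔ 0 < pol D V (c k) x)
    (V' : Finset (Fin n)) (w : Fin n → Bool) :
    ∑ i ∈ V', sens f V' w i ≤ r * (2 * (V'.card : ℝ) ^ (1 - 1 / 2 ^ D : ℝ)) * 2 ^ n := by
  classical
  have h1 : ∀ i ∈ V', sens f V' w i ≤ ∑ k : Fin r, ∑ x : Fin n → Bool,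
      (if ¬ (f (glue V' x w) k ↔ f (glue V' (fl x i) w) k) then (1 : ℝ) else 0) := by
    intro i _
    unfold sens
    rw [Finset.sum_comm]
    refine Finset.sum_le_sum fun x _ => ?_
    split
    · rename_i hne
      have : ∃ k, ¬ (f (glue V' x w) k ↔ f (glue V' (fl x i) w) k) := by
        by_contra hcon
        push Not at hcon
        exact hne (funext fun k => propext (hcon k))
      obtain ⟨k, hk⟩ := this
      refine le_trans ?_ (Finset.single_le_sum (f := fun k =>
        (if ¬ (f (glue V' x w) k ↔ f (glue V' (fl x i) w) k) then (1 : ℝ) else 0))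
        (fun k _ => by positivity) (mem_univ k))
      rw [if_pos hk]
    · exact Finset.sum_nonneg fun k _ => by positivity
  refine (Finset.sum_le_sum h1).trans ?_
  rw [Finset.sum_comm]
  have h2 : ∀ k : Fin r, ∑ i ∈ V', ∑ x : Fin n → Bool,
      (if ¬ (f (glue V' x w) k ↔ f (glue V' (fl x i) w) k) then (1 : ℝ) else 0) ≤
      2 * (V'.card : ℝ) ^ (1 - 1 / 2 ^ D : ℝ) * 2 ^ n := by
    intro k
    have hdeg : Deg V' D (fun x => pol D V (c k) (glue V' x w)) := by
      have e : (fun x => pol D V (c k) (glue V' x w)) = fun x =>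
          ∑ T ∈ V.powerset.filter (fun T => T.card ≤ D ∧ ∀ j ∈ T \ V', w j = true),
            if ∀ j ∈ T ∩ V', x j = true then c k T else 0 := by
        funext x
        unfold pol
        rw [← Finset.sum_filter, Finset.filter_filter]
        apply Finset.sum_congr _ (fun _ _ => rfl)
        apply Finset.filter_congr
        intro T _
        constructor
        · rintro ⟨a1, a2⟩
          refine ⟨⟨a1, fun j hj => ?_⟩, fun j hj => ?_⟩
          · have := a2 j (Finset.mem_sdiff.1 hj).1
            rwa [glue_notMem (Finset.mem_sdiff.1 hj).2] at this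
          · have := a2 j (Finset.mem_inter.1 hj).1
            rwa [glue_mem (Finset.mem_inter.1 hj).2] at this
        · rintro ⟨⟨a1, a2⟩, a3⟩
          refine ⟨a1, fun j hj => ?_⟩
          by_cases h : j ∈ V'
          · rw [glue_mem h]; exact a3 j (Finset.mem_inter.2 ⟨hj, h⟩)
          · rw [glue_notMem h]; exact a2 j (Finset.mem_sdiff.2 ⟨hj, h⟩)
      rw [e]
      apply deg_sum
      intro T hT
      exact (Finset.card_le_card Finset.inter_subset_left).trans (Finset.mem_filter.1 hT).2.1
    have h3 := as_le V' D _ hdeg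
    refine le_trans (le_of_eq ?_) h3
    unfold as
    refine Finset.sum_congr rfl fun i _ => Finset.sum_congr rfl fun x _ => ?_
    simp only [hf]
  refine (Finset.sum_le_sum fun k _ => h2 k).trans (le_of_eq ?_)
  simp
  ring

end

end Pool.Agent.H.MP_4093f8_co.Ord
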